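import Pool.Agent.Helper93.H4.Wn
import Pool.Agent.Helper98.LV.Seq
import Pool.Agent.Helper80.HCI.Fzh

/-! H4 at the windows of the sequence of boxes at a typical window. -/

set_option autoImplicit false

namespace Pool.Agent.Helper93.H4

open Finset Filter Topology Pool.Agent.Helper69.RK Pool.Agent.Helper31.EC Pool.Agent.Helper31.EC.Sp
open Pool.Agent.Helper40.EL Pool.Agent.Helper42.NS Pool.Agent.Helper91.GR
open Pool.Agent.Helper98.FR Pool.Agent.Helper98.LV Pool.Agent.Helper89.LX Pool.Agent.Helper31.NSB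
open Pool.Agent.Helper80.HCI (H4P)
open Pool.Agent.Helper19.S12 (la)
open Pool.Agent.Helper59.EV (ST)

noncomputable section

/-- **H4** in the form of helper80 -/
theorem HW.h4P {S : Sp} {s : Sys S 3} {q lam eta : ℕ → ℝ} {L : ℕ → Lab S} {b : Bx s q lam eta L} {i : ℕ}
    {e ηn δ : ℝ} {he : 0 < e} {hη : ηn ≤ b.bd.eta i} (H : HW (lam := lam) (q := q) (s := s) i e ηn δ) {ε : ℝ}
    (hε : 32 * δ ≤ ε) : H4P (U := b.bd.Sj i e he) ε (QS.mk (b.bd.tT i e he)) (QS.mk (b.bd.yT i e he))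
      (QS.mk (b.bd.RT i e he)) (QS.mk (b.bd.zT i e he ηn hη)) := by
  intro E hE al be hal hbe hz
  have h1 := H.h4 (b := b) (he := he) (hη := hη) E hE al be hal hbe hz
  linarith

/-- **H4 at the windows near a typical window** -/
theorem h4_win {D : ℕ} (hD : 1 ≤ D) {g : ℝ} {S : Sp} {s : Sys S 3} (hst : ST 1 2) (hR : Rbb g s) {c w1 w d : ℝ}
    (hW : Win D s 0 1 2 c w1 w d) {r ε : ℝ} (hr0 : 0 ≤ r) (hr1 : r < 1) (hε : 0 < ε) : ∃ e0 : ℝ, 0 < e0 ∧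
    ∀ e : ℝ, 0 < e → e ≤ e0 → ∀ {q lam eta : ℕ → ℝ} {L : ℕ → Lab S} (b : Bx s q lam eta L) (i : ℕ), q i = c + e * r →
      lam i = la s 1 {0, 1} (q i) → eta i = la s 2 {0, 1, 2} (q i) → ∀ (e1 : ℝ) (he1 : 0 < e1), e1 = e * (1 - r) →
      H4P (U := b.bd.Sj i e1 he1) ε (QS.mk (b.bd.tT i e1 he1)) (QS.mk (b.bd.yT i e1 he1))
        (QS.mk (b.bd.RT i e1 he1)) (QS.mk (b.bd.zT i e1 he1 (b.bd.eta i) le_rfl)) := by
  obtain ⟨e0, he0, h⟩ := hw_win hD hst hR hW hr0 hr1 (show 0 < ε / 32 by positivity)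
  refine ⟨e0, he0, fun e h1 h2 q lam eta L b i hq hlam heta e1 he1 hee => ?_⟩
  have H := h e h1 h2 q lam i hq hlam
  rw [← heta, ← hee] at H
  exact H.h4P (by linarith)

/-- **H4 at the windows of the sequence of boxes** -/
theorem h4_sq {D : ℕ} (hD : 1 ≤ D) {g : ℝ} {S : Sp} {s : Sys S 3} (hst : ST 1 2) (hR : Rbb g s) {c w1 w d : ℝ}
    (hW : Win D s 0 1 2 c w1 w d) {σ A : ℝ} {N : Scl σ A}
    (Q : Sq s (la s 1 {0, 1}) (la s 2 {0, 1, 2}) c w1 w N) (i : ℕ) (hi : i ≠ 0) (hr1 : N.ν i < 1) {ε : ℝ}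
    (hε : 0 < ε) : ∀ᶠ j in atTop, ∀ (e1 : ℝ) (he1 : 0 < e1), e1 = Q.e j * (1 - N.ν i) →
      H4P (U := (Q.X j).b.bd.Sj i e1 he1) ε (QS.mk ((Q.X j).b.bd.tT i e1 he1)) (QS.mk ((Q.X j).b.bd.yT i e1 he1))
        (QS.mk ((Q.X j).b.bd.RT i e1 he1)) (QS.mk ((Q.X j).b.bd.zT i e1 he1 ((Q.X j).b.bd.eta i) le_rfl)) := by
  obtain ⟨e0, he0, h⟩ := h4_win hD hst hR hW (N.nn i) hr1 hε
  filter_upwards [Q.e0.eventually (gt_mem_nhds he0)] with j hj e1 he1 hee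
  exact h (Q.e j) (Q.he j) hj.le (Q.X j).b i rfl rfl ((Q.X j).eq i hi) e1 he1 hee

end

end Pool.Agent.Helper93.H4
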