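import Pool.Agent.Helper93.H4.Shr
import Pool.Agent.Helper88.NSK.Hfp

/-! AFFINE RELATIONS between the coordinates of the point with literal slopes, one of them not small, are forms of
degree 1. (H4) -/

set_option autoImplicit false

namespace Pool.Agent.Helper93.H4

open Finset Filter Topology Pool.Agent.Helper69.RK Pool.Agent.Helper31.EC Pool.Agent.Helper31.EC.Sp
open MvPolynomial Pool.Agent.Helper40.EL Pool.Agent.Helper42.NS Pool.Agent.Helper91.GR
open Pool.Agent.Helper3.LF Pool.Agent.Helper89.LX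
open Pool.Agent.Helper52.KP hiding ic ic_nonneg

noncomputable section

section pol

variable {N : ℕ}

/-- affine polynomials -/
def afp (g0 : ℝ) (g : Fin N → ℝ) : MvPolynomial (Fin N) ℝ := C g0 + ∑ j, C (g j) * X j

theorem afp_deg (g0 : ℝ) (g : Fin N → ℝ) : (afp g0 g).totalDegree ≤ 1 := by
  have h2 : (C g0 : MvPolynomial (Fin N) ℝ).totalDegree ≤ 1 := by rw [totalDegree_C]; exact zero_le_one
  have h3 : (∑ j, C (g j) * X j : MvPolynomial (Fin N) ℝ).totalDegree ≤ 1 := by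
    refine totalDegree_finsetSum_le fun j _ => ?_
    refine (totalDegree_mul _ _).trans ?_
    rw [totalDegree_C, zero_add]
    exact (totalDegree_X _).le
  exact (totalDegree_add _ _).trans (max_le h2 h3)

theorem eval_afp (g0 : ℝ) (g : Fin N → ℝ) (p : Fin N → ℝ) : eval p (afp g0 g) = g0 + ∑ j, g j * p j := by
  unfold afp
  simp

theorem pderiv_afp (g0 : ℝ) (g : Fin N → ℝ) (i : Fin N) : pderiv i (afp g0 g) = C (g i) := by
  unfold afp
  rw [map_add, pderiv_C, zero_add, map_sum, Finset.sum_eq_single i]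
  · rw [pderiv_C_mul, pderiv_X_self, mul_one]
  · intro b _ hb
    rw [pderiv_C_mul, pderiv_X, Pi.single_eq_of_ne hb, mul_zero]
  · intro h
    exact absurd (Finset.mem_univ _) h

/-- the coefficients -/
def afc (z : Cf N) : Mon N 1 → ℝ := (exists_pol _ (afp_deg z.1 z.2)).choose

theorem pol_afc (z : Cf N) : pol (afc z) = afp z.1 z.2 := (exists_pol _ (afp_deg z.1 z.2)).choose_spec.symm

/-- the size of the affine function on the cell -/
theorem ph_afp_le (r M B : ℝ) (hr : 0 ≤ r) (g0 : ℝ) (g : Fin N → ℝ) (p : Fin N → ℝ) (hM0 : 0 ≤ M)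
    (hM : ∀ j, |g j| ≤ M) (h : |eval p (afp g0 g)| ≤ B) :
    ph 1 (afp g0 g) r p ≤ nn N 1 * (B + r * (N * M)) ^ 2 := by
  unfold ph
  refine (Finset.sum_le_card_nsmul _ _ ((B + r * (N * M)) ^ 2) fun j _ => ?_).trans (le_of_eq ?_)
  · rw [← sq_abs]
    apply pow_le_pow_left₀ (abs_nonneg _)
    rw [eval_afp] at h ⊢
    have e1 : g0 + ∑ l, g l * nodp 1 p r j l = (g0 + ∑ l, g l * p l) + r * ∑ l, g l * nod 1 (j l) := by
      unfold nodp
      have e2 : ∑ l, g l * (p l + r * nod 1 (j l)) = ∑ l, g l * p l + r * ∑ l, g l * nod 1 (j l) := by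
        rw [Finset.mul_sum, ← Finset.sum_add_distrib]
        exact Finset.sum_congr rfl fun l _ => by ring
      rw [e2]
      ring
    rw [e1]
    refine (abs_add_le _ _).trans (add_le_add h ?_)
    rw [abs_mul, abs_of_nonneg hr]
    apply mul_le_mul_of_nonneg_left _ hr
    refine (Finset.abs_sum_le_sum_abs _ _).trans ?_
    have h3 : ∀ l ∈ (Finset.univ : Finset (Fin N)), |g l * nod 1 (j l)| ≤ M := fun l _ => by
      have h4 := nod_nonneg 1 (j l)
      have h5 := nod_le 1 (j l) (Nat.le_of_lt_succ (j l).2)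
      rw [abs_mul, abs_of_nonneg h4]
      calc |g l| * nod 1 (j l) ≤ M * 1 := mul_le_mul (hM l) h5 h4 hM0
        _ = M := mul_one M
    refine (Finset.sum_le_card_nsmul _ _ _ h3).trans ?_
    rw [nsmul_eq_mul, Finset.card_univ, Fintype.card_fin]
  · rw [nsmul_eq_mul, card_nodes]

/-- the size of the gradient -/
theorem le_ga_afp (r : ℝ) (g0 : ℝ) (g : Fin N → ℝ) (p : Fin N → ℝ) (i : Fin N) : (g i) ^ 2 ≤ ga 1 (afp g0 g) r p := by
  have h1 : ph 1 (pderiv i (afp g0 g)) r p ≤ ga 1 (afp g0 g) r p := by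
    unfold ga
    exact Finset.single_le_sum (f := fun i => ph 1 (pderiv i (afp g0 g)) r p) (fun _ _ => ph_nonneg _ _ _)
      (Finset.mem_univ i)
  refine le_trans ?_ h1
  rw [pderiv_afp]
  unfold ph
  refine le_trans (le_of_eq ?_) (Finset.single_le_sum (f := fun j : Fin N → Fin (1 + 1) =>
    (eval (nodp 1 p r j) (C (g i) : MvPolynomial (Fin N) ℝ)) ^ 2) (fun _ _ => sq_nonneg _)
    (Finset.mem_univ (fun _ => (0 : Fin (1 + 1)))))
  show _ = (eval _ (C (g i))) ^ 2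
  rw [eval_C]

end pol

variable {S X : Sp} {l : Lab S} {e : ℝ} {he : 0 < e} {ρ : Pj X (l.ovr e he)} {L2 : Lab X}

/-- FORMS from affine relations with literal slopes -/
theorem Hf_mk {s : Sys S 3} {c σ : ℝ} (hσ : σ ≤ 1) (hL : DMc s c (cmpL ρ L2)) (g0 : ∀ k, (L2 k).T.Ω → ℝ)
    (g : Fin 4 → ∀ k, (L2 k).T.Ω → ℝ) (h0 : Ll L2 g0) (hl : ∀ j, Ll L2 (g j)) {K : ℕ → ℝ} (hK : X.Sub K)
    (ht : Typ (S := L2.sp) (fun k (ω : (L2 k).T.Ω) => (∀ j, |g j k ω| ≤ K k) ∧ (∃ j, 1 ≤ K k * |g j k ω|) ∧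
      |g0 k ω + ∑ j, g j k ω * ptf s k (ptl ρ k ((L2 k).p.π ω)) j| ≤ K k * S.dl σ k)) : Hf s 1 c σ := by
  classical
  have hl' : ∀ᶠ k in UF, ∀ ω ω', (L2 k).T.μ ω ≠ 0 → (L2 k).T.μ ω' ≠ 0 → (L2 k).V ω ω' → (L2 k).T.Z ω ω' →
      g0 k ω = g0 k ω' ∧ ∀ j, g j k ω = g j k ω' := by
    have h2 : ∀ᶠ k in UF, ∀ j, ∀ ω ω', (L2 k).T.μ ω ≠ 0 → (L2 k).T.μ ω' ≠ 0 → (L2 k).V ω ω' → (L2 k).T.Z ω ω' →
      g j k ω = g j k ω' := eventually_all.mpr hl
    filter_upwards [h0, h2] with k a b ω ω' x1 x2 x3 x4 using ⟨a ω ω' x1 x2 x3 x4, fun j => b j ω ω' x1 x2 x3 x4⟩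
  set P : ℕ → Prop := fun k => ∀ ω ω', (L2 k).T.μ ω ≠ 0 → (L2 k).T.μ ω' ≠ 0 → (L2 k).V ω ω' → (L2 k).T.Z ω ω' →
      g0 k ω = g0 k ω' ∧ ∀ j, g j k ω = g j k ω' with hP
  have hK' := X_sub ρ hK
  have hK2 : S.Sub (fun k => nn 4 1 * (K k + 4 * K k) ^ 2 + K k ^ 2) := by
    have h4 : S.Sub (fun k => (K k + 4 * K k) ^ 2) := Sub_powN (hK'.add ((S.Sub_const (show (0 : ℝ) ≤ 4 by norm_num)).mul hK')) 2
    have h5 : S.Sub (fun k => K k ^ 2) := Sub_powN hK' 2
    have := nn_one 4 1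
    exact ((S.Sub_const (by linarith)).mul h4).add h5
  refine Pool.Agent.Helper88.NSK.Hf_of_poly (cmpL ρ L2) hL (fun k (ω : (L2 k).T.Ω) =>
    if P k then afc (g0 k ω, fun j => g j k ω) else 0) ?_ _ hK2 ?_
  · intro k ω ω' a b c d
    have h1 := cmp_lit (ρ := ρ) a b c d
    by_cases hk : P k
    · show (if P k then afc (g0 k ω, fun j => g j k ω) else 0) = (if P k then afc (g0 k ω', fun j => g j k ω') else 0)
      rw [if_pos hk, if_pos hk]
      have h2 := hk ω ω' a b h1.1 h1.2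
      rw [h2.1]
      congr 2
      funext j
      exact h2.2 j
    · show (if P k then afc (g0 k ω, fun j => g j k ω) else 0) = (if P k then afc (g0 k ω', fun j => g j k ω') else 0)
      rw [if_neg hk, if_neg hk]
  · have h3 : Typ (S := L2.sp) (fun k (ω : (L2 k).T.Ω) =>
        2 ^ (2 * σ * (S.F k).n) * ph 1 (pol (if P k then afc (g0 k ω, fun j => g j k ω) else 0)) (S.dl 1 k)
          (ptf s k (ptl ρ k ((L2 k).p.π ω))) ≤ nn 4 1 * (K k + 4 * K k) ^ 2 + K k ^ 2 ∧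
        1 ≤ (nn 4 1 * (K k + 4 * K k) ^ 2 + K k ^ 2) * ga 1 (pol (if P k then afc (g0 k ω, fun j => g j k ω) else 0))
          (S.dl 1 k) (ptf s k (ptl ρ k ((L2 k).p.π ω)))) := by
      refine ht.mono ?_
      filter_upwards [hl', hK.1] with k hk hK0 ω _ h4
      obtain ⟨h4, ⟨j, h5⟩, h6⟩ := h4
      have hk' : P k := hk
      rw [if_pos hk', pol_afc]
      have hd := S.dl_pos σ k
      have hd1 := S.dl_pos 1 k
      have hn4 := nn_one 4 1
      constructor
      · have h7 := ph_afp_le (S.dl 1 k) (K k) (K k * S.dl σ k) hd1.le (g0 k ω) (fun j => g j k ω)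
          (ptf s k (ptl ρ k ((L2 k).p.π ω))) hK0 h4 (by rw [eval_afp]; exact h6)
        have h8 : S.dl 1 k * (((4 : ℕ) : ℝ) * K k) ≤ S.dl σ k * (4 * K k) := by
          push_cast
          exact mul_le_mul_of_nonneg_right (S.dl_anti hσ k) (by positivity)
        have h9 : K k * S.dl σ k + S.dl 1 k * (((4 : ℕ) : ℝ) * K k) ≤ (K k + 4 * K k) * S.dl σ k := by linarith
        have h10 : 0 ≤ K k * S.dl σ k + S.dl 1 k * (((4 : ℕ) : ℝ) * K k) := by positivity
        have h11 := pow_le_pow_left₀ h10 h9 2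
        have e2 : (2 : ℝ) ^ (2 * σ * (S.F k).n) * S.dl σ k ^ 2 = 1 := by
          unfold Sp.dl
          rw [← Real.rpow_natCast (2 ^ _) 2, ← Real.rpow_mul (by norm_num), ← Real.rpow_add (by norm_num)]
          have : 2 * σ * (S.F k).n + -(σ * (S.F k).n) * ((2 : ℕ) : ℝ) = 0 := by push_cast; ring
          rw [this, Real.rpow_zero]
        calc (2 : ℝ) ^ (2 * σ * (S.F k).n) * ph 1 (afp (g0 k ω) fun j => g j k ω) (S.dl 1 k)
              (ptf s k (ptl ρ k ((L2 k).p.π ω))) ≤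
              (2 : ℝ) ^ (2 * σ * (S.F k).n) * (nn 4 1 * ((K k + 4 * K k) * S.dl σ k) ^ 2) := by
              apply mul_le_mul_of_nonneg_left _ (by positivity)
              exact h7.trans (mul_le_mul_of_nonneg_left h11 (by linarith))
          _ = nn 4 1 * (K k + 4 * K k) ^ 2 * ((2 : ℝ) ^ (2 * σ * (S.F k).n) * S.dl σ k ^ 2) := by ring
          _ = nn 4 1 * (K k + 4 * K k) ^ 2 := by rw [e2, mul_one]
          _ ≤ _ := by
              have := sq_nonneg (K k)
              linarith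
      · have h7 := le_ga_afp (S.dl 1 k) (g0 k ω) (fun j => g j k ω) (ptf s k (ptl ρ k ((L2 k).p.π ω))) j
        have h8 : 1 ≤ K k ^ 2 * (g j k ω) ^ 2 := by
          have h9 : 1 ≤ (K k * |g j k ω|) ^ 2 := one_le_pow₀ h5
          rw [mul_pow, sq_abs] at h9
          exact h9
        have h10 : K k ^ 2 ≤ nn 4 1 * (K k + 4 * K k) ^ 2 + K k ^ 2 := by
          have : 0 ≤ nn 4 1 * (K k + 4 * K k) ^ 2 := by positivity
          linarith
        calc (1 : ℝ) ≤ K k ^ 2 * (g j k ω) ^ 2 := h8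
          _ ≤ (nn 4 1 * (K k + 4 * K k) ^ 2 + K k ^ 2) * (g j k ω) ^ 2 :=
              mul_le_mul_of_nonneg_right h10 (sq_nonneg _)
          _ ≤ _ := mul_le_mul_of_nonneg_left h7 ((sq_nonneg _).trans h10)
    exact h3

end

end Pool.Agent.Helper93.H4
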