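import Pool.Agent.Helper93.LIP.Line

/-! Affine forms in the plane: volume, two points of one sheet, the sheet of a form. (H4) -/

set_option autoImplicit false

namespace Pool.Agent.Helper93.H4

open Matrix Pool.Agent.Helper3.LF Pool.Agent.Helper48.NS Pool.Agent.Helper89.LX Pool.Agent.Helper39.LIP
open Pool.Agent.Helper93.LIP
open Pool.Agent.Helper95.LF (PdM)

noncomputable section

/-- horizontal unit vectors -/
abbrev ge (i : Fin 2) : Mon 3 1 → ℝ := gM (Pi.single i 1 : Fin 2 → ℝ)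

/-- the vertical unit vector -/
abbrev gt : Mon 3 1 → ℝ := gv (Pi.single 0 1 : Fin 3 → ℝ)

theorem ge_eq (i : Fin 2) : ge i = gv (Pi.single i.succ 1 : Fin 3 → ℝ) := by
  unfold ge gM
  congr 1
  funext j
  refine Fin.cases ?_ (fun l => ?_) j
  · rw [Fin.cons_zero, Pi.single_eq_of_ne (Fin.succ_ne_zero i).symm]
  · rw [Fin.cons_succ]
    by_cases h : l = i
    · rw [h, Pi.single_eq_same, Pi.single_eq_same]
    · rw [Pi.single_eq_of_ne h, Pi.single_eq_of_ne (fun h' => h (Fin.succ_injective _ h'))]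

theorem gv_dec (u : Fin 3 → ℝ) : gv u = u 0 • gt + u 1 • ge 0 + u 2 • ge 1 := by
  have h1 : u = u 0 • (Pi.single 0 1 : Fin 3 → ℝ) + u 1 • (Pi.single 1 1 : Fin 3 → ℝ) +
      u 2 • (Pi.single 2 1 : Fin 3 → ℝ) := by
    funext i
    fin_cases i <;> simp
  have h0 : ge 0 = gv (Pi.single 1 1 : Fin 3 → ℝ) := ge_eq 0
  have h2 : ge 1 = gv (Pi.single 2 1 : Fin 3 → ℝ) := ge_eq 1
  rw [h0, h2]
  conv_lhs => rw [h1]
  rw [gv_add, gv_add, gv_smul, gv_smul, gv_smul]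

/-! ### volume -/

theorem det_two {M : Matrix (Fin 2) (Fin 2) ℝ} (hs : M.IsSymm) : M.det ≤ M 0 0 * M 1 1 := by
  rw [Matrix.det_fin_two]
  have h1 : M 1 0 = M 0 1 := hs.apply 0 1
  rw [h1]
  nlinarith [mul_self_nonneg (M 0 1)]

theorem diag_dv (M : Matrix (Fin 2) (Fin 2) ℝ) (i : Fin 2) :
    M i i = (Pi.single i 1 : Fin 2 → ℝ) ⬝ᵥ (M *ᵥ (Pi.single i 1 : Fin 2 → ℝ)) := by
  rw [Matrix.mulVec_single_one, single_one_dotProduct]
  rfl

/-- the volume of a form in the plane -/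
theorem GG_le_two (r : ℝ) {A : Matrix (Mon 3 1) (Mon 3 1) ℝ} (hA : PdM A) (p : Fin 3 → ℝ) :
    GG r A p ≤ (1 + nn 3 1 * qf A (ge 0)) * (1 + nn 3 1 * qf A (ge 1)) := by
  unfold GG
  refine (det_two (one_Jf_symm r hA.1 p)).trans (le_of_eq ?_)
  have key : ∀ i : Fin 2, (1 + Jf r A p) i i = 1 + nn 3 1 * qf A (ge i) := by
    intro i
    rw [Matrix.add_apply, Matrix.one_apply_eq, diag_dv (Jf r A p) i, Jf_gM]
  rw [key, key]

/-! ### nodes -/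

theorem node_t (p : Fin 3 → ℝ) (r : ℝ) :
    nodp 1 p r (Pi.single 0 1 : Fin 3 → Fin 2) = p + (r / 2) • (Pi.single 0 1 : Fin 3 → ℝ) := by
  funext i
  fin_cases i <;> simp [nodp, nod] <;> ring

/-- the derivative in the direction `t` -/
theorem qf_gt_le {A : Matrix (Mon 3 1) (Mon 3 1) ℝ} (h0 : ∀ v, 0 ≤ qf A v) (r : ℝ) (p : Fin 3 → ℝ) {M : ℝ}
    (h : phi r A p ≤ M) : r ^ 2 * qf A gt ≤ 16 * M := by
  have h1 : qf A (vv (nodp 1 p r (Pi.single 0 1 : Fin 3 → Fin 2))) ≤ phi r A p :=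
    Finset.single_le_sum (f := fun j : Fin 3 → Fin (1 + 1) => vv (nodp 1 p r j) ⬝ᵥ (A *ᵥ vv (nodp 1 p r j)))
      (fun j _ => h0 _) (Finset.mem_univ (Pi.single 0 1 : Fin 3 → Fin 2))
  have h2 := qf_vv_le (A := A) h0 r p
  rw [node_t, vv_gv, gv_smul] at h1
  have h3 := qf_sub_le h0 (vv p + (r / 2) • gt) (vv p)
  rw [add_sub_cancel_left, qf_smul_vec] at h3
  have h4 : qf A (vv p + (r / 2) • gt) ≤ M := h1.trans h
  nlinarith [h3, h4, h2.trans h]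

/-- two points at which the form is bounded -/
theorem two_pts {A : Matrix (Mon 3 1) (Mon 3 1) ℝ} (h0 : ∀ v, 0 ≤ qf A v) {r M K : ℝ} {p p' : Fin 3 → ℝ}
    (h : phi r A p ≤ M) (h' : phi r A p' ≤ M) (ht : |p 0 - p' 0| ≤ r) (hK : |p 2 - p' 2| ≤ K) :
    (p 1 - p' 1) ^ 2 * qf A (ge 0) ≤ 72 * M + 4 * (K ^ 2 * qf A (ge 1)) := by
  have hM : 0 ≤ M := (phi_nonneg r (fun x => h0 x) p).trans h
  have h1 := (qf_vv_le (A := A) h0 r p).trans h
  have h2 := (qf_vv_le (A := A) h0 r p').trans h'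
  have h3 := qf_sub_le h0 (vv p) (vv p')
  have e1 : (vv p : Mon 3 1 → ℝ) - vv p' = gv (p - p') := by
    have h4 : (vv p : Mon 3 1 → ℝ) = vv (p' + (p - p')) := by rw [add_sub_cancel]
    rw [h4, vv_gv, add_sub_cancel_left]
  rw [e1] at h3
  set u := p - p' with hu
  have h5 := qf_gt_le h0 r p h
  have e2 : u 1 • ge 0 = gv u - (u 0 • gt + u 2 • ge 1) := by
    rw [gv_dec u]
    abel
  have h6 := qf_sub_le h0 (gv u) (u 0 • gt + u 2 • ge 1)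
  rw [← e2, qf_smul_vec] at h6
  have h7 : qf A (u 0 • gt + u 2 • ge 1) ≤ 2 * (u 0 ^ 2 * qf A gt + u 2 ^ 2 * qf A (ge 1)) := by
    have h8 := qf_sub_le h0 (u 0 • gt) (-(u 2) • ge 1)
    rw [qf_smul_vec, qf_smul_vec, neg_smul, sub_neg_eq_add, neg_sq] at h8
    exact h8
  have hgt := h0 gt
  have hg1 := h0 (ge 1)
  have h9 : u 0 ^ 2 * qf A gt ≤ 16 * M := by
    refine le_trans (mul_le_mul_of_nonneg_right ?_ hgt) h5
    rw [← sq_abs]
    exact pow_le_pow_left₀ (abs_nonneg _) ht 2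
  have h10 : u 2 ^ 2 * qf A (ge 1) ≤ K ^ 2 * qf A (ge 1) := by
    apply mul_le_mul_of_nonneg_right _ hg1
    rw [← sq_abs]
    exact pow_le_pow_left₀ (abs_nonneg _) hK 2
  have e3 : (p 1 - p' 1) ^ 2 = u 1 ^ 2 := rfl
  rw [e3]
  nlinarith [h6, h7, h9, h10, h3, h1, h2]

/-! ### the sheet of a form -/

/-- the functional of the form, normalized at `p_2` -/
def fn (A : Matrix (Mon 3 1) (Mon 3 1) ℝ) (v : Mon 3 1 → ℝ) : ℝ := (ge 1 ⬝ᵥ (A *ᵥ v)) / qf A (ge 1)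

theorem fn_add (A : Matrix (Mon 3 1) (Mon 3 1) ℝ) (v w : Mon 3 1 → ℝ) : fn A (v + w) = fn A v + fn A w := by
  unfold fn
  rw [Matrix.mulVec_add, dotProduct_add, add_div]

theorem fn_smul (A : Matrix (Mon 3 1) (Mon 3 1) ℝ) (c : ℝ) (v : Mon 3 1 → ℝ) : fn A (c • v) = c * fn A v := by
  unfold fn
  rw [Matrix.mulVec_smul, dotProduct_smul, smul_eq_mul, mul_div_assoc]

theorem fn_one {A : Matrix (Mon 3 1) (Mon 3 1) ℝ} (h : 0 < qf A (ge 1)) : fn A (ge 1) = 1 := div_self h.ne'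

theorem fn_sq {A : Matrix (Mon 3 1) (Mon 3 1) ℝ} (hA : PdM A) (v : Mon 3 1 → ℝ) (h : 0 < qf A (ge 1)) :
    fn A v ^ 2 ≤ qf A v / qf A (ge 1) := by
  unfold fn
  have h1 := qf_cs hA.1 (fun v => hA.nonneg v) (ge 1) v
  rw [div_pow, div_le_div_iff₀ (by positivity) h]
  nlinarith [h1, h]

/-- the value at a point -/
theorem fn_vv {A : Matrix (Mon 3 1) (Mon 3 1) ℝ} (h : 0 < qf A (ge 1)) (p : Fin 3 → ℝ) :
    fn A (vv p) = fn A (vv 0) + p 0 * fn A gt + p 1 * fn A (ge 0) + p 2 := by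
  have e : (vv p : Mon 3 1 → ℝ) = vv 0 + (p 0 • gt + p 1 • ge 0 + p 2 • ge 1) := by
    rw [← gv_dec, ← vv_gv, zero_add]
  rw [e, fn_add, fn_add, fn_add, fn_smul, fn_smul, fn_smul, fn_one h]
  ring

/-- the value at a velocity -/
theorem fn_vel {A : Matrix (Mon 3 1) (Mon 3 1) ℝ} (h : 0 < qf A (ge 1)) (x : Fin 2 → ℝ) :
    fn A (gv (Fin.cons 1 x : Fin 3 → ℝ)) = fn A gt + x 0 * fn A (ge 0) + x 1 := by
  rw [gv_dec, fn_add, fn_add, fn_smul, fn_smul, fn_smul, fn_one h]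
  have h1 : (Fin.cons 1 x : Fin 3 → ℝ) 1 = x 0 := rfl
  have h2 : (Fin.cons 1 x : Fin 3 → ℝ) 2 = x 1 := rfl
  rw [h1, h2, Fin.cons_zero]
  ring

end

end Pool.Agent.Helper93.H4
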