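import Pool.Agent.Helper93.H4.Ful
import Pool.Agent.Helper3.ZM.Win

/-! PLANAR SYSTEMS WITHOUT SHEETS ARE FULL: a planar system with no information in the window `0`, whose first
coordinate is full and whose second coordinate has no sheet over `(t, y)` in the window `0`, robustly, has points of
full entropy. (H4, step A) -/

set_option autoImplicit false

namespace Pool.Agent.Helper93.H4

open Finset Filter Topology Matrix Pool.Agent.Helper69.RK Pool.Agent.Helper31.EC Pool.Agent.Helper40.EL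
open Pool.Agent.Helper31.EC.Sp
open Pool.Agent.Helper89.LX Pool.Agent.Helper3.LF Pool.Agent.Helper48.NS
open Pool.Agent.Helper39.LIP Pool.Agent.Helper93.LIP Pool.Agent.Helper3.PR
open Pool.Agent.Helper91.GR Pool.Agent.Helper42.NS
open Pool.Agent.Helper95.LF (PdM)
open Pool.Agent.Helper59.EV (ST)

noncomputable section

/-- one of the directions is steep -/
theorem steep {a b K Z : ℝ} (_ : 0 ≤ a) (hb : 0 ≤ b) (hK : 1 ≤ K) (hKZ : K ≤ Z) (hZ : 3 ≤ Z)
    (h : (Z ^ 2) ^ 4 ≤ (1 + nn 3 1 * a) * (1 + nn 3 1 * b)) (h' : ¬ (Z ^ 2 ≤ a ∧ K * b ≤ a)) : a ≤ K * b ∧ Z ≤ b := by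
  have hn : nn 3 1 = 8 := by
    unfold nn
    norm_num
  rw [hn] at h
  have hX : 9 ≤ Z ^ 2 := by nlinarith
  have hZX : Z ≤ Z ^ 2 := by nlinarith
  by_cases h1 : Z ^ 2 ≤ a
  · have h2 : a < K * b := by
      by_contra hc
      exact h' ⟨h1, not_lt.mp hc⟩
    refine ⟨h2.le, ?_⟩
    by_contra hc
    push Not at hc
    have h3 : K * b ≤ Z * b := mul_le_mul_of_nonneg_right hKZ hb
    nlinarith
  · push Not at h1
    set X := Z ^ 2 with hXd
    have h2 : X ^ 4 ≤ 9 * X * (1 + 8 * b) := by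
      refine h.trans (mul_le_mul_of_nonneg_right ?_ (by linarith))
      linarith
    have h3 : X ^ 3 ≤ 9 * (1 + 8 * b) := by
      have h4 : X * X ^ 3 ≤ X * (9 * (1 + 8 * b)) := by
        calc X * X ^ 3 = X ^ 4 := by ring
          _ ≤ _ := h2
          _ = _ := by ring
      exact le_of_mul_le_mul_left h4 (by linarith)
    have h5 : X ≤ b := by
      have h6 : 81 * X ≤ X ^ 3 := by
        have h7 : 81 ≤ X ^ 2 := by nlinarith
        calc 81 * X ≤ X ^ 2 * X := mul_le_mul_of_nonneg_right h7 (by linarith)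
          _ = X ^ 3 := by ring
      linarith
    refine ⟨?_, hZX.trans h5⟩
    calc a ≤ X := h1.le
      _ ≤ b := h5
      _ = 1 * b := (one_mul b).symm
      _ ≤ K * b := mul_le_mul_of_nonneg_right hK hb

/-- the sheet of a form, with bounded slopes -/
def shf (K : ℝ) (A : Matrix (Mon 3 1) (Mon 3 1) ℝ) : Cf 3 :=
  if |fn A gt| ≤ K ∧ |fn A (ge 0)| ≤ K then (-fn A (vv 0), ![-fn A gt, -fn A (ge 0), 0]) else (0, 0)

theorem shf_bd {K : ℝ} (hK : 0 ≤ K) (A : Matrix (Mon 3 1) (Mon 3 1) ℝ) (j : Fin 3) : |(shf K A).2 j| ≤ K := by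
  unfold shf
  split_ifs with h
  · fin_cases j
    · show |(-fn A gt)| ≤ K
      rw [abs_neg]
      exact h.1
    · show |(-fn A (ge 0))| ≤ K
      rw [abs_neg]
      exact h.2
    · show |(0 : ℝ)| ≤ K
      rw [abs_zero]
      exact hK
  · show |(0 : ℝ)| ≤ K
    rw [abs_zero]
    exact hK

theorem shf_df {K : ℝ} {A : Matrix (Mon 3 1) (Mon 3 1) ℝ} (hA : 0 < qf A (ge 1)) (h1 : |fn A gt| ≤ K)
    (h2 : |fn A (ge 0)| ≤ K) (a x : Fin 2 → ℝ) (t : ℝ) : df 1 {0, 1} (shf K A) a x t = fn A (vv (pl a x t)) := by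
  unfold shf df aff
  rw [if_pos ⟨h1, h2⟩, Finset.sum_pair (by decide), fn_vv hA (pl a x t)]
  have e0 : pl a x t 0 = t := rfl
  have e1 : pl a x t 1 = a 0 + t * x 0 := rfl
  have e2 : pl a x t 2 = a 1 + t * x 1 := rfl
  rw [e0, e1, e2]
  show a 1 + t * x 1 - (-fn A (vv 0) + (-fn A gt * t + -fn A (ge 0) * (a 0 + t * x 0))) = _
  ring

theorem st_lvol_two {Y : Sp} (hst : ST 1 2) (s : Sys Y 2) : 2 - lvol s 1 0 / 2 ≤ h (s.P.dg 1) s.T := by
  have h1 := Pool.Agent.Helper3.ZM.st_lvol hst s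
  push_cast at h1
  exact h1

/-- PLANAR SYSTEMS WITH SHEETS OF DEPTH AT MOST `δ` ARE FULL up to `16 δ` -/
theorem planeE {Y : Sp} (hst : ST 1 2) (s : Sys Y 2) {δ : ℝ} (hδ : 0 ≤ δ)
    (hcon : ∀ (T : Sp) (p : Pj T Y) (E : ∀ k, (T.F k).Ω → Prop) (hE : 0 < ul (T.pr E)), ic (s.im p E hE) 0 ≤ 0)
    (hy : ∀ (T : Sp) (p : Pj T Y) (E : ∀ k, (T.F k).Ω → Prop) (hE : 0 < ul (T.pr E)),
      1 ≤ h (TR.dg (TR.cor (s.im p E hE).P 0) 1) (s.im p E hE).T)
    (hsh : ∀ (T : Sp) (p : Pj T Y) (E : ∀ k, (T.F k).Ω → Prop) (hE : 0 < ul (T.pr E)) (σ : ℝ),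
      HH (SJ 1 {0, 1}) (s.im p E hE) 0 σ → σ ≤ δ) : 2 - 16 * δ ≤ h (s.P.dg 1) s.T := by
  rcases le_or_gt 1 δ with hδ1 | hδ1
  · have h1 := h_nonneg (s.P.dg 1) s.T
    linarith
  have h1 := st_lvol_two hst s
  set Λ := lvol s 1 0 with hΛ
  suffices h2 : Λ ≤ 32 * δ by linarith
  by_contra hc0
  push Not at hc0
  have hc : 0 < Λ := by linarith
  obtain ⟨x, hx⟩ := exists_can s 1 0
  have hxv := lvol_eq s hx.1
  have hxa := hx.1.1
  -- the event of large volume
  set E1 : ∀ k, (x k).l.T.Ω → Prop := fun k ω => Λ / 2 * (Y.F k).n ≤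
    Real.logb 2 (GG (Y.dl 1 k) ((x k).g ω) (ptf s k ((x k).l.p.π ω))) with hE1
  have hpE1 : 0 < ul (fun k => (x k).l.T.pb (E1 k)) := by
    obtain ⟨C, hC, hub⟩ := logGG_ub s 1
    by_contra hcon1
    push Not at hcon1
    have hU : UB (fun k => (x k).l.T.pb (E1 k)) :=
      UB_of_nonneg_le (C := 1) (Eventually.of_forall fun k => FSp.pb_nonneg _ _)
        (Eventually.of_forall fun k => FSp.pb_le_one _ _)
    have h3 : ul (fun k => (x k).l.T.pb (E1 k)) < Λ / 4 / (C + 1) := lt_of_le_of_lt hcon1 (by positivity)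
    have h4 : ul (fun k => lgd s 1 x k / (Y.F k).n) ≤ Λ / 2 + Λ / 4 := by
      apply ul_le_const (lgd_UB s hxa)
      filter_upwards [eventually_lt_of_ul_lt hU h3, hub, hxa 1 one_pos] with k h5 h6 h7
      have hn := (Y.F k).pos
      rw [div_le_iff₀ hn]
      rw [lt_div_iff₀ (by linarith)] at h5
      have h8 : lgd s 1 x k ≤ Λ / 2 * (Y.F k).n + C * (Y.F k).n * (x k).l.T.pb (E1 k) := by
        classical
        have h9 : lgd s 1 x k ≤ ∑ ω, (x k).l.T.μ ω * (Λ / 2 * (Y.F k).n +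
            C * (Y.F k).n * (if E1 k ω then (1 : ℝ) else 0)) := by
          refine Finset.sum_le_sum fun ω _ => ?_
          by_cases h0 : (x k).l.T.μ ω = 0
          · rw [h0, zero_mul, zero_mul]
          · apply mul_le_mul_of_nonneg_left _ ((x k).l.T.nn ω)
            by_cases hE : E1 k ω
            · rw [if_pos hE, mul_one]
              have h10 := h6 _ ((x k).l.p.supp ω h0) _ (h7.2.2.1 ω h0).1
              have h11 : 0 ≤ Λ / 2 * (Y.F k).n := by positivity
              linarith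
            · rw [if_neg hE, mul_zero, add_zero]
              exact (not_le.mp hE).le
        refine h9.trans (le_of_eq ?_)
        have h12 : ∀ ω, (x k).l.T.μ ω * (Λ / 2 * (Y.F k).n + C * (Y.F k).n * (if E1 k ω then (1 : ℝ) else 0)) =
            (x k).l.T.μ ω * (Λ / 2 * (Y.F k).n) +
              C * (Y.F k).n * ((x k).l.T.μ ω * (if E1 k ω then (1 : ℝ) else 0)) := fun ω => by ring
        rw [Finset.sum_congr rfl (fun ω _ => h12 ω), Finset.sum_add_distrib, ← Finset.sum_mul, sum_mu, one_mul,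
          ← Finset.mul_sum, pb_sum (x k).l.T (E1 k)]
      have h13 : C * (Y.F k).n * (x k).l.T.pb (E1 k) ≤ Λ / 4 * (Y.F k).n := by
        have h14 := (x k).l.T.pb_nonneg (E1 k)
        have h15 : C * (x k).l.T.pb (E1 k) ≤ Λ / 4 := by nlinarith
        calc C * (Y.F k).n * (x k).l.T.pb (E1 k) = (C * (x k).l.T.pb (E1 k)) * (Y.F k).n := by ring
          _ ≤ _ := mul_le_mul_of_nonneg_right h15 hn.le
      linarith
    rw [hxv] at h4
    linarith
  -- `a <= K0 b` for subexponential `K0`, if `a` is large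
  obtain ⟨J, hJ, hJ2⟩ := dia (fun i k => (x k).l.T.pb (fun ω => 2 ^ (Λ / 8 * (Y.F k).n) ≤ qf ((x k).g ω) (ge 0) ∧
      2 ^ (2 * (1 / ((i : ℝ) + 1)) * (Y.F k).n) * qf ((x k).g ω) (ge 1) ≤ qf ((x k).g ω) (ge 0)) ≤
        1 / ((i : ℝ) + 1)) (fun i => by
    have hi : (0 : ℝ) < 1 / ((i : ℝ) + 1) := by positivity
    have h3 := y_null s hcon hy hxa (show 0 < Λ / 8 by positivity) hi
    push Not at h3
    have hU : UB (fun k => (x k).l.T.pb (fun ω => 2 ^ (Λ / 8 * (Y.F k).n) ≤ qf ((x k).g ω) (ge 0) ∧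
      2 ^ (2 * (1 / ((i : ℝ) + 1)) * (Y.F k).n) * qf ((x k).g ω) (ge 1) ≤ qf ((x k).g ω) (ge 0))) :=
      UB_of_nonneg_le (C := 1) (Eventually.of_forall fun k => FSp.pb_nonneg _ _)
        (Eventually.of_forall fun k => FSp.pb_le_one _ _)
    filter_upwards [eventually_lt_of_ul_lt hU (lt_of_le_of_lt h3 hi)] with k hk using hk.le)
  set e0 : ℕ → ℝ := fun k => 2 * (1 / ((J k : ℝ) + 1)) with he0
  have het : Tendsto e0 UF (𝓝 0) := by
    have h3 : Tendsto (fun k => 1 / ((J k : ℝ) + 1)) UF (𝓝 0) :=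
      tendsto_one_div_add_atTop_nhds_zero_nat.comp hJ
    have h4 := h3.const_mul 2
    rwa [mul_zero] at h4
  set K0 : ℕ → ℝ := fun k => 2 ^ (e0 k * (Y.F k).n) with hK0d
  have hK0 : Y.Sub K0 := Sub_pow_two het (Eventually.of_forall fun k => by
    rw [he0]
    positivity)
  have hK01 : ∀ k, 1 ≤ K0 k := fun k => by
    apply Real.one_le_rpow (by norm_num)
    have := (Y.F k).pos
    rw [he0]
    positivity
  set Bd : ∀ k, (x k).l.T.Ω → Prop := fun k ω => 2 ^ (Λ / 8 * (Y.F k).n) ≤ qf ((x k).g ω) (ge 0) ∧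
      K0 k * qf ((x k).g ω) (ge 1) ≤ qf ((x k).g ω) (ge 0) with hBd
  have hBd0 : Tendsto (fun k => (x k).l.T.pb (Bd k)) UF (𝓝 0) := by
    have h3 : Tendsto (fun k => 1 / ((J k : ℝ) + 1)) UF (𝓝 0) :=
      tendsto_one_div_add_atTop_nhds_zero_nat.comp hJ
    refine tendsto_of_tendsto_of_tendsto_of_le_of_le' tendsto_const_nhds h3
      (Eventually.of_forall fun k => FSp.pb_nonneg _ _) ?_
    filter_upwards [hJ2] with k hk using hk (J k) le_rfl
  -- the good event
  set E : ∀ k, ((lb x).sp.F k).Ω → Prop := fun k ω => E1 k ω ∧ ¬ Bd k ω with hEd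
  have hE : 0 < ul ((lb x).sp.pr E) := by
    have hU1 : UB (fun k => (x k).l.T.pb (E1 k)) :=
      UB_of_nonneg_le (C := 1) (Eventually.of_forall fun k => FSp.pb_nonneg _ _)
        (Eventually.of_forall fun k => FSp.pb_le_one _ _)
    have h3 := (ul_tendsto hU1).sub hBd0
    rw [sub_zero] at h3
    refine lt_of_lt_of_le hpE1 (le_of_tendsto_of_tendsto h3 (ul_tendsto (Sp.UB_pr E)) (Eventually.of_forall fun k => ?_))
    have h4 : (x k).l.T.pb (E1 k) ≤ (x k).l.T.pb (fun ω => E k ω ∨ Bd k ω) := by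
      apply FSp.pb_mono
      intro ω _ h5
      by_cases h6 : Bd k ω
      · exact Or.inr h6
      · exact Or.inl ⟨h5, h6⟩
    have h5 := h4.trans (pb_or _ _ _)
    have h6 : (lb x).sp.pr E k = (x k).l.T.pb (E k) := rfl
    rw [h6]
    show (x k).l.T.pb (E1 k) - (x k).l.T.pb (Bd k) ≤ _
    linarith
  set s' := s.im (lb x).pj E hE with hs'
  set x' : ∀ k, FD ((Sp.im (lb x).pj E).F k) (Mon (2 + 1) 1) := fun k => reFD (x k) (E k) with hx'd
  have hx' : (gau s' 1).Ad (cA s' 0) (cB s') x' := reFD_Ad s hxa E hE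
  set l' := lb x' with hl'
  have hdm : DMc s' 0 l' := Gau.Ad.dm (gau s' 1) hx'
  obtain ⟨K1, hK1, ht1⟩ := Pool.Agent.Helper59.EV.Ad_typ hx'
  obtain ⟨Kx, hKx, hbx⟩ := s'.x.bd
  have hvel := line_vel (Pool.Agent.Helper3.SG.Fac.refl s') le_rfl zero_lt_one (l := l') hdm.1
    (fun k ω => (x' k).g ω) (by
      filter_upwards [hx' 1 one_pos] with k hk ω hω using (hk.2.2.1 ω hω).1.pdM)
    (Eventually.of_forall fun k ω ω' a b c d => ((x' k).meas ω ω' a b c d).1)
    (fun e he => by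
      filter_upwards [hx' e he] with k hk using hk.2.2.2.1) (Λ / 32) (by positivity)
  set σ : ℝ := min (Λ / 32) 1 with hσ
  have hσ0 : 0 < σ := lt_min (by positivity) one_pos
  set K : ℕ → ℝ := fun k => 1 + Kx k + Kx k * K0 k + K0 k + K1 k with hK
  have hKs : (Sp.im (lb x).pj E).Sub K :=
    (((((Sp.Sub_const _ zero_le_one).add hKx).add (hKx.mul hK0)).add hK0).add hK1)
  have hsht : Sht s' 1 {0, 1} σ l' (fun k ω => shf (K k) ((x' k).g ω)) := by
    refine ⟨fun k ω ω' a b c d => ?_, K, hKs, ?_, ?_⟩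
    · have h3 : (x' k).g ω = (x' k).g ω' := ((x' k).meas ω ω' a b c d).1
      show shf (K k) ((x' k).g ω) = shf (K k) ((x' k).g ω')
      rw [h3]
    · filter_upwards [hKs.1] with k hk ω _ j using shf_bd hk _ j
    · have hsum := ht1.add hvel
      rw [add_zero] at hsum
      refine squeeze_zero' (Eventually.of_forall fun k => Sp.mass_res_nonneg (S := l'.sp) k _) ?_ hsum
      filter_upwards [hx' 1 one_pos, eventually_gt_of_lt_ul (Sp.UB_pr E) hE, hbx, hKx.1, hK1.1,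
        hK0.eventually_le (show 0 < Λ / 16 by positivity),
        (Y.Sub_const (show (0 : ℝ) ≤ 1 by norm_num)).eventually_le (show 0 < Λ / 16 by positivity)]
        with k had hpr hbx hKx0 hK10 hK0Z hZ3
      refine le_trans ?_ (pb_or (x' k).l.T _ _)
      apply FSp.pb_mono
      intro ω hω hnot
      by_contra hcon1
      rw [not_or, not_not, not_not] at hcon1
      apply hnot
      obtain ⟨g1, g2⟩ := hcon1
      have hn := (Y.F k).pos
      have hpd : PdM ((x' k).g ω) := (had.2.2.1 ω hω).1.pdM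
      set A := (x' k).g ω with hA
      have hEω : E1 k ω ∧ ¬ Bd k ω := ((x k).l.T.rest_supp (E k) ω hω).2 (ne_of_gt hpr)
      set Z : ℝ := 2 ^ (Λ / 16 * (Y.F k).n) with hZd
      have hZ0 : 0 < Z := by rw [hZd]; positivity
      have hZ3' : 3 ≤ Z := by linarith
      have hZ2 : Z ^ 2 = 2 ^ (Λ / 8 * (Y.F k).n) := by
        rw [hZd, ← Real.rpow_natCast, ← Real.rpow_mul (by norm_num)]
        congr 1
        push_cast
        ring
      have hZ8 : (Z ^ 2) ^ 4 = 2 ^ (Λ / 2 * (Y.F k).n) := by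
        rw [hZ2, ← Real.rpow_natCast, ← Real.rpow_mul (by norm_num)]
        congr 1
        push_cast
        ring
      have ha0 : 0 ≤ qf A (ge 0) := hpd.nonneg _
      have hb0 : 0 ≤ qf A (ge 1) := hpd.nonneg _
      have hG : (Z ^ 2) ^ 4 ≤ (1 + nn 3 1 * qf A (ge 0)) * (1 + nn 3 1 * qf A (ge 1)) := by
        rw [hZ8]
        refine le_trans ?_ (GG_le_two (Y.dl 1 k) hpd (ptf s k ((x k).l.p.π ω)))
        have h3 : Λ / 2 * (Y.F k).n ≤ Real.logb 2 (GG (Y.dl 1 k) A (ptf s k ((x k).l.p.π ω))) := hEω.1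
        rwa [Real.le_logb_iff_rpow_le (by norm_num) (GG_pos' _ hpd _)] at h3
      have hBdn : ¬ (Z ^ 2 ≤ qf A (ge 0) ∧ K0 k * qf A (ge 1) ≤ qf A (ge 0)) := by
        rw [hZ2]
        exact hEω.2
      obtain ⟨hab, hZb⟩ := steep ha0 hb0 (hK01 k) (by linarith) hZ3' hG hBdn
      have hb : 0 < qf A (ge 1) := lt_of_lt_of_le hZ0 hZb
      -- the slope in `y`
      have hfy : |fn A (ge 0)| ≤ K0 k := by
        apply abs_le_of_sq_le_sq _ (by linarith [hK01 k])
        refine (fn_sq hpd _ hb).trans ?_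
        rw [div_le_iff₀ hb]
        refine hab.trans (mul_le_mul_of_nonneg_right ?_ hb.le)
        have := hK01 k
        nlinarith
      -- the slope in `t`
      have hfv : |fn A (gv (Fin.cons 1 (s'.x.v k ((l' k).p.π ω)) : Fin 3 → ℝ))| ≤ 1 := by
        apply abs_le_of_sq_le_sq _ zero_le_one
        refine (fn_sq hpd _ hb).trans ?_
        rw [div_le_iff₀ hb, one_pow, one_mul]
        refine le_trans g2 (le_trans (le_of_eq ?_) hZb)
        rw [hZd]
        congr 1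
        show 2 * (0 + Λ / 32) * (Y.F k).n = _
        ring
      have hx0 : ∀ i, |s'.x.v k ((l' k).p.π ω) i| ≤ Kx k := hbx _ ((l' k).p.supp ω hω)
      have hft : |fn A gt| ≤ 1 + Kx k * K0 k + Kx k := by
        have h3 := fn_vel hb (s'.x.v k ((l' k).p.π ω))
        have h4 : fn A gt = fn A (gv (Fin.cons 1 (s'.x.v k ((l' k).p.π ω)) : Fin 3 → ℝ)) -
            s'.x.v k ((l' k).p.π ω) 0 * fn A (ge 0) - s'.x.v k ((l' k).p.π ω) 1 := by
          rw [h3]
          ring
        rw [h4]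
        refine (abs_sub _ _).trans (add_le_add ?_ (hx0 1))
        refine (abs_sub _ _).trans (add_le_add hfv ?_)
        rw [abs_mul]
        exact mul_le_mul (hx0 0) hfy (abs_nonneg _) hKx0
      have hK0' := hK01 k
      have hKK : 0 ≤ Kx k * K0 k := mul_nonneg hKx0 (by linarith)
      have hft' : |fn A gt| ≤ K k := hft.trans (by rw [hK]; show _ ≤ 1 + Kx k + Kx k * K0 k + K0 k + K1 k; linarith)
      have hfy' : |fn A (ge 0)| ≤ K k := hfy.trans (by rw [hK]; show _ ≤ 1 + Kx k + Kx k * K0 k + K0 k + K1 k; linarith)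
      -- the distance
      have hd : dfl s' 1 {0, 1} l' (fun k ω => shf (K k) ((x' k).g ω)) k ω =
          fn A (vv (ptf s' k ((l' k).p.π ω))) := shf_df hb hft' hfy' _ _ _
      show |dfl s' 1 {0, 1} l' (fun k ω => shf (K k) ((x' k).g ω)) k ω| ≤ K k * Y.dl σ k
      rw [hd]
      have hdl : 1 / Z ≤ (Y.dl σ k) ^ 2 := by
        have e1 : 1 / Z = 2 ^ (-(Λ / 16 * (Y.F k).n)) := by
          rw [hZd, Real.rpow_neg (by norm_num), one_div]
        have e2 : (Y.dl σ k) ^ 2 = 2 ^ (-(2 * σ * (Y.F k).n)) := by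
          unfold Sp.dl
          rw [← Real.rpow_natCast, ← Real.rpow_mul (by norm_num)]
          congr 1
          push_cast
          ring
        rw [e1, e2]
        apply Real.rpow_le_rpow_of_exponent_le (by norm_num)
        have := min_le_left (Λ / 32) 1
        nlinarith
      apply abs_le_of_sq_le_sq _ (by
        have := Y.dl_pos σ k
        have h3 : 0 ≤ K k := by
          show 0 ≤ 1 + Kx k + Kx k * K0 k + K0 k + K1 k
          linarith
        positivity)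
      refine (fn_sq hpd _ hb).trans ?_
      have h5 : qf A (vv (ptf s' k ((l' k).p.π ω))) ≤ K1 k :=
        (qf_vv_le (fun v => hpd.nonneg v) (Y.dl 1 k) _).trans g1
      have h6 : qf A (vv (ptf s' k ((l' k).p.π ω))) / qf A (ge 1) ≤ K1 k / Z :=
        div_le_div₀ hK10 h5 hZ0 hZb
      refine h6.trans ?_
      rw [mul_pow, div_eq_mul_one_div]
      apply mul_le_mul _ hdl (by positivity) (by positivity)
      show K1 k ≤ (1 + Kx k + Kx k * K0 k + K0 k + K1 k) ^ 2
      nlinarith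
  have hHH : HH (SJ 1 {0, 1}) s' 0 σ := HH_of_Sht hσ0.le (min_le_right _ _) hdm hsht
  have hfin := hsh (lb x).sp (lb x).pj E hE σ hHH
  have hfin2 : δ < σ := lt_min (by linarith) hδ1
  linarith

/-- PLANAR SYSTEMS WITHOUT SHEETS ARE FULL -/
theorem plane {Y : Sp} (hst : ST 1 2) (s : Sys Y 2)
    (hcon : ∀ (T : Sp) (p : Pj T Y) (E : ∀ k, (T.F k).Ω → Prop) (hE : 0 < ul (T.pr E)), ic (s.im p E hE) 0 ≤ 0)
    (hy : ∀ (T : Sp) (p : Pj T Y) (E : ∀ k, (T.F k).Ω → Prop) (hE : 0 < ul (T.pr E)),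
      1 ≤ h (TR.dg (TR.cor (s.im p E hE).P 0) 1) (s.im p E hE).T)
    (hsh : ∀ (T : Sp) (p : Pj T Y) (E : ∀ k, (T.F k).Ω → Prop) (hE : 0 < ul (T.pr E)) (σ : ℝ),
      HH (SJ 1 {0, 1}) (s.im p E hE) 0 σ → σ ≤ 0) : 2 ≤ h (s.P.dg 1) s.T := by
  have h1 := planeE hst s le_rfl hcon hy hsh
  linarith

end

end Pool.Agent.Helper93.H4
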