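import Pool.Agent.Helper93.H4.Tr
import Pool.Agent.Helper93.H4.Plane
import Pool.Agent.Helper42.NS.Tow
import Pool.Agent.Helper31.EC.Cpy
import Pool.Agent.Helper91.GR.Nl

/-! BOX COORDINATES over a maximal label, on extensions and events. (H4, step B) -/

set_option autoImplicit false

namespace Pool.Agent.Helper93.H4

open Finset Filter Topology Pool.Agent.Helper69.RK Pool.Agent.Helper31.EC Pool.Agent.Helper31.EC.Sp
open Pool.Agent.Helper40.EL Pool.Agent.Helper42.NS Pool.Agent.Helper91.GR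
open Pool.Agent.Helper52.KP hiding ic ic_nonneg
open Pool.Agent.Helper60.CS (Slow.RobGe)

noncomputable section

variable {S X : Sp} {m : ℕ}

/-! ### robust upper bounds of thicknesses -/

/-- the thickness of the gauge `G` over the window `c` is at most `τ₀`, on events of extensions -/
def Mxx (G : Gg m) (c τ₀ : ℝ) (s : Sys S m) : Prop :=
  ∀ (T : Sp) (p : Pj T S) (E : ∀ k, (T.F k).Ω → Prop) (hE : 0 < ul (T.pr E)) (τ : ℝ),
    HH G (s.im p E hE) c τ → τ ≤ τ₀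

theorem Mxx.im {G : Gg m} {c τ₀ : ℝ} {s : Sys S m} (h : Mxx G c τ₀ s) {T : Sp} (p : Pj T S)
    (E : ∀ k, (T.F k).Ω → Prop) (hE : 0 < ul (T.pr E)) : Mxx G c τ₀ (s.im p E hE) := by
  intro T' p' E' hE' τ hτ
  obtain ⟨W, q, D, hD, _, h2⟩ := exists_tow s p E hE p' E' hE'
  apply h W q D hD τ
  rw [HH_iff] at hτ ⊢
  rw [← hτ]
  exact (psiF G c τ).eq_of_fin fun k => h2 k

theorem Mxx.of_psi {G : Gg m} {c τ₀ : ℝ} {s : Sys S m}
    (hr : ∀ (T : Sp) (p : Pj T S) (E : ∀ k, (T.F k).Ω → Prop) (hE : 0 < ul (T.pr E)) (c σ : ℝ),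
      psi G (s.im p E hE) c σ = psi G s c σ) (h : ∀ τ, HH G s c τ → τ ≤ τ₀) : Mxx G c τ₀ s := by
  intro T p E hE τ hτ
  apply h
  rw [HH_iff] at hτ ⊢
  rw [← hτ, hr]

theorem Mxx.self {G : Gg m} {c τ₀ : ℝ} {s : Sys S m} (h : Mxx G c τ₀ s) {τ : ℝ} (hτ : HH G s c τ) : τ ≤ τ₀ := by
  have hE : 0 < ul (S.pr fun _ _ => True) := ul_pr_typ_pos (fun _ _ => True) Typ_true
  exact h S (Pj.id S) (fun _ _ => True) hE τ (HH_im' hτ (Pj.id S) _ hE)

/-- literal functions -/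
def Lz (f : TR X) : Prop := ∀ᶠ k in UF, ∀ ω ω', (X.F k).μ ω ≠ 0 → (X.F k).μ ω' ≠ 0 → (X.F k).Z ω ω' →
  f.1 k ω = f.1 k ω'

theorem Lz.sub {f : TR X} (h : Lz f) {T : Sp} (p : Pj T X) (E : ∀ k, (T.F k).Ω → Prop) :
    Lz (TR.rest E (p.tr f)) := by
  filter_upwards [h] with k hk ω ω' a b d
  have a' := ((T.F k).rest_supp (E k) ω a).1
  have b' := ((T.F k).rest_supp (E k) ω' b).1
  exact hk _ _ (p.supp k ω a') (p.supp k ω' b') ((p.hZ k ω ω' a' b').mp d)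

/-- the point of the system -/
def ptl {l : Lab S} {e : ℝ} {he : 0 < e} (ρ : Pj X (l.ovr e he)) (k : ℕ) (ω : (X.F k).Ω) : (S.F k).Ω :=
  (l k).p.π (ρ.π k ω)

/-- BOX COORDINATES -/
structure BA (s : Sys S 3) (c lam eta e : ℝ) (he : 0 < e) (l : Lab S) (ρ : Pj X (l.ovr e he)) where
  kap : IsKap s c l
  s3 : Sys X 3
  ln : s3.xi 1 ≤ ρ.map (l.upL e he (s.xi 1))
  pt : lB s3 ≤ ρ.map (l.upL e he (lB s))
  rob : Slow.RobGe (TR.dg (TR.cor s3.P 0) 1) s3.T 1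
  tc : TR X
  yc : TR X
  r : Fin 3 → TR X
  u : Fin 4 → TR X
  ltc : Lz tc
  lyc : Lz yc
  lr : ∀ i, Lz (r i)
  lu : ∀ i, Lz (u i)
  et : Typ (S := X) (fun k ω => s.t.v k (ptl ρ k ω) 0 = tc.1 k ω + S.dl c k * s3.t.v k ω 0)
  ey : Typ (S := X) (fun k ω => s.P.v k (ptl ρ k ω) 0 = yc.1 k ω + S.dl c k * s3.P.v k ω 0)
  eR : Typ (S := X) (fun k ω => s.P.v k (ptl ρ k ω) 1 = (r 0).1 k ω + (r 1).1 k ω * s.t.v k (ptl ρ k ω) 0 +
    (r 2).1 k ω * s.P.v k (ptl ρ k ω) 0 + S.dl lam k * s3.P.v k ω 1)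
  ez : Typ (S := X) (fun k ω => s.P.v k (ptl ρ k ω) 2 = (u 0).1 k ω + (u 1).1 k ω * s.t.v k (ptl ρ k ω) 0 +
    (u 2).1 k ω * s.P.v k (ptl ρ k ω) 0 + (u 3).1 k ω * s.P.v k (ptl ρ k ω) 1 + S.dl eta k * s3.P.v k ω 2)

namespace BA

variable {s : Sys S 3} {c lam eta e : ℝ} {he : 0 < e} {l : Lab S} {ρ : Pj X (l.ovr e he)}

/-- restriction to events of extensions -/
def sub (b : BA s c lam eta e he l ρ) {T : Sp} (p : Pj T X) (E : ∀ k, (T.F k).Ω → Prop) (hE : 0 < ul (T.pr E)) :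
    BA (s.im (xle (p.comp ρ)).pj E hE) c lam eta e he (xlE (p.comp ρ) E) (ide (p.comp ρ) E) where
  kap := xlE_IsKap (p.comp ρ) b.kap hE
  s3 := (b.s3.pull p).rest E hE
  ln := by
    have h1 : ((b.s3.pull p).rest E hE).xi 1 = restL E hE (p.map (b.s3.xi 1)) := by
      show ((p.vv b.s3.a).rest E).dg 1 ⊔ ((p.vv b.s3.x).rest E).dg 1 = restL E hE (p.map (b.s3.a.dg 1 ⊔ b.s3.x.dg 1))
      rw [VV.rest_dg E hE, VV.rest_dg E hE, ← restL_sup, ← Pj.map_dg, ← Pj.map_dg, ← Pj.map_sup]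
    have h2 := restL_mono E hE (p.map_mono b.ln)
    rw [h1]
    refine h2.trans (le_of_eq ?_)
    have h3 := ide_map (p.comp ρ) E s.a 1 hE
    have h4 := ide_map (p.comp ρ) E s.x 1 hE
    show restL E hE (p.map (ρ.map (l.upL e he (s.a.dg 1 ⊔ s.x.dg 1)))) =
      (ide (p.comp ρ) E).map ((xlE (p.comp ρ) E).upL e he ((s.a.im (xle (p.comp ρ)).pj E).dg 1 ⊔
        (s.x.im (xle (p.comp ρ)).pj E).dg 1))
    rw [Lab.upL_sup, Lab.upL_sup, Pj.map_sup, Pj.map_sup, restL_sup, Pj.map_sup, h3, h4, Pj.comp_map, Pj.comp_map]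
  pt := by
    have h1 : lB ((b.s3.pull p).rest E hE) = restL E hE (p.map (lB b.s3)) := by
      show ((p.vv b.s3.P).rest E).dg 1 ⊔ ((p.vv b.s3.t).rest E).dg 1 = restL E hE (p.map (b.s3.P.dg 1 ⊔ b.s3.t.dg 1))
      rw [VV.rest_dg E hE, VV.rest_dg E hE, ← restL_sup, ← Pj.map_dg, ← Pj.map_dg, ← Pj.map_sup]
    have h2 := restL_mono E hE (p.map_mono b.pt)
    rw [h1]
    refine h2.trans (le_of_eq ?_)
    have h3 := ide_map (p.comp ρ) E s.P 1 hE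
    have h4 := ide_map (p.comp ρ) E s.t 1 hE
    show restL E hE (p.map (ρ.map (l.upL e he (s.P.dg 1 ⊔ s.t.dg 1)))) =
      (ide (p.comp ρ) E).map ((xlE (p.comp ρ) E).upL e he ((s.P.im (xle (p.comp ρ)).pj E).dg 1 ⊔
        (s.t.im (xle (p.comp ρ)).pj E).dg 1))
    rw [Lab.upL_sup, Lab.upL_sup, Pj.map_sup, Pj.map_sup, restL_sup, Pj.map_sup, h3, h4, Pj.comp_map, Pj.comp_map]
  rob := by
    have h1 := rob_sub b.rob p E hE
    have h2 : TR.dg (TR.cor ((b.s3.pull p).rest E hE).P 0) 1 = restL E hE (p.map (TR.dg (TR.cor b.s3.P 0) 1)) := by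
      rw [← Pj.tr_dg, ← TR.rest_dg E hE]
      rfl
    have h3 : ((b.s3.pull p).rest E hE).T = restL E hE (p.map b.s3.T) := by
      show ((p.vv b.s3.t).rest E).dg 1 = restL E hE (p.map (b.s3.t.dg 1))
      rw [VV.rest_dg E hE, ← Pj.map_dg]
    rw [h2, h3]
    exact h1
  tc := TR.rest E (p.tr b.tc)
  yc := TR.rest E (p.tr b.yc)
  r := fun i => TR.rest E (p.tr (b.r i))
  u := fun i => TR.rest E (p.tr (b.u i))
  ltc := b.ltc.sub p E
  lyc := b.lyc.sub p E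
  lr := fun i => (b.lr i).sub p E
  lu := fun i => (b.lu i).sub p E
  et := Typ.rest E hE (p.typ b.et)
  ey := Typ.rest E hE (p.typ b.ey)
  eR := Typ.rest E hE (p.typ b.eR)
  ez := Typ.rest E hE (p.typ b.ez)

end BA

end

end Pool.Agent.Helper93.H4
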