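import Pool.Agent.Helper93.H4.Top
import Pool.Agent.Helper71.AGR.Bxa
import Pool.Agent.Helper80.HCI.Lk
import Pool.Agent.Helper3.H3.Cor

/-! THE BOX COORDINATES OF A BOX (`Bx`, helper98) at the window `i`: the system in the box; `BA`. (H4) -/

set_option autoImplicit false

namespace Pool.Agent.Helper93.H4

open Finset Filter Topology Pool.Agent.Helper69.RK Pool.Agent.Helper31.EC Pool.Agent.Helper31.EC.Sp
open Pool.Agent.Helper40.EL Pool.Agent.Helper42.NS Pool.Agent.Helper91.GR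
open Pool.Agent.Helper98.FR Pool.Agent.Helper71.AGR Pool.Agent.Helper80.HCI
open Pool.Agent.Helper52.KP hiding ic ic_nonneg
open Pool.Agent.Helper60.CS (Slow.RobGe trc)
open Pool.Agent.Helper59.EV (ST)

noncomputable section

variable {S : Sp} {s : Sys S 3} {q lam eta : ℕ → ℝ} {L : ℕ → Lab S} (b : Bx s q lam eta L) (i : ℕ) (e : ℝ) (he : 0 < e)

theorem map_t (r : ℝ) : (famPj b.M).map (s.t.dg r) = TR.dg b.bd.t r := by
  have h1 : TR.dg b.bd.t r = (famPj b.M).map (TR.dg (TR.cor s.t 0) r) := Pj.tr_dg (famPj b.M) (TR.cor s.t 0) r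
  rw [h1]
  have h2 : TR.vec (fun _ : Fin 1 => TR.cor s.t 0) = s.t := by
    have h3 : (fun _ : Fin 1 => TR.cor s.t 0) = TR.cor s.t := by
      funext i
      rw [Subsingleton.elim i 0]
    rw [h3]
    exact TR.vec_cor s.t
  unfold TR.dg
  rw [h2]

theorem up_t : up1 (b.M.lab i) (s.t.dg (q i)) = ⊥ := by
  have h1 : up1 (b.M.lab i) (s.t.dg (q i)) = chgL (b.bd.V i) 1 one_pos (TR.dg b.bd.t (q i)) := by
    rw [← map_t]
    rfl
  rw [h1]
  have h2 := b.bd.T_mem i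
  have h3 : QS.mk b.bd.t - QS.mk (b.bd.tc i) ∈ QS.Id b.M.sp (q i) := b.bd.ht i
  have h4 := QS.dg_eq_of_sub_mem h3 le_rfl (b.q1 i)
  rw [QS.dg_mk _ (b.q1 i), QS.dg_mk _ (b.q1 i)] at h4
  rw [h4]
  exact (b.bd.lt i).chg_bot 1 one_pos (q i)

theorem tT_up : TR.dg (b.bd.tT i e he) 1 = (b.M.lab i).upL e he (s.t.dg (q i + e)) := by
  have h1 : (b.M.lab i).upL e he (s.t.dg (q i + e)) = chgL (b.bd.V i) e he (TR.dg b.bd.t (q i + e)) := by
    rw [← map_t]
    rfl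
  rw [h1, b.bd.tT_dg, mul_one]
  have h2 : chgL (b.bd.V i) e he (TR.dg (b.bd.tc i) (q i + e)) = ⊥ := (b.bd.lt i).chg_bot e he _
  apply le_antisymm
  · have h3 : TR.dg (b.bd.t - b.bd.tc i) (q i + e) ≤ TR.dg b.bd.t (q i + e) ⊔ TR.dg (b.bd.tc i) (q i + e) := by
      rw [sub_eq_add_neg]
      exact (TR.add_dg_le _ _ _).trans (sup_le_sup_left (TR.neg_dg_le _ _) _)
    have h4 := chgL_mono (b.bd.V i) e he h3
    rw [chgL_sup, h2, sup_bot_eq] at h4
    exact h4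
  · have h3 : TR.dg b.bd.t (q i + e) ≤ TR.dg (b.bd.t - b.bd.tc i) (q i + e) ⊔ TR.dg (b.bd.tc i) (q i + e) := by
      have h5 := TR.add_dg_le (b.bd.t - b.bd.tc i) (b.bd.tc i) (q i + e)
      rw [sub_add_cancel] at h5
      exact h5
    have h4 := chgL_mono (b.bd.V i) e he h3
    rw [chgL_sup, h2, sup_bot_eq] at h4
    exact h4

variable {ηn : ℝ} (hη : ηn ≤ b.bd.eta i)

/-- coordinates of the line in the box -/
def ba : (b.bd.Sj i e he).VV 3 :=
  TR.vec ![b.ld.iyT i e he, b.ld.irT i e he, b.ld.izT i e he ηn hη]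
def bx : (b.bd.Sj i e he).VV 3 :=
  TR.vec ![b.ld.xT i e he, b.ld.vrT i e he, b.ld.vzT i e he ηn hη]

theorem bax_le (h1 : lam i + e ≤ 1) (h2 : ηn + e ≤ 1) :
    (ba b i e he hη).dg 1 ⊔ (bx b i e he hη).dg 1 ≤ (b.M.lab i).upL e he (s.xi 1) := by
  have h3 := lf_le (B := b.bd) i he hη b.ld h1 h2
  refine sup_le ?_ ?_
  · apply TR.vec_dg_le
    intro j
    fin_cases j
    · exact h3 3
    · exact h3 4
    · exact h3 5
  · apply TR.vec_dg_le
    intro j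
    fin_cases j
    · exact h3 0
    · exact h3 1
    · exact h3 2

/-- the system in the box -/
def bsys (h1 : lam i + e ≤ 1) (h2 : ηn + e ≤ 1) : Sys (b.bd.Sj i e he) 3 where
  a := ba b i e he hη
  x := bx b i e he hη
  t := TR.vec fun _ => b.bd.tT i e he
  ht := by
    have h3 : (TR.vec fun _ : Fin 1 => b.bd.tT i e he).dg 1 = (b.M.lab i).upL e he (s.t.dg (q i + e)) :=
      tT_up b i e he
    have h4 : q i + e ≤ 1 := by
      have := b.qlam i
      linarith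
    have h5 := time_ovr s he (b.q0 i) (le_add_of_nonneg_right he.le) h4 (b.kap i).1 (up_t b i)
      (bax_le b i e he hη h1 h2)
    rw [add_sub_cancel_left, div_self he.ne'] at h5
    rw [h3]
    exact h5

variable (h1 : lam i + e ≤ 1) (h2 : ηn + e ≤ 1)

theorem bsys_y : QS.mk (TR.cor (bsys b i e he hη h1 h2).P 0) = QS.mk (b.bd.yT i e he) := by
  rw [b.ld.yT_eq]
  rfl

theorem bsys_R : QS.mk (TR.cor (bsys b i e he hη h1 h2).P 1) = QS.mk (b.bd.RT i e he) := by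
  rw [b.ld.RT_eq]
  rfl

theorem bsys_z : QS.mk (TR.cor (bsys b i e he hη h1 h2).P 2) = QS.mk (b.bd.zT i e he ηn hη) := by
  rw [b.ld.zT_eq]
  rfl

theorem bsys_lB : lB (bsys b i e he hη h1 h2) ≤ (b.M.lab i).upL e he (lB s) := by
  have h3 : ∀ j, TR.dg (LD.pf (B := b.bd) i e he ηn hη j) 1 ≤ (b.M.lab i).upL e he (lB s) :=
    pf_le b.bd i he hη (kg_t b i) (kg_P b i 0) (kg_P b i 1) (kg_P b i 2) h1 h2
  have e1 : ∀ f : TR (b.bd.Sj i e he), QS.dg (QS.mk f) 1 = TR.dg f 1 := fun f => QS.dg_mk f le_rfl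
  refine sup_le ?_ ?_
  · rw [TR.vv_dg_le_iff]
    intro j
    fin_cases j
    · show TR.dg (TR.cor (bsys b i e he hη h1 h2).P 0) 1 ≤ _
      rw [← e1, bsys_y, e1]
      exact h3 1
    · show TR.dg (TR.cor (bsys b i e he hη h1 h2).P 1) 1 ≤ _
      rw [← e1, bsys_R, e1]
      exact h3 2
    · show TR.dg (TR.cor (bsys b i e he hη h1 h2).P 2) 1 ≤ _
      rw [← e1, bsys_z, e1]
      exact h3 3
  · exact h3 0

/-- the space of the box over itself -/
def rhoB : Pj (b.bd.Sj i e he) ((b.M.lab i).ovr e he) := Pj.id (b.bd.Sj i e he)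

theorem rhoB_map (x : ((b.M.lab i).ovr e he).L) : (rhoB b i e he).map x = x := Pj.id_map x

theorem lz_trc {f : TR b.M.sp} (hf : Lt (b.bd.V i) f) : Lz (trc (b.bd.V i) e he f) := by
  filter_upwards [hf] with k hk ω ω' a c d
  exact hk ω ω' a c d.1 d.2

/-- `y` is full over the time, robustly -/
theorem rob_y (h0 : q i + e ≤ 1) (h1 : lam i + e ≤ 1) :
    Slow.RobGe (TR.dg (b.bd.yT i e he) 1) (TR.dg (b.bd.tT i e he) 1) 1 := by
  have h2 := Pool.Agent.Helper3.H3.robge_Mb b.bd i i he (fun k => le_rfl) h0 h1 ⊥ (chgL_bot _ _ _)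
  have e1 : (2 * (b.bd.q i + e - b.bd.q i) + (b.bd.lam i + e - b.bd.lam i)) / e = 3 := by
    field_simp
    ring
  rw [e1] at h2
  intro W p E hE
  have h3 := h2 W p E hE
  rw [Pj.map_bot, restL_bot, h_bot] at h3
  have hH : ∀ f : TR (b.bd.Sj i e he), H (restL E hE (p.map (TR.dg f 1))) ≤ 1 := by
    intro f
    rw [← p.tr_dg, ← TR.rest_dg E hE]
    have h6 := (TR.vec fun _ : Fin 1 => TR.rest E (p.tr f)).H_dg_le zero_le_one
    simp only [Nat.cast_one, one_mul] at h6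
    exact h6
  have e2 : restL E hE (p.map (Pool.Agent.Helper30.UNS.Mb b.bd i he)) =
      (restL E hE (p.map (TR.dg (b.bd.tT i e he) 1)) ⊔ restL E hE (p.map (TR.dg (b.bd.yT i e he) 1))) ⊔
        restL E hE (p.map (TR.dg (b.bd.RT i e he) 1)) := by
    unfold Pool.Agent.Helper30.UNS.Mb
    rw [p.map_sup, p.map_sup, restL_sup, restL_sup]
  rw [e2, H_chain, H_chain] at h3
  have h4 := hH (b.bd.tT i e he)
  have h5 := hH (b.bd.RT i e he)
  have h6 := h_le_H (restL E hE (p.map (TR.dg (b.bd.RT i e he) 1)))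
    (restL E hE (p.map (TR.dg (b.bd.tT i e he) 1)) ⊔ restL E hE (p.map (TR.dg (b.bd.yT i e he) 1)))
  linarith

/-- THE BOX COORDINATES -/
def baB : BA s (q i) (lam i) ηn e he (b.M.lab i) (rhoB b i e he) where
  kap := b.kap i
  s3 := bsys b i e he hη h1 h2
  ln := by
    rw [rhoB_map]
    exact bax_le b i e he hη h1 h2
  pt := by
    rw [rhoB_map]
    exact bsys_lB b i e he hη h1 h2
  rob := by
    have e1 : ∀ f : TR (b.bd.Sj i e he), QS.dg (QS.mk f) 1 = TR.dg f 1 := fun f => QS.dg_mk f le_rfl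
    have e2 : TR.dg (TR.cor (bsys b i e he hη h1 h2).P 0) 1 = TR.dg (b.bd.yT i e he) 1 := by
      rw [← e1, bsys_y, e1]
    rw [e2]
    exact rob_y b i e he (by have := b.qlam i; linarith) h1
  tc := trc (b.bd.V i) e he (b.bd.tc i)
  yc := trc (b.bd.V i) e he (b.bd.yc i)
  r := fun j => trc (b.bd.V i) e he (b.bd.r i j)
  u := fun j => trc (b.bd.V i) e he (b.bd.c i j)
  ltc := lz_trc b i e he (b.bd.lt i)
  lyc := lz_trc b i e he (b.bd.ly i)
  lr := fun j => lz_trc b i e he (b.bd.lr i j)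
  lu := fun j => lz_trc b i e he (b.bd.lc i j)
  et := by
    apply Pool.Agent.Helper60.CS.typ_chg
    refine (nf_typ (hr := b.bd.q1 i) (hf := b.bd.T_mem i) (Z := b.bd.V i) (e := e) (he := he)).mono
      (Eventually.of_forall fun k ω _ h => ?_)
    have h3 : b.bd.t.1 k ω - (b.bd.tc i).1 k ω = b.M.sp.dl (q i) k * (b.bd.tT i e he).1 k ω := h
    have h4 : b.M.sp.dl (q i) k = S.dl (q i) k := Pool.Agent.Helper3.LF.sp_dl (b.M.lab i) (q i) k
    rw [h4] at h3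
    show b.bd.t.1 k ω = (b.bd.tc i).1 k ω + S.dl (q i) k * (b.bd.tT i e he).1 k ω
    linarith
  ey := by
    apply Pool.Agent.Helper60.CS.typ_chg
    refine ((nf_typ (hr := b.bd.q1 i) (hf := b.bd.T_mem i) (Z := b.bd.V i) (e := e) (he := he)).and
      (nf_typ (hr := b.bd.q1 i) (hf := b.ld.iy_mem i) (Z := b.bd.V i) (e := e) (he := he))).mono
      (Eventually.of_forall fun k ω _ h => ?_)
    obtain ⟨h3, h5⟩ := h
    have h4 : b.M.sp.dl (q i) k = S.dl (q i) k := Pool.Agent.Helper3.LF.sp_dl (b.M.lab i) (q i) k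
    have e0 : b.bd.y.1 k ω - (b.bd.yc i).1 k ω = (b.ld.iy i).1 k ω + (b.ld.x 0).1 k ω * (b.bd.t - b.bd.tc i).1 k ω :=
      congrFun (congrFun (congrArg Subtype.val (b.ld.y_eq i)) k) ω
    rw [h3, h5] at e0
    have e1 : b.bd.y.1 k ω - (b.bd.yc i).1 k ω = b.M.sp.dl (q i) k * (b.ld.iyT i e he).1 k ω +
      (b.ld.x 0).1 k ω * (b.M.sp.dl (q i) k * (b.bd.tT i e he).1 k ω) := e0
    rw [h4] at e1
    show b.bd.y.1 k ω = (b.bd.yc i).1 k ω + S.dl (q i) k * ((b.ld.iyT i e he).1 k ω +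
      (b.bd.tT i e he).1 k ω * (b.ld.x 0).1 k ω)
    linear_combination e1
  eR := by
    apply Pool.Agent.Helper60.CS.typ_chg
    have hr1 : lam i - q i ≤ 1 := by have := b.lam1 i; have := b.q0 i; linarith
    refine (((nf_typ (hr := b.bd.q1 i) (hf := b.bd.T_mem i) (Z := b.bd.V i) (e := e) (he := he)).and
      (nf_typ (hr := b.bd.lam1 i) (hf := b.ld.ir_mem i) (Z := b.bd.V i) (e := e) (he := he))).and
      (nf_typ (hr := hr1) (hf := b.ld.vr_mem i) (Z := b.bd.V i) (e := e) (he := he))).mono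
      (Eventually.of_forall fun k ω _ h => ?_)
    obtain ⟨⟨h3, h5⟩, h6⟩ := h
    have h4 : b.M.sp.dl (lam i) k = S.dl (lam i) k := Pool.Agent.Helper3.LF.sp_dl (b.M.lab i) (lam i) k
    have h7 : b.M.sp.dl (lam i - q i) k * b.M.sp.dl (q i) k = b.M.sp.dl (lam i) k := by
      rw [← dl_add]
      congr 1
      ring
    have e0 : (b.bd.Rr i).1 k ω = (b.ld.ir i).1 k ω + (b.ld.vr i).1 k ω * (b.bd.t - b.bd.tc i).1 k ω :=
      congrFun (congrFun (congrArg Subtype.val (b.ld.Rr_eq i)) k) ω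
    rw [h3, h5, h6] at e0
    have e1 : b.bd.R.1 k ω - ((b.bd.r i 0).1 k ω + (b.bd.r i 1).1 k ω * b.bd.t.1 k ω + (b.bd.r i 2).1 k ω * b.bd.y.1 k ω) =
      b.M.sp.dl (lam i) k * (b.ld.irT i e he).1 k ω + (b.M.sp.dl (lam i - q i) k * (b.ld.vrT i e he).1 k ω) *
        (b.M.sp.dl (q i) k * (b.bd.tT i e he).1 k ω) := e0
    show b.bd.R.1 k ω = (b.bd.r i 0).1 k ω + (b.bd.r i 1).1 k ω * b.bd.t.1 k ω + (b.bd.r i 2).1 k ω * b.bd.y.1 k ω +
      S.dl (lam i) k * ((b.ld.irT i e he).1 k ω + (b.bd.tT i e he).1 k ω * (b.ld.vrT i e he).1 k ω)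
    rw [← h4]
    linear_combination e1 + (b.ld.vrT i e he).1 k ω * (b.bd.tT i e he).1 k ω * h7
  ez := by
    apply Pool.Agent.Helper60.CS.typ_chg
    have hη1 : ηn ≤ 1 := hη.trans (b.eta1 i)
    have hr1 : ηn - q i ≤ 1 := by have := b.q0 i; linarith
    refine (((nf_typ (hr := b.bd.q1 i) (hf := b.bd.T_mem i) (Z := b.bd.V i) (e := e) (he := he)).and
      (nf_typ (hr := hη1) (hf := b.ld.iz_mem i hη) (Z := b.bd.V i) (e := e) (he := he))).and
      (nf_typ (hr := hr1) (hf := b.ld.vz_mem i hη) (Z := b.bd.V i) (e := e) (he := he))).mono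
      (Eventually.of_forall fun k ω _ h => ?_)
    obtain ⟨⟨h3, h5⟩, h6⟩ := h
    have h4 : b.M.sp.dl (ηn) k = S.dl (ηn) k := Pool.Agent.Helper3.LF.sp_dl (b.M.lab i) (ηn) k
    have h7 : b.M.sp.dl (ηn - q i) k * b.M.sp.dl (q i) k = b.M.sp.dl (ηn) k := by
      rw [← dl_add]
      congr 1
      ring
    have e0 : (b.bd.Zr i).1 k ω = (b.ld.iz i).1 k ω + (b.ld.vz i).1 k ω * (b.bd.t - b.bd.tc i).1 k ω :=
      congrFun (congrFun (congrArg Subtype.val (b.ld.Zr_eq i)) k) ω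
    rw [h3, h5, h6] at e0
    have e1 : b.bd.z.1 k ω - ((b.bd.c i 0).1 k ω + (b.bd.c i 1).1 k ω * b.bd.t.1 k ω + (b.bd.c i 2).1 k ω * b.bd.y.1 k ω +
      (b.bd.c i 3).1 k ω * b.bd.R.1 k ω) =
      b.M.sp.dl (ηn) k * (b.ld.izT i e he ηn hη).1 k ω + (b.M.sp.dl (ηn - q i) k *
        (b.ld.vzT i e he ηn hη).1 k ω) * (b.M.sp.dl (q i) k * (b.bd.tT i e he).1 k ω) := e0
    show b.bd.z.1 k ω = (b.bd.c i 0).1 k ω + (b.bd.c i 1).1 k ω * b.bd.t.1 k ω + (b.bd.c i 2).1 k ω * b.bd.y.1 k ω +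
      (b.bd.c i 3).1 k ω * b.bd.R.1 k ω +
      S.dl (ηn) k * ((b.ld.izT i e he ηn hη).1 k ω + (b.bd.tT i e he).1 k ω *
        (b.ld.vzT i e he ηn hη).1 k ω)
    rw [← h4]
    linear_combination e1 + (b.ld.vzT i e he ηn hη).1 k ω * (b.bd.tT i e he).1 k ω * h7

end

end Pool.Agent.Helper93.H4
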