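import Pool.Agent.Helper93.H4.Afp

/-! SHEETS OF THE PLANAR SYSTEM are forms of the system. (H4, step B) -/

set_option autoImplicit false

namespace Pool.Agent.Helper93.H4

open Finset Filter Topology Pool.Agent.Helper69.RK Pool.Agent.Helper31.EC Pool.Agent.Helper31.EC.Sp
open Pool.Agent.Helper40.EL Pool.Agent.Helper42.NS Pool.Agent.Helper91.GR
open Pool.Agent.Helper89.LX
open Pool.Agent.Helper52.KP hiding ic ic_nonneg

noncomputable section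

/-- real numbers: the normalising factor -/
theorem nrm_bd {A B a d K D : ℝ} (hd : 0 < d) (ha : 0 < a) (ha1 : a ≤ 1) (had : a ≤ d) (hK : 0 ≤ K) (hD : 0 < D)
    (h1 : 1 ≤ K * (|A| + |B|)) (h2 : D ≤ K * |B|) : 0 < max |B| (|A| * d) ∧ |(max |B| (|A| * d))⁻¹ * B| ≤ 1 ∧
    |(max |B| (|A| * d))⁻¹ * (A * d)| ≤ 1 ∧ (max |B| (|A| * d))⁻¹ * a ≤ 2 * K ∧ (max |B| (|A| * d))⁻¹ ≤ K * D⁻¹ ∧
    (|(max |B| (|A| * d))⁻¹ * B| = 1 ∨ |(max |B| (|A| * d))⁻¹ * (A * d)| = 1) := by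
  have hB : 0 < |B| := by
    by_contra hc
    have h3 : |B| = 0 := le_antisymm (not_lt.mp hc) (abs_nonneg _)
    rw [h3] at h2
    linarith
  have m1 := le_max_left |B| (|A| * d)
  have m2 := le_max_right |B| (|A| * d)
  have m3 : max |B| (|A| * d) = |B| ∨ max |B| (|A| * d) = |A| * d := max_choice _ _
  generalize max |B| (|A| * d) = M at m1 m2 m3
  have hM : 0 < M := hB.trans_le m1
  have hM' : 0 < M⁻¹ := inv_pos.mpr hM
  have e1 : |M⁻¹ * B| = M⁻¹ * |B| := by rw [abs_mul, abs_of_pos hM']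
  have e2 : |M⁻¹ * (A * d)| = M⁻¹ * (|A| * d) := by rw [abs_mul, abs_mul, abs_of_pos hM', abs_of_pos hd]
  refine ⟨hM, ?_, ?_, ?_, ?_, ?_⟩
  · rw [e1, inv_mul_le_iff₀ hM, mul_one]
    exact m1
  · rw [e2, inv_mul_le_iff₀ hM, mul_one]
    exact m2
  · rw [inv_mul_le_iff₀ hM]
    have h3 : a ≤ K * (a * (|A| + |B|)) := by
      have := mul_le_mul_of_nonneg_left h1 ha.le
      linarith
    have h4 : a * (|A| + |B|) ≤ M + M := by
      have h5 : a * |A| ≤ |A| * d := by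
        rw [mul_comm]
        exact mul_le_mul_of_nonneg_left had (abs_nonneg _)
      have h6 : a * |B| ≤ |B| := mul_le_of_le_one_left (abs_nonneg _) ha1
      linarith
    have h5 := mul_le_mul_of_nonneg_left h4 hK
    linarith
  · rw [inv_le_iff_one_le_mul₀ hM, mul_assoc, ← mul_comm M, ← mul_assoc]
    rw [← div_eq_mul_inv, le_div_iff₀ hD, one_mul]
    exact h2.trans (mul_le_mul_of_nonneg_left m1 hK)
  · rcases m3 with h | h
    · left
      rw [e1, ← h, inv_mul_cancel₀ hM.ne']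
    · right
      rw [e2, ← h, inv_mul_cancel₀ hM.ne']

variable {S X : Sp} {l : Lab S} {e : ℝ} {he : 0 < e} {ρ : Pj X (l.ovr e he)} {L2 : Lab X}

namespace BA

variable {s : Sys S 3} {c lam eta : ℝ}

/-- FORMS of the box coordinates -/
theorem tf (b : BA s c lam eta e he l ρ) (hcl : c ≤ lam) (hce : c ≤ eta) {τ β : ℝ} (h1 : eta + e * (τ - β) ≤ 1)
    (hL : DMc s c (cmpL ρ L2)) (k0 kt ky A B : ∀ k, (L2 k).T.Ω → ℝ) (l0 : Ll L2 k0) (lt : Ll L2 kt) (ly : Ll L2 ky)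
    (lA : Ll L2 A) (lB : Ll L2 B) (bt : Lbd L2 kt) (by' : Lbd L2 ky) {K : ℕ → ℝ} (hK : X.Sub K)
    (ht : Typ (S := L2.sp) (fun k (ω : (L2 k).T.Ω) => (1 ≤ K k * (|A k ω| + |B k ω|) ∧ X.dl β k ≤ K k * |B k ω|) ∧
      |B k ω * b.s3.P.v k ((L2 k).p.π ω) 2 + A k ω * b.s3.P.v k ((L2 k).p.π ω) 1 - (k0 k ω +
      kt k ω * b.s3.t.v k ((L2 k).p.π ω) 0 + ky k ω * b.s3.P.v k ((L2 k).p.π ω) 0)| ≤ K k * X.dl τ k)) :
    Hf s 1 c (eta + e * (τ - β)) := by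
  obtain ⟨d, hd⟩ : ∃ d : ℕ → ℝ, d = fun k => S.dl (eta - lam) k := ⟨_, rfl⟩
  obtain ⟨a, ha⟩ : ∃ a : ℕ → ℝ, a = fun k => S.dl (eta - c) k := ⟨_, rfl⟩
  have hd0 : ∀ k, 0 < d k := fun k => by rw [hd]; exact S.dl_pos _ _
  have ha0 : ∀ k, 0 < a k := fun k => by rw [ha]; exact S.dl_pos _ _
  have ha1 : ∀ k, a k ≤ 1 := fun k => by
    have h2 := S.dl_anti (show (0 : ℝ) ≤ eta - c by linarith) k
    rw [S.dl_zero] at h2
    rw [ha]
    exact h2
  have had : ∀ k, a k ≤ d k := fun k => by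
    rw [ha, hd]
    exact S.dl_anti (by linarith) k
  have hdl : ∀ k, d k * S.dl lam k = S.dl eta k := fun k => by
    rw [hd]
    show S.dl (eta - lam) k * S.dl lam k = _
    rw [← S.dl_add]
    congr 1
    ring
  have hal : ∀ k, a k * S.dl c k = S.dl eta k := fun k => by
    rw [ha]
    show S.dl (eta - c) k * S.dl c k = _
    rw [← S.dl_add]
    congr 1
    ring
  obtain ⟨N, hN⟩ : ∃ N : ∀ k, (L2 k).T.Ω → ℝ, N = fun k ω => (max |B k ω| (|A k ω| * d k))⁻¹ := ⟨_, rfl⟩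
  have lN : Ll L2 N := by
    filter_upwards [lA, lB] with k x y ω ω' x1 x2 x3 x4
    rw [hN]
    show (max |B k ω| (|A k ω| * d k))⁻¹ = (max |B k ω'| (|A k ω'| * d k))⁻¹
    rw [x ω ω' x1 x2 x3 x4, y ω ω' x1 x2 x3 x4]
  -- bounds of the frames
  obtain ⟨K3, hK3, hb3⟩ : ∃ K3 : ℕ → ℝ, X.Sub K3 ∧ ∀ᶠ k in UF, ∀ ω, (L2 k).T.μ ω ≠ 0 →
      |(b.u 1).1 k ((L2 k).p.π ω)| ≤ K3 k ∧ |(b.u 2).1 k ((L2 k).p.π ω)| ≤ K3 k ∧ |(b.u 3).1 k ((L2 k).p.π ω)| ≤ K3 k ∧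
      |(b.r 1).1 k ((L2 k).p.π ω)| ≤ K3 k ∧ |(b.r 2).1 k ((L2 k).p.π ω)| ≤ K3 k ∧ |kt k ω| ≤ K3 k ∧
      |ky k ω| ≤ K3 k := by
    obtain ⟨K1, s1, t1⟩ := Lbd.of_TR (b.u 1) L2
    obtain ⟨K2, s2, t2⟩ := Lbd.of_TR (b.u 2) L2
    obtain ⟨K4, s4, t4⟩ := Lbd.of_TR (b.u 3) L2
    obtain ⟨K5, s5, t5⟩ := Lbd.of_TR (b.r 1) L2
    obtain ⟨K6, s6, t6⟩ := Lbd.of_TR (b.r 2) L2
    obtain ⟨K7, s7, t7⟩ := bt
    obtain ⟨K8, s8, t8⟩ := by'
    refine ⟨fun k => K1 k + K2 k + K4 k + K5 k + K6 k + K7 k + K8 k, ((((((s1.add s2).add s4).add s5).add s6).add s7).add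
      s8), ?_⟩
    filter_upwards [t1, t2, t4, t5, t6, t7, t8, s1.1, s2.1, s4.1, s5.1, s6.1, s7.1, s8.1] with k t1 t2 t4 t5 t6 t7 t8 s1
      s2 s4 s5 s6 s7 s8 ω hω
    have t1 := t1 ω hω
    have t2 := t2 ω hω
    have t4 := t4 ω hω
    have t5 := t5 ω hω
    have t6 := t6 ω hω
    have t7 := t7 ω hω
    have t8 := t8 ω hω
    refine ⟨?_, ?_, ?_, ?_, ?_, ?_, ?_⟩ <;> linarith
  have hKK : X.Sub (fun k => (1 + (K3 k + (K3 k + 2 * (K k * K3 k)))) + (2 * (1 + K3 k) + K k * K k)) := by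
    have c2 := X.Sub_const (show (0 : ℝ) ≤ 2 by norm_num)
    have c1 := X.Sub_const (show (0 : ℝ) ≤ 1 by norm_num)
    exact (c1.add (hK3.add (hK3.add (c2.mul (hK.mul hK3))))).add ((c2.mul (c1.add hK3)).add (hK.mul hK))
  refine Hf_mk (σ := eta + e * (τ - β)) h1 hL
    (fun k ω => -(N k ω * B k ω * (b.u 0).1 k ((L2 k).p.π ω) + (N k ω * A k ω * d k * (b.r 0).1 k ((L2 k).p.π ω) +
      (-(N k ω * a k * kt k ω * b.tc.1 k ((L2 k).p.π ω)) + (-(N k ω * a k * ky k ω * b.yc.1 k ((L2 k).p.π ω)) +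
        N k ω * S.dl eta k * k0 k ω)))))
    ![fun k ω => -(N k ω * B k ω * (b.u 1).1 k ((L2 k).p.π ω) + (N k ω * A k ω * d k * (b.r 1).1 k ((L2 k).p.π ω) +
        N k ω * a k * kt k ω)),
      fun k ω => -(N k ω * B k ω * (b.u 2).1 k ((L2 k).p.π ω) + (N k ω * A k ω * d k * (b.r 2).1 k ((L2 k).p.π ω) +
        N k ω * a k * ky k ω)),
      fun k ω => N k ω * A k ω * d k + -(N k ω * B k ω * (b.u 3).1 k ((L2 k).p.π ω)),
      fun k ω => N k ω * B k ω] ?_ ?_ hKK ?_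
  · have q1 := lN.mul lB
    have q2 := (lN.mul lA).mul (Ll.const (L := L2) d)
    have q3 := lN.mul (Ll.const (L := L2) a)
    have q4 := lN.mul (Ll.const (L := L2) (fun k => S.dl eta k))
    exact ((q1.mul (Ll.of_Lz (b.lu 0) L2)).add ((q2.mul (Ll.of_Lz (b.lr 0) L2)).add
      (((q3.mul lt).mul (Ll.of_Lz b.ltc L2)).neg.add (((q3.mul ly).mul (Ll.of_Lz b.lyc L2)).neg.add (q4.mul l0))))).neg
  · have q1 := lN.mul lB
    have q2 := (lN.mul lA).mul (Ll.const (L := L2) d)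
    have q3 := lN.mul (Ll.const (L := L2) a)
    intro j
    fin_cases j
    · exact ((q1.mul (Ll.of_Lz (b.lu 1) L2)).add ((q2.mul (Ll.of_Lz (b.lr 1) L2)).add (q3.mul lt))).neg
    · exact ((q1.mul (Ll.of_Lz (b.lu 2) L2)).add ((q2.mul (Ll.of_Lz (b.lr 2) L2)).add (q3.mul ly))).neg
    · exact q2.add (q1.mul (Ll.of_Lz (b.lu 3) L2)).neg
    · exact q1
  · have e1 := L2.pj.typ b.et
    have e2 := L2.pj.typ b.ey
    have e3 := L2.pj.typ b.eR
    have e3' := L2.pj.typ b.ez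
    refine ((((ht.and e1).and e2).and e3).and e3').mono ?_
    filter_upwards [hb3, hK.1, hK3.1] with k hb3 hK0 hK30 ω hω h
    obtain ⟨⟨⟨⟨⟨⟨h4, h4'⟩, h4''⟩, h5⟩, h6⟩, h7⟩, h8⟩ := h
    have h5' : s.t.v k (ptl ρ k ((L2 k).p.π ω)) 0 = b.tc.1 k ((L2 k).p.π ω) + S.dl c k * b.s3.t.v k ((L2 k).p.π ω) 0 := h5
    have h6' : s.P.v k (ptl ρ k ((L2 k).p.π ω)) 0 = b.yc.1 k ((L2 k).p.π ω) + S.dl c k * b.s3.P.v k ((L2 k).p.π ω) 0 := h6
    have h7' : s.P.v k (ptl ρ k ((L2 k).p.π ω)) 1 = (b.r 0).1 k ((L2 k).p.π ω) +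
      (b.r 1).1 k ((L2 k).p.π ω) * s.t.v k (ptl ρ k ((L2 k).p.π ω)) 0 +
      (b.r 2).1 k ((L2 k).p.π ω) * s.P.v k (ptl ρ k ((L2 k).p.π ω)) 0 + S.dl lam k * b.s3.P.v k ((L2 k).p.π ω) 1 := h7
    have h8' : s.P.v k (ptl ρ k ((L2 k).p.π ω)) 2 = (b.u 0).1 k ((L2 k).p.π ω) +
      (b.u 1).1 k ((L2 k).p.π ω) * s.t.v k (ptl ρ k ((L2 k).p.π ω)) 0 +
      (b.u 2).1 k ((L2 k).p.π ω) * s.P.v k (ptl ρ k ((L2 k).p.π ω)) 0 +
      (b.u 3).1 k ((L2 k).p.π ω) * s.P.v k (ptl ρ k ((L2 k).p.π ω)) 1 + S.dl eta k * b.s3.P.v k ((L2 k).p.π ω) 2 := h8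
    obtain ⟨v1, v2, v3, v4, v5, v6, v7⟩ := hb3 ω hω
    obtain ⟨n0, n1, n2, n3, n4, n5⟩ := nrm_bd (hd0 k) (ha0 k) (ha1 k) (had k) hK0 (X.dl_pos β k) h4 h4'
    have hNe : (max |B k ω| (|A k ω| * d k))⁻¹ = N k ω := by rw [hN]
    rw [hNe] at n1 n2 n3 n4 n5
    have hN0 : 0 < N k ω := by rw [← hNe]; exact inv_pos.mpr n0
    have hx1 : |N k ω * B k ω| ≤ 1 := n1
    have hx2 : |N k ω * A k ω * d k| ≤ 1 := by rw [mul_assoc]; exact n2
    have hx3 : |N k ω * a k| ≤ 2 * K k := by rw [abs_of_pos (mul_pos hN0 (ha0 k))]; exact n3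
    have bd1 : ∀ x, |x| ≤ K3 k → |N k ω * B k ω * x| ≤ K3 k := fun x hx => by
      rw [abs_mul]
      calc |N k ω * B k ω| * |x| ≤ 1 * K3 k := mul_le_mul hx1 hx (abs_nonneg _) zero_le_one
        _ = K3 k := one_mul _
    have bd2 : ∀ x, |x| ≤ K3 k → |N k ω * A k ω * d k * x| ≤ K3 k := fun x hx => by
      rw [abs_mul]
      calc |N k ω * A k ω * d k| * |x| ≤ 1 * K3 k := mul_le_mul hx2 hx (abs_nonneg _) zero_le_one
        _ = K3 k := one_mul _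
    have bd3 : ∀ x, |x| ≤ K3 k → |N k ω * a k * x| ≤ 2 * (K k * K3 k) := fun x hx => by
      rw [abs_mul]
      calc |N k ω * a k| * |x| ≤ 2 * K k * K3 k := mul_le_mul hx3 hx (abs_nonneg _) (by positivity)
        _ = 2 * (K k * K3 k) := by ring
    have hKK3 : 0 ≤ K k * K3 k := mul_nonneg hK0 hK30
    have hKK2 : 0 ≤ K k * K k := mul_nonneg hK0 hK0
    refine ⟨?_, ?_, ?_⟩
    · intro j
      fin_cases j
      · show |-(N k ω * B k ω * (b.u 1).1 k ((L2 k).p.π ω) + (N k ω * A k ω * d k * (b.r 1).1 k ((L2 k).p.π ω) +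
          N k ω * a k * kt k ω))| ≤ _
        rw [abs_neg]
        have w1 := abs_add_le (N k ω * B k ω * (b.u 1).1 k ((L2 k).p.π ω)) (N k ω * A k ω * d k *
          (b.r 1).1 k ((L2 k).p.π ω) + N k ω * a k * kt k ω)
        have w2 := abs_add_le (N k ω * A k ω * d k * (b.r 1).1 k ((L2 k).p.π ω)) (N k ω * a k * kt k ω)
        have w3 := bd1 _ v1
        have w4 := bd2 _ v4
        have w5 := bd3 _ v6
        linarith
      · show |-(N k ω * B k ω * (b.u 2).1 k ((L2 k).p.π ω) + (N k ω * A k ω * d k * (b.r 2).1 k ((L2 k).p.π ω) +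
          N k ω * a k * ky k ω))| ≤ _
        rw [abs_neg]
        have w1 := abs_add_le (N k ω * B k ω * (b.u 2).1 k ((L2 k).p.π ω)) (N k ω * A k ω * d k *
          (b.r 2).1 k ((L2 k).p.π ω) + N k ω * a k * ky k ω)
        have w2 := abs_add_le (N k ω * A k ω * d k * (b.r 2).1 k ((L2 k).p.π ω)) (N k ω * a k * ky k ω)
        have w3 := bd1 _ v2
        have w4 := bd2 _ v5
        have w5 := bd3 _ v7
        linarith
      · show |N k ω * A k ω * d k + -(N k ω * B k ω * (b.u 3).1 k ((L2 k).p.π ω))| ≤ _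
        have w1 := abs_add_le (N k ω * A k ω * d k) (-(N k ω * B k ω * (b.u 3).1 k ((L2 k).p.π ω)))
        rw [abs_neg] at w1
        have w3 := bd1 _ v3
        linarith
      · show |N k ω * B k ω| ≤ _
        linarith
    · by_cases hB : 1 ≤ 2 * (1 + K3 k) * |N k ω * B k ω|
      · refine ⟨3, ?_⟩
        show 1 ≤ _ * |N k ω * B k ω|
        refine hB.trans (mul_le_mul_of_nonneg_right ?_ (abs_nonneg _))
        linarith
      · refine ⟨2, ?_⟩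
        show 1 ≤ _ * |N k ω * A k ω * d k + -(N k ω * B k ω * (b.u 3).1 k ((L2 k).p.π ω))|
        push Not at hB
        have hA1 : |N k ω * A k ω * d k| = 1 := by
          rcases n5 with h | h
          · rw [h] at hB
            linarith
          · rw [mul_assoc]
            exact h
        have w3 : |N k ω * B k ω * (b.u 3).1 k ((L2 k).p.π ω)| ≤ 1 / 2 := by
          rw [abs_mul]
          have w4 := mul_le_mul_of_nonneg_left v3 (abs_nonneg (N k ω * B k ω))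
          have w5 : 0 ≤ |N k ω * B k ω| := abs_nonneg _
          nlinarith
        have w4 := abs_sub_abs_le_abs_sub (N k ω * A k ω * d k) (N k ω * B k ω * (b.u 3).1 k ((L2 k).p.π ω))
        rw [hA1] at w4
        rw [← sub_eq_add_neg]
        have w5 : 1 / 2 ≤ |N k ω * A k ω * d k - N k ω * B k ω * (b.u 3).1 k ((L2 k).p.π ω)| := by linarith
        have w6 : 2 ≤ 1 + (K3 k + (K3 k + 2 * (K k * K3 k))) + (2 * (1 + K3 k) + K k * K k) := by linarith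
        calc (1 : ℝ) = 2 * (1 / 2) := by norm_num
          _ ≤ _ := mul_le_mul w6 w5 (by norm_num) (by linarith)
    · have e4 : ptf s k (ptl ρ k ((L2 k).p.π ω)) 0 = s.t.v k (ptl ρ k ((L2 k).p.π ω)) 0 := rfl
      have e5 : ptf s k (ptl ρ k ((L2 k).p.π ω)) 1 = s.P.v k (ptl ρ k ((L2 k).p.π ω)) 0 := rfl
      have e6 : ptf s k (ptl ρ k ((L2 k).p.π ω)) 2 = s.P.v k (ptl ρ k ((L2 k).p.π ω)) 1 := rfl
      have e7 : ptf s k (ptl ρ k ((L2 k).p.π ω)) 3 = s.P.v k (ptl ρ k ((L2 k).p.π ω)) 2 := rfl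
      rw [Fin.sum_univ_four, e4, e5, e6, e7]
      have e8 : -(N k ω * B k ω * (b.u 0).1 k ((L2 k).p.π ω) + (N k ω * A k ω * d k * (b.r 0).1 k ((L2 k).p.π ω) +
          (-(N k ω * a k * kt k ω * b.tc.1 k ((L2 k).p.π ω)) + (-(N k ω * a k * ky k ω * b.yc.1 k ((L2 k).p.π ω)) +
            N k ω * S.dl eta k * k0 k ω)))) +
          (-(N k ω * B k ω * (b.u 1).1 k ((L2 k).p.π ω) + (N k ω * A k ω * d k * (b.r 1).1 k ((L2 k).p.π ω) +
            N k ω * a k * kt k ω)) * s.t.v k (ptl ρ k ((L2 k).p.π ω)) 0 +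
          -(N k ω * B k ω * (b.u 2).1 k ((L2 k).p.π ω) + (N k ω * A k ω * d k * (b.r 2).1 k ((L2 k).p.π ω) +
            N k ω * a k * ky k ω)) * s.P.v k (ptl ρ k ((L2 k).p.π ω)) 0 +
          (N k ω * A k ω * d k + -(N k ω * B k ω * (b.u 3).1 k ((L2 k).p.π ω))) * s.P.v k (ptl ρ k ((L2 k).p.π ω)) 1 +
          N k ω * B k ω * s.P.v k (ptl ρ k ((L2 k).p.π ω)) 2) =
          N k ω * S.dl eta k * (B k ω * b.s3.P.v k ((L2 k).p.π ω) 2 + A k ω * b.s3.P.v k ((L2 k).p.π ω) 1 - (k0 k ω +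
            kt k ω * b.s3.t.v k ((L2 k).p.π ω) 0 + ky k ω * b.s3.P.v k ((L2 k).p.π ω) 0)) := by
        rw [h8']
        linear_combination N k ω * A k ω * d k * h7' - N k ω * a k * kt k ω * h5' - N k ω * a k * ky k ω * h6' +
          N k ω * A k ω * b.s3.P.v k ((L2 k).p.π ω) 1 * hdl k - N k ω * kt k ω * b.s3.t.v k ((L2 k).p.π ω) 0 * hal k -
          N k ω * ky k ω * b.s3.P.v k ((L2 k).p.π ω) 0 * hal k
      refine le_trans (le_of_eq (congrArg abs e8)) ?_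
      rw [abs_mul, abs_of_pos (mul_pos hN0 (S.dl_pos eta k))]
      have e9 : (X.dl β k)⁻¹ * S.dl eta k * X.dl τ k = S.dl (eta + e * (τ - β)) k := by
        rw [X_dl ρ, X_dl ρ]
        unfold Sp.dl
        rw [← Real.rpow_neg (by norm_num), ← Real.rpow_add (by norm_num), ← Real.rpow_add (by norm_num)]
        congr 1
        ring
      have e10 : N k ω * S.dl eta k * |B k ω * b.s3.P.v k ((L2 k).p.π ω) 2 + A k ω * b.s3.P.v k ((L2 k).p.π ω) 1 -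
          (k0 k ω + kt k ω * b.s3.t.v k ((L2 k).p.π ω) 0 + ky k ω * b.s3.P.v k ((L2 k).p.π ω) 0)| ≤
          (K k * (X.dl β k)⁻¹) * S.dl eta k * (K k * X.dl τ k) :=
        mul_le_mul (mul_le_mul_of_nonneg_right n4 (S.dl_pos eta k).le) h4'' (abs_nonneg _)
          (mul_nonneg (mul_nonneg hK0 (inv_nonneg.mpr (X.dl_pos β k).le)) (S.dl_pos eta k).le)
      refine e10.trans ?_
      have e11 : (K k * (X.dl β k)⁻¹) * S.dl eta k * (K k * X.dl τ k) =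
          (K k * K k) * ((X.dl β k)⁻¹ * S.dl eta k * X.dl τ k) := by ring
      rw [e11, e9]
      apply mul_le_mul_of_nonneg_right _ (S.dl_pos _ k).le
      linarith

end BA

end

end Pool.Agent.Helper93.H4
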