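import Pool.Agent.Helper93.H4.Pln
import Pool.Agent.Helper93.H4.Tf

/-! SHEETS OF THE PLANAR SYSTEM are sheets of the box coordinates: contradiction to the thicknesses. (H4, step B) -/

set_option autoImplicit false

namespace Pool.Agent.Helper93.H4

open Finset Filter Topology Pool.Agent.Helper69.RK Pool.Agent.Helper31.EC Pool.Agent.Helper31.EC.Sp
open Pool.Agent.Helper40.EL Pool.Agent.Helper42.NS Pool.Agent.Helper91.GR
open Pool.Agent.Helper89.LX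
open Pool.Agent.Helper52.KP hiding ic ic_nonneg

noncomputable section

variable {S X : Sp} {m q : ℕ}

/-! ### labels which know functions of zero entropy -/

/-- add the cells of a vector variable -/
def adl (L : Lab X) (W : X.VV 2) : Lab X := fun k => (L k).add (Setoid.ker (W.cellv 1 k))

theorem adl_DM {s2 : Sys X q} {c : ℝ} {L : Lab X} (hL : DMc s2 c L) {W : X.VV 2} (hW : W.dg 1 = ⊥) :
    DMc s2 c (adl L W) := by
  set Y : X.Inf := (W.bdd 1).toInf with hY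
  have e1 : cl Y = ⊥ := (io_eq _).symm.trans hW
  have key : ∀ (B : X.Inf) (Bp : Part X), Bp = rpI B →
      Nul X (fun k => (L k).leak (Bp k)) → Nul X (fun k => (adl L W k).leak (Bp k)) := by
    intro B Bp hBp hn
    have h2 : PLe (rpI Y) (rpI B) := PLe_rpI.mpr (by rw [e1]; exact _root_.bot_le)
    have h3 : Nul X (fun k => h (rpI Y k) (rpI B k)) := h2
    apply (hn.add h3).of_le (Eventually.of_forall fun k => FLab.leak_nonneg _ _)
    refine Eventually.of_forall fun k => ?_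
    have h4 := (L k).add_leak_le (Setoid.ker (W.cellv 1 k)) (Bp k)
    rw [hBp] at h4 ⊢
    exact h4
  exact ⟨key _ _ (cA_eq s2 c) hL.1, key _ _ (cB_eq s2) hL.2⟩

theorem adl_Sht {s2 : Sys X q} {i : Fin q} {J : Finset (Fin (q + 1))} {σ : ℝ} {L : Lab X}
    {v : ∀ k, (L k).T.Ω → Cf (q + 1)} (h : Sht s2 i J σ L v) (W : X.VV 2) : Sht s2 i J σ (adl L W) v := by
  obtain ⟨hm, K, hK, hs, ht⟩ := h
  exact ⟨fun k ω ω' a b c d => hm k ω ω' a b c.1 d, K, hK, hs, ht⟩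

/-- rounding -/
theorem exists_rd {L : Lab X} {W : X.VV 2} (i : Fin 2) : ∃ F : ∀ k, ((adl L W) k).T.Ω → ℝ,
    Ll (adl L W) F ∧ Lbd (adl L W) F ∧ ∀ k ω, |(TR.cor W i).1 k (((adl L W) k).p.π ω) - F k ω| ≤ X.dl 1 k := by
  have key : ∀ k ω, |(TR.cor W i).1 k (((adl L W) k).p.π ω) - X.dl 1 k * (W.cellv 1 k (((adl L W) k).p.π ω) i : ℝ)| ≤
      X.dl 1 k := by
    intro k ω
    have hd := X.dl_pos 1 k
    set a := W.v k (((adl L W) k).p.π ω) i with ha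
    have e1 : (TR.cor W i).1 k (((adl L W) k).p.π ω) = a := rfl
    have e2 : W.cellv 1 k (((adl L W) k).p.π ω) i = ⌊a / X.dl 1 k⌋ := rfl
    rw [e1, e2]
    have h1 := Int.floor_le (a / X.dl 1 k)
    have h2 := Int.lt_floor_add_one (a / X.dl 1 k)
    rw [le_div_iff₀ hd] at h1
    rw [div_lt_iff₀ hd] at h2
    rw [abs_le]
    constructor <;> nlinarith
  refine ⟨fun k ω => X.dl 1 k * (W.cellv 1 k (((adl L W) k).p.π ω) i : ℝ), ?_, ?_, key⟩
  · refine Eventually.of_forall fun k ω ω' _ _ h3 _ => ?_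
    have h4 : W.cellv 1 k (((adl L W) k).p.π ω) = W.cellv 1 k (((adl L W) k).p.π ω') := h3.2
    exact congrArg (fun z : Fin 2 → ℤ => X.dl 1 k * (z i : ℝ)) h4
  · obtain ⟨K, hK, hb⟩ := Lbd.of_TR (TR.cor W i) (adl L W)
    refine ⟨_, hK.add (X.Sub_const zero_le_one), ?_⟩
    filter_upwards [hb] with k hk ω hω
    have h1 := hk ω hω
    have h2 := key k ω
    have h3 : X.dl 1 k ≤ 1 := by
      have := X.dl_anti (zero_le_one) k
      rwa [X.dl_zero] at this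
    have h4 : X.dl 1 k * (W.cellv 1 k (((adl L W) k).p.π ω) i : ℝ) = (TR.cor W i).1 k (((adl L W) k).p.π ω) -
      ((TR.cor W i).1 k (((adl L W) k).p.π ω) - X.dl 1 k * (W.cellv 1 k (((adl L W) k).p.π ω) i : ℝ)) := by ring
    rw [h4]
    refine (abs_sub _ _).trans ?_
    linarith

/-- literal inverses -/
theorem exists_inv {L : Lab X} {f : TR X} (hf : QS.Nd f) {F : ∀ k, (L k).T.Ω → ℝ} (h1 : Ll L F)
    (h2 : ∀ k ω, |f.1 k ((L k).p.π ω) - F k ω| ≤ X.dl 1 k) : ∃ G : ∀ k, (L k).T.Ω → ℝ, Ll L G ∧ Lbd L G ∧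
    Typ (S := L.sp) (fun k (ω : (L k).T.Ω) => G k ω * F k ω = 1) := by
  classical
  obtain ⟨K, hK, hh⟩ := hf
  refine ⟨fun k ω => if 1 ≤ 2 * K k * |F k ω| then (F k ω)⁻¹ else 0, ?_, ?_, ?_⟩
  · filter_upwards [h1] with k hk ω ω' a b c d
    rw [hk ω ω' a b c d]
  · refine ⟨fun k => 2 * K k, (X.Sub_const zero_le_two).mul hK, ?_⟩
    filter_upwards [hK.1] with k hk ω _
    split_ifs with h3
    · have h4 : 0 < |F k ω| := by
        by_contra hc
        have h5 : |F k ω| = 0 := le_antisymm (not_lt.mp hc) (abs_nonneg _)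
        rw [h5] at h3
        linarith
      rw [abs_inv, inv_le_iff_one_le_mul₀ h4]
      exact h3
    · rw [abs_zero]
      linarith
  · have h3 := L.pj.typ hh
    have h4 := ((X.Sub_const zero_le_two).mul hK).eventually_le one_pos
    refine h3.mono ?_
    filter_upwards [hK.1, h4] with k hk hk2 ω _ h5
    have h6 : 1 ≤ K k * |f.1 k ((L k).p.π ω)| := h5
    have h7 : 2 * K k * X.dl 1 k ≤ 1 := by
      have h8 : 2 * K k ≤ 2 ^ (1 * (X.F k).n) := by linarith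
      have h9 : (2 : ℝ) ^ (1 * (X.F k).n) * X.dl 1 k = 1 := by
        unfold Sp.dl
        rw [← Real.rpow_add (by norm_num), add_neg_cancel, Real.rpow_zero]
      exact (mul_le_mul_of_nonneg_right h8 (X.dl_pos 1 k).le).trans h9.le
    have h8 : |f.1 k ((L k).p.π ω)| ≤ |F k ω| + X.dl 1 k := by
      have h9 := h2 k ω
      have h10 : f.1 k ((L k).p.π ω) = F k ω + (f.1 k ((L k).p.π ω) - F k ω) := by ring
      rw [h10]
      refine (abs_add_le _ _).trans ?_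
      linarith
    have h9 : 1 ≤ 2 * K k * |F k ω| := by
      have h10 := mul_le_mul_of_nonneg_left h8 hk
      linarith
    show (if 1 ≤ 2 * K k * |F k ω| then (F k ω)⁻¹ else 0) * F k ω = 1
    rw [if_pos h9]
    apply inv_mul_cancel₀
    intro hc
    rw [hc, abs_zero, mul_zero] at h9
    linarith

namespace BA

variable {s : Sys S 3} {c lam eta e : ℝ} {he : 0 < e} {l : Lab S} {ρ : Pj X (l.ovr e he)}

theorem cmpDM (b : BA s c lam eta e he l ρ) {al be : TR X} (hal : TR.dg al 1 = ⊥) (hbe : TR.dg be 1 = ⊥) {L : Lab X}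
    (hL : DMc (pls b.s3 hal hbe) 0 L) : DMc s c (cmpL ρ L) := by
  refine cmpL_DM b.kap.1 ?_ ?_ hL
  · exact (pls_lA b.s3 hal hbe).trans (b.ln.trans (ρ.map_mono (l.upL_mono e he le_sup_left)))
  · exact (pls_lB b.s3 hal hbe).trans b.pt

/-- the data of a sheet of the planar system -/
theorem exists_dat (b : BA s c lam eta e he l ρ) {al be : TR X} (hal : TR.dg al 1 = ⊥) (hbe : TR.dg be 1 = ⊥) {σ : ℝ}
    (h : HH (SJ 1 {0, 1}) (pls b.s3 hal hbe) 0 σ) : ∃ (L : Lab X) (v0 v1 v2 A B : ∀ k, (L k).T.Ω → ℝ) (K : ℕ → ℝ),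
    DMc s c (cmpL ρ L) ∧ Ll L v0 ∧ Ll L v1 ∧ Ll L v2 ∧ Ll L A ∧ Ll L B ∧ Lbd L v1 ∧ Lbd L v2 ∧ Lbd L A ∧ Lbd L B ∧
    (∀ k ω, |al.1 k ((L k).p.π ω) - A k ω| ≤ X.dl 1 k) ∧ (∀ k ω, |be.1 k ((L k).p.π ω) - B k ω| ≤ X.dl 1 k) ∧
    X.Sub K ∧ Typ (S := L.sp) (fun k (ω : (L k).T.Ω) => |(be.1 k ((L k).p.π ω) * b.s3.P.v k ((L k).p.π ω) 2 +
      al.1 k ((L k).p.π ω) * b.s3.P.v k ((L k).p.π ω) 1) - (v0 k ω + v1 k ω * b.s3.t.v k ((L k).p.π ω) 0 +
      v2 k ω * b.s3.P.v k ((L k).p.π ω) 0)| ≤ K k * X.dl σ k) := by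
  obtain ⟨L1, v, hL1, hv⟩ := Sht_of_HH h
  rw [DM_p_iff] at hL1
  set W : X.VV 2 := TR.vec ![al, be] with hW
  have hW0 : W.dg 1 = ⊥ := by
    apply le_antisymm _ _root_.bot_le
    apply TR.vec_dg_le
    intro i
    fin_cases i
    · exact hal.le
    · exact hbe.le
  obtain ⟨A, hA1, hA2, hA3⟩ := exists_rd (L := L1) (W := W) 0
  obtain ⟨B, hB1, hB2, hB3⟩ := exists_rd (L := L1) (W := W) 1
  have hS := adl_Sht hv W
  obtain ⟨hm, K, hK, hs, ht⟩ := hS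
  refine ⟨adl L1 W, fun k ω => (v k ω).1, fun k ω => (v k ω).2 0, fun k ω => (v k ω).2 1, A, B, K,
    b.cmpDM hal hbe (adl_DM hL1 hW0), ?_, ?_, ?_, hA1, hB1, ?_, ?_, hA2, hB2, hA3, hB3, hK, ?_⟩
  · exact Eventually.of_forall fun k ω ω' a b c d => congrArg Prod.fst (hm k ω ω' a b c d)
  · exact Eventually.of_forall fun k ω ω' a b c d => congrArg (fun z : Cf 3 => z.2 0) (hm k ω ω' a b c d)
  · exact Eventually.of_forall fun k ω ω' a b c d => congrArg (fun z : Cf 3 => z.2 1) (hm k ω ω' a b c d)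
  · exact ⟨K, hK, hs.mono fun k hk ω hω => hk ω hω 0⟩
  · exact ⟨K, hK, hs.mono fun k hk ω hω => hk ω hω 1⟩
  · refine ht.mono (Eventually.of_forall fun k ω _ h1 => ?_)
    refine le_trans (le_of_eq (congrArg abs ?_)) h1
    have e1 := pls_P1 b.s3 hal hbe k (((adl L1 W) k).p.π ω)
    have e2 : (pls b.s3 hal hbe).P.v k (((adl L1 W) k).p.π ω) 1 = (pls b.s3 hal hbe).a.v k (((adl L1 W) k).p.π ω) 1 +
      (pls b.s3 hal hbe).t.v k (((adl L1 W) k).p.π ω) 0 * (pls b.s3 hal hbe).x.v k (((adl L1 W) k).p.π ω) 1 := rfl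
    have e3 : (pls b.s3 hal hbe).P.v k (((adl L1 W) k).p.π ω) 0 = (pls b.s3 hal hbe).a.v k (((adl L1 W) k).p.π ω) 0 +
      (pls b.s3 hal hbe).t.v k (((adl L1 W) k).p.π ω) 0 * (pls b.s3 hal hbe).x.v k (((adl L1 W) k).p.π ω) 0 := rfl
    show _ = dfl (pls b.s3 hal hbe) 1 {0, 1} (adl L1 W) v k ω
    unfold dfl df aff
    rw [Finset.sum_insert (by decide), Finset.sum_singleton, Pool.Agent.Helper3.LF.pl_zero,
      show (1 : Fin 3) = Fin.succ (0 : Fin 2) from rfl, Pool.Agent.Helper3.LF.pl_succ, ← e2, e1, ← e3]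
    have e4 : (pls b.s3 hal hbe).P.v k (((adl L1 W) k).p.π ω) 0 = b.s3.P.v k (((adl L1 W) k).p.π ω) 0 := rfl
    rw [e4, add_assoc]
    rfl

/-- a form if `be` is not small -/
theorem coreA (b : BA s c lam eta e he l ρ) (hcl : c ≤ lam) (hce : c ≤ eta) (h1 : eta + e ≤ 1)
    {al be : TR X} (hal : TR.dg al 1 = ⊥) (hbe : TR.dg be 1 = ⊥) {K0 : ℕ → ℝ} (hK0 : X.Sub K0)
    (hun : Typ (S := X) (fun k ω => 1 ≤ K0 k * (|al.1 k ω| + |be.1 k ω|))) {β : ℝ} (hβ0 : 0 < β) (hβ1 : β < 1)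
    (hlow : Typ (S := X) (fun k ω => X.dl β k ≤ |be.1 k ω|)) {σ : ℝ} (hσ1 : σ ≤ 1)
    (h : HH (SJ 1 {0, 1}) (pls b.s3 hal hbe) 0 σ) : Hf s 1 c (eta + e * (σ - β)) := by
  obtain ⟨L, v0, v1, v2, A, B, K, hL, l0, l1, l2, lA', lB', b1, b2, bA, bB, hA, hB, hK, ht⟩ := b.exists_dat hal hbe h
  obtain ⟨K3, hK3, h3⟩ := b.s3.P.bd
  have hs : eta + e * (σ - β) ≤ 1 := by nlinarith
  have c2 := X.Sub_const (show (0 : ℝ) ≤ 2 by norm_num)
  refine b.tf (L2 := L) hcl hce (τ := σ) (β := β) hs hL v0 v1 v2 A B l0 l1 l2 lA' lB' b1 b2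
    (K := fun k => (K k + (K3 k + K3 k)) + (2 * K0 k + 2)) ((hK.add (hK3.add hK3)).add ((c2.mul hK0).add c2)) ?_
  refine ((ht.and (L.pj.typ hun)).and (L.pj.typ hlow)).mono ?_
  have c4 := ((X.Sub_const (show (0 : ℝ) ≤ 4 by norm_num)).mul hK0).eventually_le one_pos
  have c5 := (X.Sub_const (show (0 : ℝ) ≤ 2 by norm_num)).eventually_le (show 0 < 1 - β by linarith)
  filter_upwards [h3, hK.1, hK3.1, hK0.1, c4, c5] with k h3 x3 x4 x5 c4 c5 ω hω x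
  obtain ⟨⟨y1, y2⟩, y3⟩ := x
  have y2' : 1 ≤ K0 k * (|al.1 k ((L k).p.π ω)| + |be.1 k ((L k).p.π ω)|) := y2
  have y3' : X.dl β k ≤ |be.1 k ((L k).p.π ω)| := y3
  have w1 := h3 _ ((L k).p.supp ω hω)
  have hd := X.dl_anti hσ1 k
  have hd0 := X.dl_pos 1 k
  have a1 : |al.1 k ((L k).p.π ω)| ≤ |A k ω| + X.dl 1 k := by
    have := abs_sub_abs_le_abs_sub (al.1 k ((L k).p.π ω)) (A k ω)
    have := hA k ω
    linarith
  have a2 : |be.1 k ((L k).p.π ω)| ≤ |B k ω| + X.dl 1 k := by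
    have := abs_sub_abs_le_abs_sub (be.1 k ((L k).p.π ω)) (B k ω)
    have := hB k ω
    linarith
  refine ⟨⟨?_, ?_⟩, ?_⟩
  · have a3 : 2 * (K0 k * X.dl 1 k + K0 k * X.dl 1 k) ≤ 1 := by
      have e9 : (2 : ℝ) ^ (1 * (X.F k).n) * X.dl 1 k = 1 := by
        unfold Sp.dl
        rw [← Real.rpow_add (by norm_num), add_neg_cancel, Real.rpow_zero]
      have c4' : 4 * K0 k ≤ 2 ^ (1 * (X.F k).n) := by linarith
      have := mul_le_mul_of_nonneg_right c4' hd0.le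
      linarith
    have a4 := mul_le_mul_of_nonneg_left (add_le_add a1 a2) x5
    have a5 : 0 ≤ |A k ω| + |B k ω| := by positivity
    have a6 : 0 ≤ (K k + (K3 k + K3 k) + 2) * (|A k ω| + |B k ω|) := mul_nonneg (by linarith) a5
    nlinarith
  · have a3 : 2 * X.dl 1 k ≤ X.dl β k := by
      have e9 : (2 : ℝ) ^ ((1 - β) * (X.F k).n) * X.dl 1 k = X.dl β k := by
        unfold Sp.dl
        rw [← Real.rpow_add (by norm_num)]
        congr 1
        ring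
      have c5' : 2 ≤ (2 : ℝ) ^ ((1 - β) * (X.F k).n) := by linarith
      have := mul_le_mul_of_nonneg_right c5' hd0.le
      linarith
    have a4 : X.dl β k ≤ 2 * |B k ω| := by linarith
    have a5 : 0 ≤ |B k ω| := abs_nonneg _
    have a6 : 0 ≤ (K k + (K3 k + K3 k) + 2 * K0 k) * |B k ω| := mul_nonneg (by linarith) a5
    nlinarith
  · set z := b.s3.P.v k ((L k).p.π ω) 2 with hz
    set R := b.s3.P.v k ((L k).p.π ω) 1 with hR
    set y := b.s3.P.v k ((L k).p.π ω) 0 with hy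
    set t := b.s3.t.v k ((L k).p.π ω) 0 with htt
    have e1 : B k ω * z + A k ω * R - (v0 k ω + v1 k ω * t + v2 k ω * y) =
        ((be.1 k ((L k).p.π ω) * z + al.1 k ((L k).p.π ω) * R) - (v0 k ω + v1 k ω * t + v2 k ω * y)) -
          ((be.1 k ((L k).p.π ω) - B k ω) * z + (al.1 k ((L k).p.π ω) - A k ω) * R) := by ring
    rw [e1]
    have z1 : |(be.1 k ((L k).p.π ω) - B k ω) * z| ≤ K3 k * X.dl σ k := by
      rw [abs_mul, mul_comm]
      exact mul_le_mul (w1 2) ((hB k ω).trans hd) (abs_nonneg _) x4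
    have z2 : |(al.1 k ((L k).p.π ω) - A k ω) * R| ≤ K3 k * X.dl σ k := by
      rw [abs_mul, mul_comm]
      exact mul_le_mul (w1 1) ((hA k ω).trans hd) (abs_nonneg _) x4
    refine (abs_sub _ _).trans ?_
    have z3 := abs_add_le ((be.1 k ((L k).p.π ω) - B k ω) * z) ((al.1 k ((L k).p.π ω) - A k ω) * R)
    have x5' : |(be.1 k ((L k).p.π ω) * z + al.1 k ((L k).p.π ω) * R) - (v0 k ω + v1 k ω * t + v2 k ω * y)| ≤
      K k * X.dl σ k := y1
    have z4 : 0 ≤ (2 * K0 k + 2) * X.dl σ k := mul_nonneg (by linarith) (X.dl_pos σ k).le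
    calc _ ≤ K k * X.dl σ k + (K3 k * X.dl σ k + K3 k * X.dl σ k) + (2 * K0 k + 2) * X.dl σ k := by linarith
      _ = (K k + (K3 k + K3 k) + (2 * K0 k + 2)) * X.dl σ k := by ring

/-- a sheet if `be` is small and `al` is a unit -/
theorem coreB (b : BA s c lam eta e he l ρ) (hcl : c ≤ lam) (h0 : 0 ≤ lam) (h1 : lam + e ≤ 1)
    {al be : TR X} (hal : TR.dg al 1 = ⊥) (hbe : TR.dg be 1 = ⊥) (hu : QS.Nd al) {δ : ℝ} (hδ0 : 0 < δ) (hδ1 : δ ≤ 1)
    (hb : QS.mk be ∈ QS.Id X δ) {σ : ℝ} (hσ0 : 0 < σ) (hσ1 : σ ≤ 1)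
    (h : HH (SJ 1 {0, 1}) (pls b.s3 hal hbe) 0 σ) : HH (SJ 1 {0, 1}) s c (lam + e * min σ δ) := by
  have h' : HH (SJ 1 {0, 1}) (pls b.s3 hal hbe) 0 (min σ δ) := HH.mono _ h le_rfl (min_le_left _ _)
  have hm0 : 0 < min σ δ := lt_min hσ0 hδ0
  have hm1 : min σ δ ≤ 1 := (min_le_left _ _).trans hσ1
  have hmδ : min σ δ ≤ δ := min_le_right _ _
  generalize min σ δ = τ at h' hm0 hm1 hmδ
  obtain ⟨L, v0, v1, v2, A, B, K, hL, l0, l1, l2, lA', lB', b1, b2, bA, bB, hA, hB, hK, ht⟩ := b.exists_dat hal hbe h'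
  obtain ⟨G, lG, bG, hG⟩ := exists_inv hu lA' hA
  obtain ⟨KG, hKG, hG2⟩ := bG
  obtain ⟨K3, hK3, h3⟩ := b.s3.P.bd
  rw [QS.mk_mem_Id hδ1] at hb
  obtain ⟨E, Kb, hE, hKb, hbb⟩ := hb
  have hs : lam + e * τ ≤ 1 := by nlinarith
  refine b.tR (L2 := L) hcl (τ := τ) (by positivity) hs hL
    (fun k ω => G k ω * v0 k ω) (fun k ω => G k ω * v1 k ω) (fun k ω => G k ω * v2 k ω)
    (lG.mul l0) (lG.mul l1) (lG.mul l2)
    (Lbd.mul ⟨KG, hKG, hG2⟩ b1) (Lbd.mul ⟨KG, hKG, hG2⟩ b2)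
    (K := fun k => KG k * (K k + (Kb k * K3 k + K3 k))) (hKG.mul (hK.add ((hKb.mul hK3).add hK3))) ?_
  · refine ((ht.and hG).and (L.pj.typ hE)).mono ?_
    filter_upwards [hG2, h3, hKG.1, hK3.1, hKb.1, hbb] with k x1 x2 x3 x4 x4' x4'' ω hω x5
    obtain ⟨⟨x5, x6⟩, x7⟩ := x5
    have y1 := x1 ω hω
    have y0 := (L k).p.supp ω hω
    have y2 := x2 _ y0
    have y3 : |be.1 k ((L k).p.π ω) - 0| ≤ Kb k * X.dl δ k := x4'' _ y0 x7
    rw [sub_zero] at y3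
    set z := b.s3.P.v k ((L k).p.π ω) 2 with hz
    set R := b.s3.P.v k ((L k).p.π ω) 1 with hR
    set y := b.s3.P.v k ((L k).p.π ω) 0 with hy
    set t := b.s3.t.v k ((L k).p.π ω) 0 with htt
    have e1 : R - (G k ω * v0 k ω + G k ω * v1 k ω * t + G k ω * v2 k ω * y) =
        G k ω * (((be.1 k ((L k).p.π ω) * z + al.1 k ((L k).p.π ω) * R) - (v0 k ω + v1 k ω * t + v2 k ω * y)) -
          (be.1 k ((L k).p.π ω) * z + (al.1 k ((L k).p.π ω) - A k ω) * R)) := by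
      linear_combination (-R) * x6
    show |R - (G k ω * v0 k ω + G k ω * v1 k ω * t + G k ω * v2 k ω * y)| ≤
      KG k * (K k + (Kb k * K3 k + K3 k)) * X.dl τ k
    rw [e1, abs_mul, mul_assoc]
    refine mul_le_mul y1 ?_ (abs_nonneg _) x3
    have hd := X.dl_anti hm1 k
    have hd2 := X.dl_anti hmδ k
    have z1 : |be.1 k ((L k).p.π ω) * z| ≤ Kb k * K3 k * X.dl τ k := by
      rw [abs_mul]
      calc |be.1 k ((L k).p.π ω)| * |z| ≤ (Kb k * X.dl δ k) * K3 k :=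
            mul_le_mul y3 (y2 2) (abs_nonneg _) (mul_nonneg x4' (X.dl_pos δ k).le)
        _ ≤ (Kb k * X.dl τ k) * K3 k := mul_le_mul_of_nonneg_right (mul_le_mul_of_nonneg_left hd2 x4') x4
        _ = Kb k * K3 k * X.dl τ k := by ring
    have z2 : |(al.1 k ((L k).p.π ω) - A k ω) * R| ≤ K3 k * X.dl τ k := by
      rw [abs_mul, mul_comm]
      exact mul_le_mul (y2 1) ((hA k ω).trans hd) (abs_nonneg _) x4
    refine (abs_sub _ _).trans ?_
    have z3 := abs_add_le (be.1 k ((L k).p.π ω) * z) ((al.1 k ((L k).p.π ω) - A k ω) * R)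
    have x5' : |(be.1 k ((L k).p.π ω) * z + al.1 k ((L k).p.π ω) * R) - (v0 k ω + v1 k ω * t + v2 k ω * y)| ≤
      K k * X.dl τ k := x5
    calc _ ≤ K k * X.dl τ k + (Kb k * K3 k * X.dl τ k + K3 k * X.dl τ k) := by linarith
      _ = (K k + (Kb k * K3 k + K3 k)) * X.dl τ k := by ring

end BA

end

end Pool.Agent.Helper93.H4
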