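import Pool.Agent.Helper93.H4.Alg
import Pool.Agent.Helper39.LIP.Rav
import Pool.Agent.Helper91.GR.Def
import Pool.Agent.Helper31.EC.Ring

/-! Planar systems without information in the window `0`: the direction `y` of the forms is not steeper than the
direction `p`, if `y` is full. (H4) -/

set_option autoImplicit false

namespace Pool.Agent.Helper93.H4

open Finset Filter Topology Matrix Pool.Agent.Helper69.RK Pool.Agent.Helper31.EC Pool.Agent.Helper40.EL
open Pool.Agent.Helper31.EC.Sp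
open Pool.Agent.Helper89.LX Pool.Agent.Helper3.LF Pool.Agent.Helper48.NS
open Pool.Agent.Helper39.LIP Pool.Agent.Helper93.LIP
open Pool.Agent.Helper95.LF (PdM)

noncomputable section

variable {S : Sp} {m : ℕ}

/-- labels without information do not change conditional entropies -/
theorem up_free {l : Lab S} {A B : Part S} (hl : l.DM A B) (hA : A.Bd) (hi : l.info ≤ 0) (x y : S.L) :
    h (up1 l x) (up1 l y) = h x y := by
  have hU : UB (fun k => (l k).info / (S.F k).n) := hl.ub hA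
  have h0 : 0 ≤ l.info := ge_of_tendsto (ul_tendsto hU)
    (Eventually.of_forall fun k => div_nonneg (FLab.info_nonneg _) (S.F k).pos.le)
  have h1 : Nul S (fun k => (l k).info) := by
    have h2 := ul_tendsto hU
    have h3 : ul (fun k => (l k).info / (S.F k).n) = 0 := le_antisymm hi h0
    rwa [h3] at h2
  have h2 : Nul S (fun k => (l k).leak (rp (⊥ : S.L) k)) := by
    apply h1.of_le (Eventually.of_forall fun _ => FLab.leak_nonneg _ _)
    refine Eventually.of_forall fun k => ?_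
    have h3 := (l k).leak_le_leak (rp (⊥ : S.L) k) ⊥
    have h4 : h (⊥ : FL (S.F k)) (rp (⊥ : S.L) k) = 0 := (h_eq_zero_iff).mpr bot_le
    rw [FLab.leak_bot, h4, add_zero] at h3
    exact h3
  have h3 := Lab.h_upL_of_leak 1 one_pos (x := x) h2 (bot_le : (⊥ : S.L) ≤ y)
  rw [div_one] at h3
  exact h3

variable {Y : Sp}

/-- the first coordinate, as a vector -/
def yv (s : Sys Y 2) : Y.VV 1 := TR.vec fun _ => TR.cor s.P 0

theorem y_null (s : Sys Y 2)
    (hcon : ∀ (T : Sp) (p : Pj T Y) (E : ∀ k, (T.F k).Ω → Prop) (hE : 0 < ul (T.pr E)), ic (s.im p E hE) 0 ≤ 0)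
    (hy : ∀ (T : Sp) (p : Pj T Y) (E : ∀ k, (T.F k).Ω → Prop) (hE : 0 < ul (T.pr E)),
      1 ≤ h (TR.dg (TR.cor (s.im p E hE).P 0) 1) (s.im p E hE).T)
    {x : ∀ k, FD (Y.F k) (Mon (2 + 1) 1)} (hx : (gau s 1).Ad (cA s 0) (cB s) x) {lam kap : ℝ} (hl : 0 < lam)
    (hk : 0 < kap) : ¬ 0 < ul (fun k => (x k).l.T.pb (fun ω => 2 ^ (lam * (Y.F k).n) ≤ qf ((x k).g ω) (ge 0) ∧
      2 ^ (2 * kap * (Y.F k).n) * qf ((x k).g ω) (ge 1) ≤ qf ((x k).g ω) (ge 0))) := by
  intro hE0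
  set E : ∀ k, ((lb x).sp.F k).Ω → Prop := fun k ω => 2 ^ (lam * (Y.F k).n) ≤ qf ((x k).g ω) (ge 0) ∧
      2 ^ (2 * kap * (Y.F k).n) * qf ((x k).g ω) (ge 1) ≤ qf ((x k).g ω) (ge 0) with hEd
  have hE : 0 < ul ((lb x).sp.pr E) := hE0
  set s' := s.im (lb x).pj E hE with hs'
  set x' : ∀ k, FD ((Sp.im (lb x).pj E).F k) (Mon (2 + 1) 1) := fun k => reFD (x k) (E k) with hx'd
  have hx' : (gau s' 1).Ad (cA s' 0) (cB s') x' := reFD_Ad s hx E hE
  set l' := lb x' with hl'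
  have hdm : DMc s' 0 l' := Gau.Ad.dm (gau s' 1) hx'
  have hi : l'.info ≤ 0 := by
    have h1 := info_le_ic hdm
    have h2 := hcon (lb x).sp (lb x).pj E hE
    rw [add_zero] at h1
    exact h1.trans h2
  -- the form is bounded
  obtain ⟨K1, hK1, ht1⟩ := Pool.Agent.Helper59.EV.Ad_typ hx'
  obtain ⟨K2, hK2, hb2⟩ := ptf_bd s'
  set κ : ℝ := min kap (lam / 2) with hκ
  have hκ0 : 0 < κ := lt_min hk (by linarith)
  have hκ1 : κ ≤ kap := min_le_left _ _
  have hκ2 : 2 * κ ≤ lam := by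
    have := min_le_right kap (lam / 2)
    linarith
  have claim : (Pool.Agent.Helper52.SL.cv l' (yv s')).dg κ ≤ (Pool.Agent.Helper52.SL.cv l' s'.t).dg 1 := by
    have hsub : (l'.ovr 1 one_pos).Sub (fun k => 72 * K1 k + 16 * (K2 k * K2 k) + 1) := by
      have h1 : (Sp.im (lb x).pj E).Sub (fun k => 72 * K1 k + 16 * (K2 k * K2 k) + 1) :=
        (((Sp.Sub_const _ (by norm_num)).mul hK1).add ((Sp.Sub_const _ (by norm_num)).mul (hK2.mul hK2))).add
          (Sp.Sub_const _ zero_le_one)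
      exact chg_sub l'.V 1 one_pos ((sp_Sub l').mpr h1)
    refine VV.dg_le_dg _ _ _ _ (fun k ω => sph s' 1 k ((x' k).l.p.π ω) ((x' k).g ω) ≤ K1 k) ht1
      (fun k => 72 * K1 k + 16 * (K2 k * K2 k) + 1) hsub ?_
    filter_upwards [hb2, hK1.1, hK2.1, hx' 1 one_pos, eventually_gt_of_lt_ul (Sp.UB_pr E) hE] with k hb hk1 hk2 had
      hpr ω ω' hω hω' e1 e2 hZ hc i
    have hn := (Y.F k).pos
    have hω1 : (x' k).l.T.μ ω ≠ 0 := hω
    have hω1' : (x' k).l.T.μ ω' ≠ 0 := hω'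
    have hpd : PdM ((x' k).g ω) := (had.2.2.1 ω hω1).1.pdM
    have hgg : (x' k).g ω = (x' k).g ω' := ((x' k).meas ω ω' hω1 hω1' hZ.1 hZ.2).1
    have hEω : E k ω := ((x k).l.T.rest_supp (E k) ω hω1).2 (ne_of_gt hpr)
    have hdl : (l'.ovr 1 one_pos).dl 1 k = Y.dl 1 k := by
      have h1 := chg_dl (S := l'.sp) l'.V 1 one_pos 1 k
      rw [mul_one] at h1
      exact h1.trans (sp_dl l' 1 k)
    have hdlk : (l'.ovr 1 one_pos).dl κ k = Y.dl κ k := by
      have h1 := chg_dl (S := l'.sp) l'.V 1 one_pos κ k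
      rw [one_mul] at h1
      exact h1.trans (sp_dl l' κ k)
    set A := (x' k).g ω with hA
    have hEω1 : 2 ^ (lam * (Y.F k).n) ≤ qf A (ge 0) := hEω.1
    have hEω2 : 2 ^ (2 * kap * (Y.F k).n) * qf A (ge 1) ≤ qf A (ge 0) := hEω.2
    set p := ptf s' k ((x' k).l.p.π ω) with hp
    set p' := ptf s' k ((x' k).l.p.π ω') with hp'
    have g1 : phi (Y.dl 1 k) A p ≤ K1 k := e1
    have g2 : phi (Y.dl 1 k) A p' ≤ K1 k := by
      have g3 : phi (Y.dl 1 k) ((x' k).g ω') p' ≤ K1 k := e2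
      rw [hgg]
      exact g3
    have hci : |p 0 - p' 0| ≤ Y.dl 1 k := by
      have h1 := hc 0
      rw [hdl] at h1
      exact h1
    have hpb : ∀ j, |p j| ≤ K2 k := hb _ ((x' k).l.p.supp ω hω1)
    have hpb' : ∀ j, |p' j| ≤ K2 k := hb _ ((x' k).l.p.supp ω' hω1')
    have h2K : |p 2 - p' 2| ≤ 2 * K2 k := by
      refine (abs_sub _ _).trans ?_
      have := hpb 2
      have := hpb' 2
      linarith
    have h3 := two_pts (fun v => hpd.nonneg v) g1 g2 hci h2K
    -- conclusion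
    have ha : 0 < qf A (ge 0) := lt_of_lt_of_le (by positivity) hEω1
    have hdk2 : (Y.dl κ k) ^ 2 = 2 ^ (-(2 * κ * (Y.F k).n)) := by
      unfold Sp.dl
      rw [← Real.rpow_natCast, ← Real.rpow_mul (by norm_num)]
      congr 1
      push_cast
      ring
    have h4 : K1 k ≤ K1 k * (Y.dl κ k) ^ 2 * qf A (ge 0) := by
      rw [hdk2, mul_assoc]
      apply le_mul_of_one_le_right hk1
      have h5 : (1 : ℝ) ≤ 2 ^ (-(2 * κ * (Y.F k).n)) * 2 ^ (lam * (Y.F k).n) := by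
        rw [← Real.rpow_add (by norm_num)]
        apply Real.one_le_rpow (by norm_num)
        nlinarith
      exact h5.trans (mul_le_mul_of_nonneg_left hEω1 (by positivity))
    have h6 : qf A (ge 1) ≤ (Y.dl κ k) ^ 2 * qf A (ge 0) := by
      have h7 : qf A (ge 1) = 2 ^ (-(2 * kap * (Y.F k).n)) * (2 ^ (2 * kap * (Y.F k).n) * qf A (ge 1)) := by
        rw [← mul_assoc, ← Real.rpow_add (by norm_num), neg_add_cancel, Real.rpow_zero, one_mul]
      rw [h7]
      refine (mul_le_mul_of_nonneg_left hEω2 (by positivity)).trans ?_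
      apply mul_le_mul_of_nonneg_right _ ha.le
      rw [hdk2]
      apply Real.rpow_le_rpow_of_exponent_le (by norm_num)
      nlinarith
    have h8 : (p 1 - p' 1) ^ 2 ≤ (72 * K1 k + 16 * (K2 k * K2 k)) * (Y.dl κ k) ^ 2 := by
      have h9 : (p 1 - p' 1) ^ 2 * qf A (ge 0) ≤
          ((72 * K1 k + 16 * (K2 k * K2 k)) * (Y.dl κ k) ^ 2) * qf A (ge 0) := by
        have h10 : 4 * ((2 * K2 k) ^ 2 * qf A (ge 1)) ≤ 4 * ((2 * K2 k) ^ 2 * ((Y.dl κ k) ^ 2 * qf A (ge 0))) :=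
          mul_le_mul_of_nonneg_left (mul_le_mul_of_nonneg_left h6 (by positivity)) (by norm_num)
        nlinarith [h3, h4, h10]
      exact le_of_mul_le_mul_right h9 ha
    have h11 : (p 1 - p' 1) ^ 2 ≤ ((72 * K1 k + 16 * (K2 k * K2 k) + 1) * Y.dl κ k) ^ 2 := by
      refine h8.trans ?_
      rw [mul_pow]
      apply mul_le_mul_of_nonneg_right _ (by positivity)
      have h12 : 0 ≤ 72 * K1 k + 16 * (K2 k * K2 k) := by positivity
      nlinarith
    have h13 := abs_le_of_sq_le_sq h11 (by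
      have := Y.dl_pos κ k
      positivity)
    rw [hdlk]
    rw [Subsingleton.elim i 0]
    exact h13
  -- conclusion
  have h1 := hy (lb x).sp (lb x).pj E hE
  have h2 : h (up1 l' ((yv s').dg 1)) (up1 l' s'.T) = h ((yv s').dg 1) s'.T := up_free hdm (cA_Bd s' 0) hi _ _
  have h3 : (Pool.Agent.Helper52.SL.cv l' s'.t).dg 1 = up1 l' s'.T := Pool.Agent.Helper52.SL.cv_dg l' s'.t 1
  have h4 : (Pool.Agent.Helper52.SL.cv l' (yv s')).dg 1 = up1 l' ((yv s').dg 1) := Pool.Agent.Helper52.SL.cv_dg l' (yv s') 1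
  rw [← h3, ← h4] at h2
  have hκle : κ ≤ 1 ∨ 1 < κ := le_or_gt κ 1
  have h5 : 1 ≤ h ((Pool.Agent.Helper52.SL.cv l' (yv s')).dg 1) ((Pool.Agent.Helper52.SL.cv l' s'.t).dg 1) := by
    rw [h2]
    exact h1
  have h6 := h5.trans (h_anti claim)
  rcases hκle with h7 | h7
  · have h8 := (Pool.Agent.Helper52.SL.cv l' (yv s')).h_dg_dg h7
    rw [Nat.cast_one, one_mul] at h8
    linarith
  · have h8 : h ((Pool.Agent.Helper52.SL.cv l' (yv s')).dg 1) ((Pool.Agent.Helper52.SL.cv l' (yv s')).dg κ) = 0 :=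
      (h_eq_zero_iff).mpr (VV.dg_mono _ h7.le)
    linarith

end

end Pool.Agent.Helper93.H4
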