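import Pool.Agent.Helper93.H4.Bxs
import Pool.Agent.Helper42.NS.Deg

/-! FULLNESS OF THE PROJECTIONS of the box coordinates of a window, on events of extensions; levels; pairs `al, be`
which do not generate the unit ideal. (H4) -/

set_option autoImplicit false

namespace Pool.Agent.Helper93.H4

open Finset Filter Topology Pool.Agent.Helper69.RK Pool.Agent.Helper31.EC Pool.Agent.Helper31.EC.Sp
open Pool.Agent.Helper40.EL Pool.Agent.Helper42.NS Pool.Agent.Helper91.GR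
open Pool.Agent.Helper98.FR Pool.Agent.Helper89.LX
open Pool.Agent.Helper60.CS (Slow.RobGe trc)
open Pool.Agent.Helper59.EV (ST)

noncomputable section

/-! ### closeness at two levels -/

theorem dg_le_vec {X : Sp} {m : ℕ} (f : TR X) (r s : ℝ) (W : X.VV m) (E : ∀ k, (X.F k).Ω → Prop) (hE : Typ E)
    (K : ℕ → ℝ) (hK : X.Sub K) (hh : ∀ᶠ k in UF, ∀ ω ω', (X.F k).μ ω ≠ 0 → (X.F k).μ ω' ≠ 0 → E k ω → E k ω' →
      (X.F k).Z ω ω' → (∀ i, |W.v k ω i - W.v k ω' i| ≤ X.dl s k) → |TR.ev f k ω - TR.ev f k ω'| ≤ K k * X.dl r k) :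
    TR.dg f r ≤ W.dg s := by
  have h1 : cl (W.bdd s).toInf = W.dg s := (io_eq _).symm
  rw [← h1]
  apply TR.dg_le_cl f r _ E hE K hK
  filter_upwards [hh] with k hk ω ω' a b c d g g'
  apply hk ω ω' a b c d g
  intro i
  have h2 : W.cellv s k ω = W.cellv s k ω' := g'
  exact abs_sub_le_of_floor_eq (X.dl_pos s k) (congrFun h2 i)

/-- three functions -/
theorem dg_le_three {X : Sp} (f g1 g2 g3 : TR X) (r s : ℝ) (E : ∀ k, (X.F k).Ω → Prop) (hE : Typ E)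
    (K : ℕ → ℝ) (hK : X.Sub K) (hh : ∀ᶠ k in UF, ∀ ω ω', (X.F k).μ ω ≠ 0 → (X.F k).μ ω' ≠ 0 → E k ω → E k ω' →
      (X.F k).Z ω ω' → |g1.1 k ω - g1.1 k ω'| ≤ X.dl s k → |g2.1 k ω - g2.1 k ω'| ≤ X.dl s k →
      |g3.1 k ω - g3.1 k ω'| ≤ X.dl s k → |f.1 k ω - f.1 k ω'| ≤ K k * X.dl r k) :
    TR.dg f r ≤ TR.dg g1 s ⊔ (TR.dg g2 s ⊔ TR.dg g3 s) := by
  have h1 : TR.dg f r ≤ (TR.vec ![g1, g2, g3]).dg s := by
    apply dg_le_vec f r s _ E hE K hK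
    filter_upwards [hh] with k hk ω ω' a b c d g g'
    exact hk ω ω' a b c d g (g' 0) (g' 1) (g' 2)
  refine h1.trans ?_
  apply TR.vec_dg_le
  intro i
  fin_cases i
  · exact le_sup_left
  · exact le_sup_left.trans le_sup_right
  · exact le_sup_right.trans le_sup_right

/-! ### the window -/

/-- forms of degree 1 have depth at most `eta s D c` on all events of all extensions -/
theorem Mxx_eta {S : Sp} {m D : ℕ} {s : Sys S m} (hR : RobH s) (hD : 1 ≤ D) {c τ₀ : ℝ}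
    (h : Pool.Agent.Helper3.LF.eta s D c ≤ τ₀) : Mxx (GD m 1) c τ₀ s := by
  intro T p E hE τ hτ
  have h1 : Hf s 1 c τ := (hR.Hf_im p E hE).mp (Hf_of_HH hτ)
  exact (Pool.Agent.Helper3.LF.le_eta (Hf_deg hD h1)).trans h

variable {S : Sp} {s : Sys S 3} {q lam eta : ℕ → ℝ} {L : ℕ → Lab S} (b : Bx s q lam eta L) (i : ℕ) (e ηn δ : ℝ)

/-- the hypotheses at the window `i` -/
structure HW : Prop where
  st : ST 1 2
  d0 : 0 ≤ δ
  h0 : q i ≤ ηn
  h1 : ηn + e ≤ 1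
  h2 : lam i + e ≤ 1
  uf : Mxx (GD 3 1) (q i) (ηn + δ * e) s
  m1 : Mxx (SJ 1 {0, 1}) (q i) (lam i + δ * e) s

variable {b i e ηn δ} {he : 0 < e} {hη : ηn ≤ b.bd.eta i}

/-- FULLNESS OF THE PROJECTIONS at the window `i` -/
theorem HW.full (H : HW (lam := lam) (q := q) (s := s) i e ηn δ) {W : Sp} (p : Pj W (b.bd.Sj i e he))
    (E : ∀ k, (W.F k).Ω → Prop) (hE : 0 < ul (W.pr E)) {al be : QS (W.rest E)} (hal : QS.dg al 1 = ⊥)
    (hbe : QS.dg be 1 = ⊥) (hz : ∃ m n : QS (W.rest E), m * al + n * be = 1) :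
    1 - 32 * δ ≤ h (QS.dg (be * QS.rest E hE (p.qs (QS.mk (b.bd.zT i e he ηn hη))) +
      al * QS.rest E hE (p.qs (QS.mk (b.bd.RT i e he)))) 1)
      (restL E hE (p.map (QS.dg (QS.mk (b.bd.yT i e he)) 1 ⊔ QS.dg (QS.mk (b.bd.tT i e he)) 1))) := by
  obtain ⟨al, rfl⟩ := QS.mk_surj al
  obtain ⟨be, rfl⟩ := QS.mk_surj be
  rw [QS.dg_mk _ le_rfl] at hal hbe
  have k1 := ((baB b i e he hη H.h2 H.h1).sub p E hE).proj_full H.st (b.q0 i) (b.qlam i) H.h0 H.h1 H.h2 H.d0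
    (H.uf.im (xle (p.comp (rhoB b i e he))).pj E hE) (H.m1.im (xle (p.comp (rhoB b i e he))).pj E hE) hal hbe hz
  have e1 : QS.mk (TR.cor ((baB b i e he hη H.h2 H.h1).sub p E hE).s3.P 2) =
      QS.rest E hE (p.qs (QS.mk (b.bd.zT i e he ηn hη))) := by
    rw [← bsys_z b i e he hη H.h2 H.h1]
    rfl
  have e2 : QS.mk (TR.cor ((baB b i e he hη H.h2 H.h1).sub p E hE).s3.P 1) =
      QS.rest E hE (p.qs (QS.mk (b.bd.RT i e he))) := by
    rw [← bsys_R b i e he hη H.h2 H.h1]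
    rfl
  have e3 : QS.mk (TR.cor ((baB b i e he hη H.h2 H.h1).sub p E hE).s3.P 0) =
      QS.rest E hE (p.qs (QS.mk (b.bd.yT i e he))) := by
    rw [← bsys_y b i e he hη H.h2 H.h1]
    rfl
  have f1 : TR.dg (be * TR.cor ((baB b i e he hη H.h2 H.h1).sub p E hE).s3.P 2 +
      al * TR.cor ((baB b i e he hη H.h2 H.h1).sub p E hE).s3.P 1) 1 =
      QS.dg (QS.mk be * QS.rest E hE (p.qs (QS.mk (b.bd.zT i e he ηn hη))) +
      QS.mk al * QS.rest E hE (p.qs (QS.mk (b.bd.RT i e he)))) 1 := by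
    rw [← e1, ← e2, ← map_mul, ← map_mul, ← map_add, QS.dg_mk _ le_rfl]
  have f2 : TR.dg (TR.cor ((baB b i e he hη H.h2 H.h1).sub p E hE).s3.P 0) 1 =
      restL E hE (p.map (QS.dg (QS.mk (b.bd.yT i e he)) 1)) := by
    rw [← p.qs_dg, ← QS.rest_dg E hE, ← e3, QS.dg_mk _ le_rfl]
  have f3 : ((baB b i e he hη H.h2 H.h1).sub p E hE).s3.T =
      restL E hE (p.map (QS.dg (QS.mk (b.bd.tT i e he)) 1)) := by
    rw [← p.qs_dg, ← QS.rest_dg E hE, p.qs_mk, QS.rest_mk, QS.dg_mk _ le_rfl]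
    rfl
  rw [f1, f2, f3] at k1
  rw [p.map_sup, restL_sup]
  exact k1

/-- **H4**: the form used by helper80 (`H4P` with the error `32 δ`) -/
theorem HW.h4 (H : HW (lam := lam) (q := q) (s := s) i e ηn δ) (E : ∀ k, ((b.bd.Sj i e he).F k).Ω → Prop)
    (hE : 0 < ul ((b.bd.Sj i e he).pr E)) (al be : QS ((b.bd.Sj i e he).rest E)) (hal : QS.dg al 1 = ⊥)
    (hbe : QS.dg be 1 = ⊥) (hz : ∃ m n : QS ((b.bd.Sj i e he).rest E), m * al + n * be = 1) :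
    1 - 32 * δ ≤ h (QS.dg (be * QS.rest E hE (QS.mk (b.bd.zT i e he ηn hη)) +
      al * QS.rest E hE (QS.mk (b.bd.RT i e he))) 1)
      (QS.dg (QS.rest E hE (QS.mk (b.bd.tT i e he))) 1 ⊔ QS.dg (QS.rest E hE (QS.mk (b.bd.yT i e he))) 1) := by
  have h1 := H.full (b := b) (he := he) (hη := hη) (Pj.id (b.bd.Sj i e he)) E hE hal hbe hz
  have e1 : ∀ f : QS (b.bd.Sj i e he), (Pj.id (b.bd.Sj i e he)).qs f = f := by
    intro f
    obtain ⟨f, rfl⟩ := QS.mk_surj f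
    rw [Pj.qs_mk]
    rfl
  rw [e1, e1, Pj.id_map, restL_sup, sup_comm] at h1
  rw [QS.rest_dg E hE, QS.rest_dg E hE]
  exact h1

end

end Pool.Agent.Helper93.H4
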