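import Pool.Agent.Helper93.H4.Shr
import Pool.Agent.Helper19.TP.Ric

/-! THE PLANAR SYSTEM of the coordinates `t`, `y`, `be z + al R`. (H4, step B) -/

set_option autoImplicit false

namespace Pool.Agent.Helper93.H4

open Finset Filter Topology Pool.Agent.Helper69.RK Pool.Agent.Helper31.EC Pool.Agent.Helper31.EC.Sp
open Pool.Agent.Helper40.EL Pool.Agent.Helper42.NS Pool.Agent.Helper91.GR
open Pool.Agent.Helper52.KP hiding ic ic_nonneg

noncomputable section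

variable {X : Sp}

theorem known {al be f g : TR X} {A : X.L} (hal : TR.dg al 1 = ⊥) (hbe : TR.dg be 1 = ⊥) (hf : TR.dg f 1 ≤ A)
    (hg : TR.dg g 1 ≤ A) : TR.dg (be * f + al * g) 1 ≤ A := by
  have h1 : be ∈ TR.Kn X 1 A := TR.mem_Kn.mpr (hbe.le.trans _root_.bot_le)
  have h2 : al ∈ TR.Kn X 1 A := TR.mem_Kn.mpr (hal.le.trans _root_.bot_le)
  exact add_mem (mul_mem h1 (TR.mem_Kn.mpr hf)) (mul_mem h2 (TR.mem_Kn.mpr hg))

section

variable (s3 : Sys X 3) (al be : TR X)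

def pa : X.VV 2 := TR.vec ![TR.cor s3.a 0, be * TR.cor s3.a 2 + al * TR.cor s3.a 1]
def px : X.VV 2 := TR.vec ![TR.cor s3.x 0, be * TR.cor s3.x 2 + al * TR.cor s3.x 1]

variable {al be} (hal : TR.dg al 1 = ⊥) (hbe : TR.dg be 1 = ⊥)

include hal hbe

theorem pa_le : (pa s3 al be).dg 1 ≤ s3.a.dg 1 := by
  apply TR.vec_dg_le
  intro i
  fin_cases i
  · exact TR.cor_dg_le s3.a 0 1
  · exact known hal hbe (TR.cor_dg_le s3.a 2 1) (TR.cor_dg_le s3.a 1 1)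

theorem px_le : (px s3 al be).dg 1 ≤ s3.x.dg 1 := by
  apply TR.vec_dg_le
  intro i
  fin_cases i
  · exact TR.cor_dg_le s3.x 0 1
  · exact known hal hbe (TR.cor_dg_le s3.x 2 1) (TR.cor_dg_le s3.x 1 1)

/-- the planar system -/
def pls : Sys X 2 where
  a := pa s3 al be
  x := px s3 al be
  t := s3.t
  ht := by
    apply le_antisymm
    · have h1 := s3.t.H_dg_le zero_le_one
      have h2 := h_le_H (s3.t.dg 1) ((pa s3 al be).dg 1 ⊔ (px s3 al be).dg 1)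
      simp only [Nat.cast_one, one_mul] at h1
      linarith
    · have h1 : h (s3.t.dg 1) (s3.a.dg 1 ⊔ s3.x.dg 1) ≤ h (s3.t.dg 1) ((pa s3 al be).dg 1 ⊔ (px s3 al be).dg 1) :=
        h_anti (sup_le_sup (pa_le s3 hal hbe) (px_le s3 hal hbe))
      rw [s3.ht] at h1
      exact h1

end

section

variable (s3 : Sys X 3) {al be : TR X} (hal : TR.dg al 1 = ⊥) (hbe : TR.dg be 1 = ⊥)

theorem pls_xi : (pls s3 hal hbe).xi 1 ≤ s3.xi 1 := sup_le_sup (pa_le s3 hal hbe) (px_le s3 hal hbe)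

theorem pls_P0 (k : ℕ) (ω : (X.F k).Ω) : (pls s3 hal hbe).P.v k ω 0 = s3.P.v k ω 0 := rfl

theorem pls_P1 (k : ℕ) (ω : (X.F k).Ω) : (pls s3 hal hbe).P.v k ω 1 = be.1 k ω * s3.P.v k ω 2 + al.1 k ω * s3.P.v k ω 1 := by
  have e1 : (pls s3 hal hbe).P.v k ω 1 = (be.1 k ω * s3.a.v k ω 2 + al.1 k ω * s3.a.v k ω 1) + s3.t.v k ω 0 *
    (be.1 k ω * s3.x.v k ω 2 + al.1 k ω * s3.x.v k ω 1) := rfl
  have e2 : s3.P.v k ω 2 = s3.a.v k ω 2 + s3.t.v k ω 0 * s3.x.v k ω 2 := rfl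
  have e3 : s3.P.v k ω 1 = s3.a.v k ω 1 + s3.t.v k ω 0 * s3.x.v k ω 1 := rfl
  rw [e1, e2, e3]
  ring

theorem pls_cor0 : TR.cor (pls s3 hal hbe).P 0 = TR.cor s3.P 0 := rfl

theorem pls_cor1 : TR.cor (pls s3 hal hbe).P 1 = be * TR.cor s3.P 2 + al * TR.cor s3.P 1 := by
  apply Subtype.ext
  funext k ω
  exact pls_P1 s3 hal hbe k ω

theorem pls_P_le : (pls s3 hal hbe).P.dg 1 ≤ s3.P.dg 1 := by
  rw [TR.vv_dg_le_iff]
  intro i
  fin_cases i
  · show TR.dg (TR.cor (pls s3 hal hbe).P 0) 1 ≤ _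
    rw [pls_cor0]
    exact TR.cor_dg_le s3.P 0 1
  · show TR.dg (TR.cor (pls s3 hal hbe).P 1) 1 ≤ _
    rw [pls_cor1]
    exact known hal hbe (TR.cor_dg_le s3.P 2 1) (TR.cor_dg_le s3.P 1 1)

theorem pls_lB : lB (pls s3 hal hbe) ≤ lB s3 := sup_le_sup (pls_P_le s3 hal hbe) le_rfl

theorem pls_lA : lA (pls s3 hal hbe) 0 ≤ s3.xi 1 := by
  refine sup_le (pls_xi s3 hal hbe) ?_
  show s3.t.dg 0 ≤ _
  rw [s3.t.dg_nonpos le_rfl]
  exact _root_.bot_le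

end

/-! ### events of extensions -/

variable {T : Sp} (p : Pj T X) (E : ∀ k, (T.F k).Ω → Prop)

theorem rest_bot (hE : 0 < ul (T.pr E)) {f : TR X} (hf : TR.dg f 1 = ⊥) : TR.dg (TR.rest E (p.tr f)) 1 = ⊥ := by
  rw [TR.rest_dg E hE, p.tr_dg, hf, p.map_bot, restL_bot]

theorem sys_ext {Y : Sp} {m : ℕ} {s s' : Sys Y m} (ha : s.a = s'.a) (hx : s.x = s'.x) (ht : s.t = s'.t) : s = s' := by
  cases s
  cases s'
  cases ha
  cases hx
  cases ht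
  rfl

theorem vv_ext {Y : Sp} {m : ℕ} {y y' : Y.VV m} (h : y.v = y'.v) : y = y' := by
  cases y
  cases y'
  cases h
  rfl

theorem pls_sub (s3 : Sys X 3) {al be : TR X} (hal : TR.dg al 1 = ⊥) (hbe : TR.dg be 1 = ⊥) (hE : 0 < ul (T.pr E)) :
    ((pls s3 hal hbe).pull p).rest E hE =
      pls ((s3.pull p).rest E hE) (rest_bot p E hE hal) (rest_bot p E hE hbe) := by
  apply sys_ext
  · apply vv_ext
    funext k ω i
    fin_cases i <;> rfl
  · apply vv_ext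
    funext k ω i
    fin_cases i <;> rfl
  · rfl

end

end Pool.Agent.Helper93.H4
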