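import Pool.Agent.Helper93.H4.Ba

/-! SHEETS OF THE BOX COORDINATES are deeper sheets of the system. (H4, step B) -/

set_option autoImplicit false

namespace Pool.Agent.Helper93.H4

open Finset Filter Topology Pool.Agent.Helper69.RK Pool.Agent.Helper31.EC Pool.Agent.Helper31.EC.Sp
open Pool.Agent.Helper40.EL Pool.Agent.Helper42.NS Pool.Agent.Helper91.GR
open Pool.Agent.Helper3.LF (pl pl_zero pl_succ)
open Pool.Agent.Helper52.KP hiding ic ic_nonneg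

noncomputable section

variable {S X : Sp} {m : ℕ} {l : Lab S} {e : ℝ} {he : 0 < e}

theorem DM_p_iff {s : Sys S m} {c : ℝ} {l : Lab S} : l.DM (pA s c) (pB s) ↔ DMc s c l :=
  (DM_iff_DML s).trans DMc_iff.symm

section scale

variable (ρ : Pj X (l.ovr e he))

include ρ in
theorem X_n (k : ℕ) : (X.F k).n = e * (S.F k).n := (ρ.hn k).trans (l.n_over e he k)

include ρ in
theorem X_dl (r : ℝ) (k : ℕ) : X.dl r k = S.dl (e * r) k := by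
  unfold Sp.dl
  rw [X_n ρ k]
  congr 2
  ring

include ρ in
theorem X_sub {K : ℕ → ℝ} (hK : X.Sub K) : S.Sub K := by
  refine ⟨hK.1, ?_⟩
  have h1 := hK.2.const_mul e
  rw [mul_zero] at h1
  refine h1.congr fun k => ?_
  rw [X_n ρ k]
  have := (S.F k).pos
  field_simp

end scale

/-! ### literalness over the composite label -/

variable {ρ : Pj X (l.ovr e he)} {L2 : Lab X}

theorem cmp_lit {k : ℕ} {ω ω' : (L2 k).T.Ω} (h1 : (L2 k).T.μ ω ≠ 0) (h2 : (L2 k).T.μ ω' ≠ 0)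
    (hV : ((cmpL ρ L2) k).V ω ω') (hZ : ((cmpL ρ L2) k).T.Z ω ω') : (L2 k).V ω ω' ∧ (L2 k).T.Z ω ω' := by
  have a1 := (L2 k).p.supp ω h1
  have a2 := (L2 k).p.supp ω' h2
  have b1 := ρ.supp k _ a1
  have b2 := ρ.supp k _ a2
  have hV' : (l k).V (ρ.π k ((L2 k).p.π ω)) (ρ.π k ((L2 k).p.π ω')) ∧ (L2 k).V ω ω' := hV
  have hZ' : (S.F k).Z ((l k).p.π (ρ.π k ((L2 k).p.π ω))) ((l k).p.π (ρ.π k ((L2 k).p.π ω'))) := hZ
  refine ⟨hV'.2, ?_⟩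
  have h3 : (l k).T.Z (ρ.π k ((L2 k).p.π ω)) (ρ.π k ((L2 k).p.π ω')) := ((l k).p.hZ _ _ b1 b2).mpr hZ'
  have h4 : ((l.ovr e he).F k).Z (ρ.π k ((L2 k).p.π ω)) (ρ.π k ((L2 k).p.π ω')) := ⟨hV'.1, h3⟩
  exact ((L2 k).p.hZ _ _ h1 h2).mpr ((ρ.hZ k _ _ a1 a2).mpr h4)

/-- literal functions on the space of a label -/
def Ll (L : Lab X) (f : ∀ k, (L k).T.Ω → ℝ) : Prop := ∀ᶠ k in UF, ∀ ω ω', (L k).T.μ ω ≠ 0 → (L k).T.μ ω' ≠ 0 →
  (L k).V ω ω' → (L k).T.Z ω ω' → f k ω = f k ω'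

theorem Ll.of_Lz {f : TR X} (hf : Lz f) (L : Lab X) : Ll L (fun k ω => f.1 k ((L k).p.π ω)) := by
  filter_upwards [hf] with k hk ω ω' a b _ d
  exact hk _ _ ((L k).p.supp ω a) ((L k).p.supp ω' b) (((L k).p.hZ ω ω' a b).mp d)

/-- bounded functions on the space of a label -/
def Lbd (L : Lab X) (f : ∀ k, (L k).T.Ω → ℝ) : Prop := ∃ K : ℕ → ℝ, X.Sub K ∧ ∀ᶠ k in UF, ∀ ω, (L k).T.μ ω ≠ 0 →
  |f k ω| ≤ K k

theorem Lbd.of_TR (f : TR X) (L : Lab X) : Lbd L (fun k ω => f.1 k ((L k).p.π ω)) := by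
  obtain ⟨K, hK, h⟩ := f.2
  refine ⟨K, hK, ?_⟩
  filter_upwards [h] with k hk ω a
  exact hk _ ((L k).p.supp ω a)

theorem Lbd.add {L : Lab X} {f g : ∀ k, (L k).T.Ω → ℝ} (hf : Lbd L f) (hg : Lbd L g) :
    Lbd L (fun k ω => f k ω + g k ω) := by
  obtain ⟨K, hK, h⟩ := hf
  obtain ⟨K', hK', h'⟩ := hg
  refine ⟨_, hK.add hK', ?_⟩
  filter_upwards [h, h'] with k a b ω hω
  exact (abs_add_le _ _).trans (add_le_add (a ω hω) (b ω hω))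

theorem Lbd.mul {L : Lab X} {f g : ∀ k, (L k).T.Ω → ℝ} (hf : Lbd L f) (hg : Lbd L g) :
    Lbd L (fun k ω => f k ω * g k ω) := by
  obtain ⟨K, hK, h⟩ := hf
  obtain ⟨K', hK', h'⟩ := hg
  refine ⟨_, hK.mul hK', ?_⟩
  filter_upwards [h, h', hK.1] with k a b c ω hω
  rw [abs_mul]
  exact mul_le_mul (a ω hω) (b ω hω) (abs_nonneg _) c

theorem Lbd.neg {L : Lab X} {f : ∀ k, (L k).T.Ω → ℝ} (hf : Lbd L f) : Lbd L (fun k ω => -f k ω) := by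
  obtain ⟨K, hK, h⟩ := hf
  refine ⟨_, hK, ?_⟩
  filter_upwards [h] with k a ω hω
  rw [abs_neg]
  exact a ω hω

theorem Lbd.zero {L : Lab X} : Lbd L (fun _ _ => 0) := ⟨fun _ => 0, X.Sub_const le_rfl,
  Eventually.of_forall fun _ _ _ => by simp⟩

theorem Lbd.const {L : Lab X} (a : ℕ → ℝ) (h0 : ∀ k, 0 ≤ a k) (h1 : ∀ k, a k ≤ 1) : Lbd L (fun k _ => a k) :=
  ⟨fun _ => 1, X.Sub_const zero_le_one, Eventually.of_forall fun k _ _ => by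
    rw [abs_of_nonneg (h0 k)]
    exact h1 k⟩

/-- SHEETS from affine relations with literal bounded slopes -/
theorem Sht_mk {s : Sys S 3} {i : Fin 3} {J : Finset (Fin 4)} {τ : ℝ} (g0 : ∀ k, (L2 k).T.Ω → ℝ)
    (g : Fin 4 → ∀ k, (L2 k).T.Ω → ℝ) (h0 : Ll L2 g0) (hl : ∀ j, Ll L2 (g j)) (hb : ∀ j, Lbd L2 (g j))
    {K : ℕ → ℝ} (hK : X.Sub K) (ht : Typ (S := L2.sp) (fun k (ω : (L2 k).T.Ω) =>
      |s.P.v k (ptl ρ k ((L2 k).p.π ω)) i - (g0 k ω + ∑ j ∈ J, g j k ω *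
        pl (s.a.v k (ptl ρ k ((L2 k).p.π ω))) (s.x.v k (ptl ρ k ((L2 k).p.π ω))) (s.t.v k (ptl ρ k ((L2 k).p.π ω)) 0) j)| ≤
        K k * S.dl τ k)) : ∃ v, Sht s i J τ (cmpL ρ L2) v := by
  classical
  have hl' : ∀ᶠ k in UF, ∀ ω ω', (L2 k).T.μ ω ≠ 0 → (L2 k).T.μ ω' ≠ 0 → (L2 k).V ω ω' → (L2 k).T.Z ω ω' →
      g0 k ω = g0 k ω' ∧ ∀ j, g j k ω = g j k ω' := by
    have h2 : ∀ᶠ k in UF, ∀ j, ∀ ω ω', (L2 k).T.μ ω ≠ 0 → (L2 k).T.μ ω' ≠ 0 → (L2 k).V ω ω' → (L2 k).T.Z ω ω' →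
      g j k ω = g j k ω' := eventually_all.mpr hl
    filter_upwards [h0, h2] with k a b ω ω' x1 x2 x3 x4 using ⟨a ω ω' x1 x2 x3 x4, fun j => b j ω ω' x1 x2 x3 x4⟩
  have hbK : ∃ K' : ℕ → ℝ, S.Sub K' ∧ ∀ᶠ k in UF, K k ≤ K' k ∧ ∀ ω, (L2 k).T.μ ω ≠ 0 → ∀ j, |g j k ω| ≤ K' k := by
    choose Kj hKj hgj using hb
    refine ⟨fun k => K k + (Kj 0 k + Kj 1 k + Kj 2 k + Kj 3 k), X_sub ρ (hK.add ((((hKj 0).add (hKj 1)).add
      (hKj 2)).add (hKj 3))), ?_⟩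
    filter_upwards [hK.1, (hKj 0).1, (hKj 1).1, (hKj 2).1, (hKj 3).1, eventually_all.mpr hgj] with k a0 a1 a2 a3 a4 a5
    refine ⟨by linarith, fun ω hω j => (a5 j ω hω).trans ?_⟩
    fin_cases j
    · show Kj 0 k ≤ _
      linarith
    · show Kj 1 k ≤ _
      linarith
    · show Kj 2 k ≤ _
      linarith
    · show Kj 3 k ≤ _
      linarith
  obtain ⟨K', hK', hbd⟩ := hbK
  set P : ℕ → Prop := fun k => ∀ ω ω', (L2 k).T.μ ω ≠ 0 → (L2 k).T.μ ω' ≠ 0 → (L2 k).V ω ω' → (L2 k).T.Z ω ω' →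
      g0 k ω = g0 k ω' ∧ ∀ j, g j k ω = g j k ω' with hP
  refine ⟨fun k (ω : (L2 k).T.Ω) => if P k then (g0 k ω, fun j => g j k ω) else (0, 0), ?_, K', hK', ?_, ?_⟩
  · intro k ω ω' a b c d
    have h1 := cmp_lit (ρ := ρ) a b c d
    by_cases hk : P k
    · show (if P k then ((g0 k ω, fun j => g j k ω) : Cf 4) else (0, 0)) =
        (if P k then ((g0 k ω', fun j => g j k ω') : Cf 4) else (0, 0))
      rw [if_pos hk, if_pos hk]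
      have h2 := hk ω ω' a b h1.1 h1.2
      rw [h2.1]
      congr 1
      funext j
      exact h2.2 j
    · show (if P k then ((g0 k ω, fun j => g j k ω) : Cf 4) else (0, 0)) =
        (if P k then ((g0 k ω', fun j => g j k ω') : Cf 4) else (0, 0))
      rw [if_neg hk, if_neg hk]
  · filter_upwards [hl', hbd] with k hk h2 ω hω j
    have hk' : P k := hk
    show |(if P k then ((g0 k ω, fun j => g j k ω) : Cf 4) else (0, 0)).2 j| ≤ K' k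
    rw [if_pos hk']
    exact h2.2 ω hω j
  · have h3 : Typ (S := L2.sp) (fun k (ω : (L2 k).T.Ω) =>
        |dfl s i J (cmpL ρ L2) (fun k (ω : (L2 k).T.Ω) => if P k then (g0 k ω, fun j => g j k ω) else (0, 0)) k ω| ≤
          K' k * S.dl τ k) := by
      refine ht.mono ?_
      filter_upwards [hl', hbd] with k hk h2 ω _ h4
      have hk' : P k := hk
      show |df i J (if P k then ((g0 k ω, fun j => g j k ω) : Cf 4) else (0, 0)) _ _ _| ≤ K' k * S.dl τ k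
      rw [if_pos hk']
      refine le_trans (le_of_eq ?_) (h4.trans (mul_le_mul_of_nonneg_right h2.1 (S.dl_pos τ k).le))
      rfl
    exact h3

theorem Ll.add {L : Lab X} {f g : ∀ k, (L k).T.Ω → ℝ} (hf : Ll L f) (hg : Ll L g) : Ll L (fun k ω => f k ω + g k ω) := by
  filter_upwards [hf, hg] with k a b ω ω' x1 x2 x3 x4
  rw [a ω ω' x1 x2 x3 x4, b ω ω' x1 x2 x3 x4]

theorem Ll.mul {L : Lab X} {f g : ∀ k, (L k).T.Ω → ℝ} (hf : Ll L f) (hg : Ll L g) : Ll L (fun k ω => f k ω * g k ω) := by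
  filter_upwards [hf, hg] with k a b ω ω' x1 x2 x3 x4
  rw [a ω ω' x1 x2 x3 x4, b ω ω' x1 x2 x3 x4]

theorem Ll.neg {L : Lab X} {f : ∀ k, (L k).T.Ω → ℝ} (hf : Ll L f) : Ll L (fun k ω => -f k ω) := by
  filter_upwards [hf] with k a ω ω' x1 x2 x3 x4
  rw [a ω ω' x1 x2 x3 x4]

theorem Ll.const {L : Lab X} (a : ℕ → ℝ) : Ll L (fun k _ => a k) := Eventually.of_forall fun _ _ _ _ _ _ _ => rfl

/-- ratios of scales -/
theorem dl_ratio {a b : ℝ} (h : a ≤ b) : ∃ r : ℕ → ℝ, (∀ k, 0 ≤ r k) ∧ (∀ k, r k ≤ 1) ∧ ∀ k, S.dl b k = r k * S.dl a k := by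
  refine ⟨fun k => S.dl (b - a) k, fun k => (S.dl_pos _ k).le, fun k => ?_, fun k => ?_⟩
  · have h1 := S.dl_anti (show (0 : ℝ) ≤ b - a by linarith) k
    rw [S.dl_zero] at h1
    exact h1
  · rw [← S.dl_add]
    congr 1
    ring

namespace BA

variable {s : Sys S 3} {c lam eta : ℝ}

/-- SHEETS OF `R` -/
theorem tR (b : BA s c lam eta e he l ρ) (hce : c ≤ lam) {τ : ℝ} (h0 : 0 ≤ lam + e * τ) (h1 : lam + e * τ ≤ 1)
    (hL : DMc s c (cmpL ρ L2)) (k0 kt ky : ∀ k, (L2 k).T.Ω → ℝ) (l0 : Ll L2 k0) (lt : Ll L2 kt) (ly : Ll L2 ky)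
    (bt : Lbd L2 kt) (by' : Lbd L2 ky) {K : ℕ → ℝ} (hK : X.Sub K)
    (ht : Typ (S := L2.sp) (fun k (ω : (L2 k).T.Ω) => |b.s3.P.v k ((L2 k).p.π ω) 1 - (k0 k ω +
      kt k ω * b.s3.t.v k ((L2 k).p.π ω) 0 + ky k ω * b.s3.P.v k ((L2 k).p.π ω) 0)| ≤ K k * X.dl τ k)) :
    HH (SJ 1 {0, 1}) s c (lam + e * τ) := by
  obtain ⟨a, ha0, ha1, hab⟩ := dl_ratio (S := S) hce
  have key : ∃ v, Sht s 1 {0, 1} (lam + e * τ) (cmpL ρ L2) v := by
    refine Sht_mk (s := s) (i := 1) (J := {0, 1}) (K := K)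
      (fun k ω => (b.r 0).1 k ((L2 k).p.π ω) + (S.dl lam k * k0 k ω + (-(a k * (kt k ω * b.tc.1 k ((L2 k).p.π ω))) +
        -(a k * (ky k ω * b.yc.1 k ((L2 k).p.π ω))))))
      ![fun k ω => (b.r 1).1 k ((L2 k).p.π ω) + a k * kt k ω, fun k ω => (b.r 2).1 k ((L2 k).p.π ω) + a k * ky k ω,
        fun _ _ => 0, fun _ _ => 0] ?_ ?_ ?_ hK ?_
    · exact (Ll.of_Lz (b.lr 0) L2).add (((Ll.const _).mul l0).add
        (((Ll.const a).mul (lt.mul (Ll.of_Lz b.ltc L2))).neg.add ((Ll.const a).mul (ly.mul (Ll.of_Lz b.lyc L2))).neg))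
    · intro j
      fin_cases j
      · exact (Ll.of_Lz (b.lr 1) L2).add ((Ll.const a).mul lt)
      · exact (Ll.of_Lz (b.lr 2) L2).add ((Ll.const a).mul ly)
      · exact Ll.const _
      · exact Ll.const _
    · intro j
      fin_cases j
      · exact (Lbd.of_TR (b.r 1) L2).add ((Lbd.const a ha0 ha1).mul bt)
      · exact (Lbd.of_TR (b.r 2) L2).add ((Lbd.const a ha0 ha1).mul by')
      · exact Lbd.zero
      · exact Lbd.zero
    · have e1 := L2.pj.typ b.et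
      have e2 := L2.pj.typ b.ey
      have e3 := L2.pj.typ b.eR
      refine (((ht.and e1).and e2).and e3).mono ?_
      refine Eventually.of_forall fun k ω _ h => ?_
      obtain ⟨⟨⟨h4, h5⟩, h6⟩, h7⟩ := h
      have h5' : s.t.v k (ptl ρ k ((L2 k).p.π ω)) 0 = b.tc.1 k ((L2 k).p.π ω) + S.dl c k * b.s3.t.v k ((L2 k).p.π ω) 0 := h5
      have h6' : s.P.v k (ptl ρ k ((L2 k).p.π ω)) 0 = b.yc.1 k ((L2 k).p.π ω) + S.dl c k * b.s3.P.v k ((L2 k).p.π ω) 0 := h6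
      have h7' : s.P.v k (ptl ρ k ((L2 k).p.π ω)) 1 = (b.r 0).1 k ((L2 k).p.π ω) +
        (b.r 1).1 k ((L2 k).p.π ω) * s.t.v k (ptl ρ k ((L2 k).p.π ω)) 0 +
        (b.r 2).1 k ((L2 k).p.π ω) * s.P.v k (ptl ρ k ((L2 k).p.π ω)) 0 + S.dl lam k * b.s3.P.v k ((L2 k).p.π ω) 1 := h7
      have e4 : s.P.v k (ptl ρ k ((L2 k).p.π ω)) 0 = s.a.v k (ptl ρ k ((L2 k).p.π ω)) 0 +
        s.t.v k (ptl ρ k ((L2 k).p.π ω)) 0 * s.x.v k (ptl ρ k ((L2 k).p.π ω)) 0 := rfl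
      rw [Finset.sum_insert (by decide), Finset.sum_singleton, pl_zero,
        show (1 : Fin 4) = Fin.succ (0 : Fin 3) from rfl, pl_succ, ← e4]
      have e5 : s.P.v k (ptl ρ k ((L2 k).p.π ω)) 1 - ((b.r 0).1 k ((L2 k).p.π ω) + (S.dl lam k * k0 k ω +
          (-(a k * (kt k ω * b.tc.1 k ((L2 k).p.π ω))) + -(a k * (ky k ω * b.yc.1 k ((L2 k).p.π ω))))) +
          (((b.r 1).1 k ((L2 k).p.π ω) + a k * kt k ω) * s.t.v k (ptl ρ k ((L2 k).p.π ω)) 0 +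
          ((b.r 2).1 k ((L2 k).p.π ω) + a k * ky k ω) * s.P.v k (ptl ρ k ((L2 k).p.π ω)) 0)) =
          S.dl lam k * (b.s3.P.v k ((L2 k).p.π ω) 1 - (k0 k ω + kt k ω * b.s3.t.v k ((L2 k).p.π ω) 0 +
            ky k ω * b.s3.P.v k ((L2 k).p.π ω) 0)) := by
        rw [h7', h5', h6', hab k]
        ring
      refine le_trans (le_of_eq (congrArg abs e5)) ?_
      rw [abs_mul, abs_of_pos (S.dl_pos lam k), S.dl_add, ← X_dl ρ]
      calc S.dl lam k * |b.s3.P.v k ((L2 k).p.π ω) 1 - (k0 k ω + kt k ω * b.s3.t.v k ((L2 k).p.π ω) 0 +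
            ky k ω * b.s3.P.v k ((L2 k).p.π ω) 0)| ≤ S.dl lam k * (K k * X.dl τ k) :=
            mul_le_mul_of_nonneg_left h4 (S.dl_pos lam k).le
        _ = K k * (S.dl lam k * X.dl τ k) := by ring
  obtain ⟨v, hv⟩ := key
  exact HH_of_Sht h0 h1 (DM_p_iff.mpr hL) hv

end BA

end

end Pool.Agent.Helper93.H4
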