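import Pool.Agent.Helper93.H4.Sqh
import Pool.Agent.Helper80.HCI.Fzq

/-! H4 at the windows of the sequence of boxes, the form `Hfz` of helper80. -/

set_option autoImplicit false

namespace Pool.Agent.Helper93.H4

open Filter Topology Pool.Agent.Helper69.RK Pool.Agent.Helper31.EC
open Pool.Agent.Helper98.FR Pool.Agent.Helper98.LV Pool.Agent.Helper31.NSB
open Pool.Agent.Helper80.HCI (H4P Hfz)
open Pool.Agent.Helper19.S12 (la)
open Pool.Agent.Helper59.EV (ST)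

noncomputable section

/-- **H4 at the windows of the sequence of boxes** -/
theorem hfz_sq {D : ℕ} (hD : 1 ≤ D) {g : ℝ} {S : Sp} {s : Sys S 3} (hst : ST 1 2) (hR : Rbb g s) {c w1 w d : ℝ}
    (hW : Win D s 0 1 2 c w1 w d) {σ A : ℝ} {N : Scl σ A}
    (Q : Sq s (la s 1 {0, 1}) (la s 2 {0, 1, 2}) c w1 w N) :
    ∀ i, i ≠ 0 → N.ν i ≤ σ → N.ν i < 1 → ∀ δ : ℝ, 0 < δ → ∀ᶠ j in atTop, Hfz Q j i δ := by
  intro i hi _ hr1 δ hδ
  filter_upwards [h4_sq hD hst hR hW Q i hi hr1 hδ] with j hj he1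
  exact hj _ he1 rfl

end

end Pool.Agent.Helper93.H4
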