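import Pool.Agent.Helper93.H4.Cor

/-! FULLNESS OF THE PROJECTIONS of the box coordinates: `be z + al R` is full over `(t, y)` for functions `al`, `be` of
zero entropy which generate the unit ideal. (H4) -/

set_option autoImplicit false

namespace Pool.Agent.Helper93.H4

open Finset Filter Topology Pool.Agent.Helper69.RK Pool.Agent.Helper31.EC Pool.Agent.Helper31.EC.Sp
open Pool.Agent.Helper40.EL Pool.Agent.Helper42.NS Pool.Agent.Helper91.GR
open Pool.Agent.Helper89.LX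
open Pool.Agent.Helper52.KP hiding ic ic_nonneg
open Pool.Agent.Helper59.EV (ST)

noncomputable section

variable {S X : Sp} {m q : ℕ}

theorem HH_im_iff {G : Gg q} {s2 : Sys X q} {c σ : ℝ} {T : Sp} (p : Pj T X) (E : ∀ k, (T.F k).Ω → Prop)
    (hE : 0 < ul (T.pr E)) : HH G (s2.im p E hE) c σ ↔ HH G ((s2.pull p).rest E hE) c σ := by
  rw [HH_iff, HH_iff, psi_im]

theorem unit_of_one_sub {f : QS X} {r : ℝ} (hr : 0 < r) (hf : f ∈ QS.Id X r) : IsUnit (1 - f) := by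
  have hr' : 0 < min r 1 := lt_min hr one_pos
  have h0 : f ∈ QS.Id X (min r 1) := QS.Id_anti (min_le_left _ _) hf
  obtain ⟨f, rfl⟩ := QS.mk_surj f
  rw [QS.mk_mem_Id (min_le_right _ _)] at h0
  have h1 := h0.levels (half_pos hr')
  have e : min r 1 - min r 1 / 2 = min r 1 / 2 := by ring
  rw [e] at h1
  have h2 : (1 : QS X) - QS.mk f = QS.mk (1 - f) := by rw [map_sub, map_one]
  rw [h2, QS.isUnit_mk]
  refine ⟨fun _ => 2, X.Sub_const zero_le_two, h1.mono ?_⟩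
  filter_upwards [(X.Sub_const (show (0 : ℝ) ≤ 2 by norm_num)).eventually_le (half_pos hr')] with
    k hk ω _ hω
  rw [TR.ev_zero, sub_zero] at hω
  rw [TR.ev_sub, TR.ev_one]
  have e1 : X.dl (min r 1 / 2) k ≤ 1 / 2 := by
    have e2 : X.dl (min r 1 / 2) k * 2 ^ (min r 1 / 2 * (X.F k).n) = 1 := by
      unfold Sp.dl
      rw [← Real.rpow_add (by norm_num : (0 : ℝ) < 2)]
      simp
    have e3 := mul_le_mul_of_nonneg_left hk (X.dl_pos (min r 1 / 2) k).le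
    linarith
  have h3 := abs_sub_abs_le_abs_sub (1 : ℝ) (TR.ev f k ω)
  rw [abs_one] at h3
  linarith

/-- generators of the unit ideal on events of extensions -/
theorem gen_sub {al be : TR X} (h : ∃ m n : QS X, m * QS.mk al + n * QS.mk be = 1) {T : Sp} (p : Pj T X)
    (E : ∀ k, (T.F k).Ω → Prop) (hE : 0 < ul (T.pr E)) : ∃ m n : QS (T.rest E),
      m * QS.mk (TR.rest E (p.tr al)) + n * QS.mk (TR.rest E (p.tr be)) = 1 := by
  obtain ⟨m, n, hmn⟩ := h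
  refine ⟨QS.rest E hE (p.qs m), QS.rest E hE (p.qs n), ?_⟩
  have h1 := congrArg (fun f => QS.rest E hE (p.qs f)) hmn
  simp only [map_add, map_mul, map_one] at h1
  exact h1

/-- functions which generate the unit ideal are not both small -/
theorem gen_low {al be : TR X} (h : ∃ m n : QS X, m * QS.mk al + n * QS.mk be = 1) : ∃ K0 : ℕ → ℝ, X.Sub K0 ∧
    Typ (S := X) (fun k ω => 1 ≤ K0 k * (|al.1 k ω| + |be.1 k ω|)) := by
  obtain ⟨m, n, hmn⟩ := h
  obtain ⟨m, rfl⟩ := QS.mk_surj m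
  obtain ⟨n, rfl⟩ := QS.mk_surj n
  rw [← map_mul, ← map_mul, ← map_add, ← map_one QS.mk] at hmn
  obtain ⟨E, K, hE, hK, hh⟩ := QS.mk_eq.mp hmn
  obtain ⟨Km, hKm, hm⟩ := m.2
  obtain ⟨Kn, hKn, hn⟩ := n.2
  have c2 := X.Sub_const (show (0 : ℝ) ≤ 2 by norm_num)
  refine ⟨fun k => 2 * (Km k + Kn k), c2.mul (hKm.add hKn), hE.mono ?_⟩
  filter_upwards [hh, hm, hn, hKm.1, hKn.1, (c2.mul hK).eventually_le one_pos] with k hh hm hn x1 x2 x3 ω hω hEω
  have y1 := hh ω hω hEω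
  rw [TR.ev_add, TR.ev_mul, TR.ev_mul, TR.ev_one] at y1
  have e9 : (2 : ℝ) ^ (1 * (X.F k).n) * X.dl 1 k = 1 := by
    unfold Sp.dl
    rw [← Real.rpow_add (by norm_num), add_neg_cancel, Real.rpow_zero]
  have y2 : 2 * (K k * X.dl 1 k) ≤ 1 := by
    have x3' : 2 * K k ≤ 2 ^ (1 * (X.F k).n) := by linarith
    have := mul_le_mul_of_nonneg_right x3' (X.dl_pos 1 k).le
    linarith
  have y3 : |m.1 k ω * al.1 k ω| ≤ Km k * |al.1 k ω| := by
    rw [abs_mul]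
    exact mul_le_mul_of_nonneg_right (hm ω hω) (abs_nonneg _)
  have y4 : |n.1 k ω * be.1 k ω| ≤ Kn k * |be.1 k ω| := by
    rw [abs_mul]
    exact mul_le_mul_of_nonneg_right (hn ω hω) (abs_nonneg _)
  have y5 : |m.1 k ω * al.1 k ω + n.1 k ω * be.1 k ω - 1| ≤ K k * X.dl 1 k := y1
  have y6 := abs_add_le (m.1 k ω * al.1 k ω) (n.1 k ω * be.1 k ω)
  have y7 := abs_sub_abs_le_abs_sub (1 : ℝ) (m.1 k ω * al.1 k ω + n.1 k ω * be.1 k ω)
  rw [abs_one, abs_sub_comm] at y7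
  have y8 : 0 ≤ Km k * |be.1 k ω| := mul_nonneg x1 (abs_nonneg _)
  have y9 : 0 ≤ Kn k * |al.1 k ω| := mul_nonneg x2 (abs_nonneg _)
  show 1 ≤ 2 * (Km k + Kn k) * (|al.1 k ω| + |be.1 k ω|)
  nlinarith

namespace BA

variable {s : Sys S 3} {c lam eta e : ℝ} {he : 0 < e} {l : Lab S} {ρ : Pj X (l.ovr e he)}

/-- NO DEEP SHEETS of the planar system -/
theorem noSheet (b : BA s c lam eta e he l ρ) (h0 : 0 ≤ c) (hcl : c ≤ lam) (hce : c ≤ eta) (h1 : eta + e ≤ 1)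
    (h2 : lam + e ≤ 1) {δ : ℝ} (hδ : 0 ≤ δ) (uf : Mxx (GD 3 1) c (eta + δ * e) s)
    (m1 : Mxx (SJ 1 {0, 1}) c (lam + δ * e) s) {al be : TR X} (hal : TR.dg al 1 = ⊥) (hbe : TR.dg be 1 = ⊥)
    (hz : ∃ m n : QS X, m * QS.mk al + n * QS.mk be = 1) {σ : ℝ}
    (h : HH (SJ 1 {0, 1}) (pls b.s3 hal hbe) 0 σ) : min σ 1 ≤ 2 * δ := by
  by_contra hc
  push Not at hc
  have h' : HH (SJ 1 {0, 1}) (pls b.s3 hal hbe) 0 (min σ 1) := HH.mono _ h le_rfl (min_le_left _ _)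
  have hm1 : min σ 1 ≤ 1 := min_le_right _ _
  generalize min σ 1 = τ at h' hc hm1
  have hm0 : 0 < τ := by linarith
  rcases typ_or (S := X) (fun k ω => X.dl (τ / 2) k ≤ |be.1 k ω|) with ht | hE
  · obtain ⟨K0, hK0, hun⟩ := gen_low hz
    have h3 := b.coreA hcl hce h1 hal hbe hK0 hun (β := τ / 2) (by linarith) (by linarith) ht hm1 h'
    have h4 := uf.self (HH_of_Hf h3)
    nlinarith
  · have h2' := HH_im' h' (Pj.id X) _ hE
    rw [HH_im_iff, pls_sub] at h2'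
    obtain ⟨m, n, hmn⟩ := gen_sub hz (Pj.id X) _ hE
    have hb : QS.mk (TR.rest (fun k ω => ¬ X.dl (τ / 2) k ≤ |be.1 k ω|) ((Pj.id X).tr be)) ∈
        QS.Id (X.rest (fun k ω => ¬ X.dl (τ / 2) k ≤ |be.1 k ω|)) (τ / 2) := by
      rw [QS.mk_mem_Id (by linarith)]
      refine ⟨fun _ _ => True, fun _ => 1, Typ_true, Sp.Sub_const _ zero_le_one, ?_⟩
      have h0' := ul_tendsto (UB_pr (S := X) fun k ω => ¬ X.dl (τ / 2) k ≤ |be.1 k ω|)
      filter_upwards [h0'.eventually (lt_mem_nhds (half_lt_self hE))] with k hk2 ω a _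
      have hpos : (X.F k).pb (fun ω => ¬ X.dl (τ / 2) k ≤ |be.1 k ω|) ≠ 0 := (lt_trans (half_pos hE) hk2).ne'
      have h4 := ((X.F k).rest_supp _ ω a).2 hpos
      have h5 : |be.1 k ω| < X.dl (τ / 2) k := not_le.mp h4
      show |be.1 k ω - 0| ≤ 1 * X.dl (τ / 2) k
      rw [sub_zero, one_mul]
      exact h5.le
    have hua : IsUnit (QS.mk (TR.rest (fun k ω => ¬ X.dl (τ / 2) k ≤ |be.1 k ω|) ((Pj.id X).tr al))) := by
      have h3 : 1 - n * QS.mk (TR.rest (fun k ω => ¬ X.dl (τ / 2) k ≤ |be.1 k ω|) ((Pj.id X).tr be)) =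
          m * QS.mk (TR.rest (fun k ω => ¬ X.dl (τ / 2) k ≤ |be.1 k ω|) ((Pj.id X).tr al)) := by
        rw [← hmn]
        ring
      have h4 := unit_of_one_sub (half_pos hm0) ((QS.Id (X.rest _) (τ / 2)).mul_mem_left n hb)
      rw [h3] at h4
      exact isUnit_of_mul_isUnit_right h4
    have h3 := (b.sub (Pj.id X) _ hE).coreB hcl (h0.trans hcl) h2 _ _ (QS.isUnit_mk.mp hua) (half_pos hm0)
      (by linarith) hb hm0 hm1 h2'
    have h4 := (m1.im (xle ((Pj.id X).comp ρ)).pj _ hE).self h3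
    have h5 : min τ (τ / 2) = τ / 2 := min_eq_right (by linarith)
    rw [h5] at h4
    nlinarith

/-- the planar system is full -/
theorem pls_full (hst : ST 1 2) (b : BA s c lam eta e he l ρ) (h0 : 0 ≤ c) (hcl : c ≤ lam) (hce : c ≤ eta)
    (h1 : eta + e ≤ 1) (h1' : lam + e ≤ 1) {δ : ℝ} (hδ : 0 ≤ δ) (uf : Mxx (GD 3 1) c (eta + δ * e) s)
    (m1 : Mxx (SJ 1 {0, 1}) c (lam + δ * e) s) {al be : TR X} (hal : TR.dg al 1 = ⊥) (hbe : TR.dg be 1 = ⊥)
    (hz : ∃ m n : QS X, m * QS.mk al + n * QS.mk be = 1) :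
    2 - 32 * δ ≤ h ((pls b.s3 hal hbe).P.dg 1) (pls b.s3 hal hbe).T := by
  rcases le_or_gt 1 (2 * δ) with hδ1 | hδ1
  · have h2 := h_nonneg ((pls b.s3 hal hbe).P.dg 1) (pls b.s3 hal hbe).T
    linarith
  have key : 2 - 16 * (2 * δ) ≤ h ((pls b.s3 hal hbe).P.dg 1) (pls b.s3 hal hbe).T := by
    apply planeE hst _ (by linarith)
    · intro T p E hE
      refine ic_zero_im (ic_zero (ρ := ρ) b.kap ?_ ?_) p E hE
      · exact (pls_lA b.s3 hal hbe).trans (b.ln.trans (ρ.map_mono (l.upL_mono e he le_sup_left)))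
      · exact (pls_lB b.s3 hal hbe).trans b.pt
    · intro T p E hE
      have h2 := b.rob T p E hE
      have e1 : restL E hE (p.map (TR.dg (TR.cor b.s3.P 0) 1)) =
          (imq p E).map (TR.dg (TR.cor ((pls b.s3 hal hbe).im p E hE).P 0) 1) := by
        rw [← Pj.tr_dg, ← TR.rest_dg E hE, ← Pj.tr_dg]
        rfl
      have e2 : restL E hE (p.map b.s3.T) = (imq p E).map ((pls b.s3 hal hbe).im p E hE).T := by
        have h3 : (imq p E).map ((pls b.s3 hal hbe).im p E hE).T = (((pls b.s3 hal hbe).pull p).rest E hE).t.dg 1 := by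
          show (imq p E).map (((pls b.s3 hal hbe).im p E hE).t.dg 1) = _
          rw [Pj.map_dg]
          rfl
        have h4 : restL E hE (p.map b.s3.T) = (((pls b.s3 hal hbe).pull p).rest E hE).t.dg 1 := by
          show restL E hE (p.map (b.s3.t.dg 1)) = ((p.vv b.s3.t).rest E).dg 1
          rw [VV.rest_dg E hE, ← Pj.map_dg]
        rw [h3, h4]
      rw [e1, e2, Pj.h_map] at h2
      exact h2
    · intro T p E hE σ hσ
      rw [HH_im_iff, pls_sub] at hσ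
      have h2 := (b.sub p E hE).noSheet h0 hcl hce h1 h1' hδ (uf.im (xle (p.comp ρ)).pj E hE)
        (m1.im (xle (p.comp ρ)).pj E hE) _ _ (gen_sub hz p E hE) hσ
      rcases min_choice σ 1 with h3 | h3
      · rw [h3] at h2
        exact h2
      · rw [h3] at h2
        linarith
  linarith

/-- FULLNESS OF THE PROJECTIONS -/
theorem proj_full (hst : ST 1 2) (b : BA s c lam eta e he l ρ) (h0 : 0 ≤ c) (hcl : c ≤ lam) (hce : c ≤ eta)
    (h1 : eta + e ≤ 1) (h1' : lam + e ≤ 1) {δ : ℝ} (hδ : 0 ≤ δ) (uf : Mxx (GD 3 1) c (eta + δ * e) s)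
    (m1 : Mxx (SJ 1 {0, 1}) c (lam + δ * e) s) {al be : TR X} (hal : TR.dg al 1 = ⊥) (hbe : TR.dg be 1 = ⊥)
    (hz : ∃ m n : QS X, m * QS.mk al + n * QS.mk be = 1) :
    1 - 32 * δ ≤ h (TR.dg (be * TR.cor b.s3.P 2 + al * TR.cor b.s3.P 1) 1) (TR.dg (TR.cor b.s3.P 0) 1 ⊔ b.s3.T) := by
  have h2 := b.pls_full hst h0 hcl hce h1 h1' hδ uf m1 hal hbe hz
  have h3 : (pls b.s3 hal hbe).P.dg 1 ≤ TR.dg (TR.cor b.s3.P 0) 1 ⊔
      TR.dg (be * TR.cor b.s3.P 2 + al * TR.cor b.s3.P 1) 1 := by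
    rw [TR.vv_dg_le_iff]
    intro i
    fin_cases i
    · exact le_sup_left
    · show TR.dg (TR.cor (pls b.s3 hal hbe).P 1) 1 ≤ _
      rw [pls_cor1]
      exact le_sup_right
  have h4 : h ((pls b.s3 hal hbe).P.dg 1) (pls b.s3 hal hbe).T ≤ h (TR.dg (TR.cor b.s3.P 0) 1 ⊔
      TR.dg (be * TR.cor b.s3.P 2 + al * TR.cor b.s3.P 1) 1) b.s3.T := h_mono h3
  rw [h_chain] at h4
  have h5 : h (TR.dg (TR.cor b.s3.P 0) 1) b.s3.T ≤ 1 := by
    refine (h_le_H _ _).trans ?_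
    have h6 := (TR.vec fun _ : Fin 1 => TR.cor b.s3.P 0).H_dg_le zero_le_one
    simp only [Nat.cast_one, one_mul] at h6
    exact h6
  linarith

end BA

end

end Pool.Agent.Helper93.H4
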