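import Pool.Agent.Helper93.H4.Up

/-! Labels of spaces over labels as labels of the system: no information in the window `0`. (H4, step B) -/

set_option autoImplicit false

namespace Pool.Agent.Helper93.H4

open Finset Filter Topology Pool.Agent.Helper69.RK Pool.Agent.Helper31.EC Pool.Agent.Helper31.EC.Sp
open Pool.Agent.Helper40.EL Pool.Agent.Helper42.NS
open Pool.Agent.Helper52.KP hiding ic ic_nonneg

noncomputable section

variable {S X : Sp} {m q : ℕ} {l : Lab S} {e : ℝ} {he : 0 < e} (ρ : Pj X (l.ovr e he))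

/-- a label of an extension of the space over `l`, as a label of the system -/
def cmpL (l2 : Lab X) : Lab S := l.comp e he (l2.down ρ)

theorem PLe_pull {R : Sp} (p : Pj X R) {x : X.Inf} {y : R.Inf} (h : cl x ≤ p.map (cl y)) :
    PLe (rpI x) (Part.pull p (rpI y)) := by
  have h1 : p.map (cl y) = cl (p.mapI y) := rfl
  rw [h1, ← PLe_rpI] at h
  exact h

theorem PLe_up_pull {x : X.Inf} {y : S.Inf} (h : cl x ≤ ρ.map (l.upL e he (cl y))) :
    PLe (rpI x) (Part.pull ρ (l.up e he (rpI y))) := by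
  rw [← Lab.rpI_upI]
  apply PLe_pull
  rw [Lab.upL_cl] at h
  exact h

variable {s : Sys S m} {s2 : Sys X q} {c : ℝ} {ρ}

theorem down_DM (hA : lA s2 0 ≤ ρ.map (l.upL e he (lA s c))) (hB : lB s2 ≤ ρ.map (l.upL e he (lB s))) {l2 : Lab X}
    (h2 : DMc s2 0 l2) : l2.DM (Part.pull ρ (l.up e he (cA s c))) (Part.pull ρ (l.up e he (cB s))) := by
  have h3 : l2.DM (cA s2 0) (cB s2) := h2
  refine Lab.DM.mono h3 ?_ ?_
  · rw [cA_eq, cA_eq]
    apply PLe_up_pull
    rw [cl_A, cl_A]
    exact hA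
  · rw [cB_eq, cB_eq]
    apply PLe_up_pull
    rw [cl_B, cl_B]
    exact hB

theorem cmpL_DM (hl : DMc s c l) (hA : lA s2 0 ≤ ρ.map (l.upL e he (lA s c)))
    (hB : lB s2 ≤ ρ.map (l.upL e he (lB s))) {l2 : Lab X} (h2 : DMc s2 0 l2) : DMc s c (cmpL ρ l2) :=
  Lab.DM.comp hl ((down_DM hA hB h2).down ρ)

/-- no information in the window `0` -/
theorem ic_zero (hl : IsKap s c l) (hA : lA s2 0 ≤ ρ.map (l.upL e he (lA s c)))
    (hB : lB s2 ≤ ρ.map (l.upL e he (lB s))) : ic s2 0 ≤ 0 := by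
  obtain ⟨l2, h2⟩ := exists_kap s2 0
  have h3 := down_DM hA hB h2.1
  have hbd : (l.up e he (cA s c)).Bd := by
    rw [cA_eq, ← Lab.rpI_upI]
    exact rpI_Bd _
  have h4 : (l2.down ρ).info = l2.info := Lab.DM.info_down ρ h3 hbd
  have h5 : Nul S (fun k => ((l2.down ρ) k).info) := Lab.IsMax.triv hl (cA_Bd s c) (l2.down ρ) (h3.down ρ)
  have h6 : Nul (l.ovr e he) (fun k => ((l2.down ρ) k).info) := (Lab.nul_over l e he).mpr h5
  have h7 : (l2.down ρ).info = 0 := ul_eq h6
  have h8 := h2.info_eq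
  rw [add_zero] at h8
  linarith

/-- no information is robust -/
theorem ic_zero_im (h : ic s2 0 ≤ 0) {T : Sp} (p : Pj T X) (E : ∀ k, (T.F k).Ω → Prop) (hE : 0 < ul (T.pr E)) :
    ic (s2.im p E hE) 0 ≤ 0 := by
  rcases Sp.typ_or E with ht | hE'
  · exact (ic_typ s2 p E ht hE 0).le.trans h
  · have h1 := ic_add s2 p E hE hE' 0
    have h2 := Helper40.EL.ic_nonneg (s := s2.im p (fun k ω => ¬ E k ω) hE') le_rfl zero_le_one
    have h3 := Helper40.EL.ic_nonneg (s := s2.im p E hE) le_rfl zero_le_one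
    have h4 : ul (T.pr E) ≤ 1 := ul_pr_le_one E
    have h5 : ul (T.pr E) * ic (s2.im p E hE) 0 ≤ 0 := by
      have h6 : 0 ≤ (1 - ul (T.pr E)) * ic (s2.im p (fun k ω => ¬ E k ω) hE') 0 := mul_nonneg (by linarith) h2
      linarith
    by_contra hc
    push Not at hc
    have := mul_pos hE hc
    linarith

/-! ### robust lower bounds pass to events of extensions -/

open Pool.Agent.Helper60.CS in
theorem rob_sub {R W : Sp} {x y : R.L} {b : ℝ} (h : Slow.RobGe x y b) (p : Pj W R) (E : ∀ k, (W.F k).Ω → Prop)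
    (hE : 0 < ul (W.pr E)) : Slow.RobGe (S := W.rest E) (restL E hE (p.map x)) (restL E hE (p.map y)) b := by
  induction x using Sp.cl_ind with | _ A
  induction y using Sp.cl_ind with | _ B
  have h0 := (rob_ge_iff A B b).mp h
  intro T' p' E' hE'
  have h1 : ∀ C : R.Inf, restL E hE (p.map (cl C)) = (imq p E).map (cl (imI p E C)) := fun C => rfl
  have h2 : ∀ C : R.Inf, restL E' hE' (p'.map (restL E hE (p.map (cl C)))) =
      restL E' hE' ((p'.comp (imq p E)).map (cl (imI p E C))) := by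
    intro C
    rw [h1, Pj.comp_map]
  rw [h2, h2, h_im]
  apply le_of_forall_pos_le_add
  intro ε hε
  rw [← sub_le_iff_le_add]
  apply const_le_ul
  · exact UB_rt (S := Sp.im (p'.comp (imq p E)) E') (imI (p'.comp (imq p E)) E' (imI p E A))
      (imI (p'.comp (imq p E)) E' (imI p E B)).1
  · filter_upwards [h0 (ul (W.pr E) / 2 * (ul (T'.pr E') / 2)) (by positivity) ε hε, pr_half' hE, pr_half' hE']
      with k hk h3 h4
    have hn : 0 < (R.F k).n := (R.F k).pos
    have h5 := im_cdn (p.fp k) (E k) (half_pos hE) h3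
    have h6 := im_cdn ((p'.comp (imq p E)).fp k) (E' k) (half_pos hE') h4
    have h7 : Cdn (R.F k) (ul (W.pr E) / 2 * (ul (T'.pr E') / 2))
        (FSp.im ((p'.comp (imq p E)).fp k) (E' k)).μ := by
      refine ⟨h6.nn, h6.ms, fun ω => ?_⟩
      have h8 := h6.le ω
      have h9 := h5.le ω
      have h10 := mul_le_mul_of_nonneg_left h8 (half_pos hE).le
      rw [← mul_assoc] at h10
      exact h10.trans h9
    have h8 := hk _ h7
    show b - ε ≤ _ / (R.F k).n
    rw [le_div_iff₀ hn]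
    exact h8

end

end Pool.Agent.Helper93.H4
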