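import Pool.Agent.Helper91.GR.Ovr
import Pool.Agent.Helper52.KP.IcF
import Pool.Agent.Helper60.CS.Los

/-! Spaces over labels, of depth `e n`: events of extensions are spaces over labels of the restricted system; labels of
such spaces are labels of the system. (H4, step B) -/

set_option autoImplicit false

namespace Pool.Agent.Helper93.H4

open Finset Filter Topology Pool.Agent.Helper69.RK Pool.Agent.Helper31.EC Pool.Agent.Helper31.EC.Sp
open Pool.Agent.Helper40.EL Pool.Agent.Helper52.KP Pool.Agent.Helper42.NS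

noncomputable section

variable {S T : Sp} {m : ℕ} {l : Lab S} {e : ℝ} {he : 0 < e} (π : Pj T (l.ovr e he))

/-- the trivial label on an extension -/
def tle : Lab (l.ovr e he) := fun k => ⟨T.F k, π.fp k, π.hn k, ⊤⟩

theorem tle_leak (k : ℕ) (x : FL ((l.ovr e he).F k)) : (tle π k).leak x = 0 :=
  Pool.Agent.Helper91.GR.I_bot_left _ _

/-- the label `l` on an extension of the space over it -/
def xle : Lab S := l.comp e he (tle π)

theorem xle_info : (xle π).info = l.info := by
  unfold Lab.info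
  congr 1
  funext k
  congr 1
  have h1 : (xle π k).info = (l k).info + I (tle π k).v
      ((tle π k).p.map ((frb (l k).T (l k).V e he).map (l k).p.top)) ⊥ := FLab.comp_info _ _ _ _
  have h2 : (tle π k).v = ⊥ := rfl
  rw [h1, h2, Pool.Agent.Helper91.GR.I_bot_left, add_zero]

variable {A B : Part S}

theorem xle_DM (h : l.DM A B) : (xle π).DM A B := by
  refine Lab.DM.comp h ⟨?_, ?_⟩
  · have : (fun k => (tle π k).leak (l.up e he A k)) = fun _ => 0 := by
      funext k
      exact tle_leak π k _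
    rw [this]
    exact Nul_zero _
  · have : (fun k => (tle π k).leak (l.up e he B k)) = fun _ => 0 := by
      funext k
      exact tle_leak π k _
    rw [this]
    exact Nul_zero _

theorem xle_IsMax (h : l.IsMax A B) : (xle π).IsMax A B := ⟨xle_DM π h.1, fun l' h' => by
  rw [xle_info]
  exact h.2 l' h'⟩

variable (E : ∀ k, (T.F k).Ω → Prop)

/-- the label restricted to an event of the extension -/
def xlE : Lab (Sp.im (xle π).pj E) := (xle π).im E

variable {E}

theorem xlE_IsKap {s : Sys S m} {c : ℝ} (h : IsKap s c l) (hE : 0 < ul (T.pr E)) :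
    IsKap (s.im (xle π).pj E hE) c (xlE π E) := by
  have h1 := Lab.IsMax.im_max (xle_IsMax π h) E hE (cA_Bd s c)
    (pof_Bd (im_VB (xle π).pj (fun k ω => ¬ E k ω) (Inf.sup (Inf.sup (s.Ia 1) (s.Ix 1)) (s.It c)).2))
  exact h1

variable (E)

/-- the projection onto the space over the restricted label -/
def ide : Pj (T.rest E) ((xlE π E).ovr e he) where
  π := fun _ ω => ω
  law := fun k => push_id _
  hZ := fun k ω ω' a b => by
    have a' : (T.F k).μ ω ≠ 0 := ((T.F k).rest_supp (E k) ω a).1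
    have b' : (T.F k).μ ω' ≠ 0 := ((T.F k).rest_supp (E k) ω' b).1
    have h1 : (T.F k).Z ω ω' ↔ ((l.ovr e he).F k).Z (π.π k ω) (π.π k ω') := π.hZ k ω ω' a' b'
    have h2 : ((l.ovr e he).F k).Z (π.π k ω) (π.π k ω') ↔
        ((l k).V (π.π k ω) (π.π k ω') ∧ (l k).T.Z (π.π k ω) (π.π k ω')) := Iff.rfl
    have h3 : (l k).T.Z (π.π k ω) (π.π k ω') ↔ (S.F k).Z ((l k).p.π (π.π k ω)) ((l k).p.π (π.π k ω')) :=
      (l k).p.hZ _ _ (π.supp k ω a') (π.supp k ω' b')
    show (T.F k).Z ω ω' ↔ (((l k).V (π.π k ω) (π.π k ω') ∧ (⊤ : Setoid (T.F k).Ω) ω ω') ∧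
      (S.F k).Z ((l k).p.π (π.π k ω)) ((l k).p.π (π.π k ω')))
    rw [h1, h2, h3]
    exact ⟨fun h => ⟨⟨h.1, trivial⟩, h.2⟩, fun h => ⟨h.1.1, h.2⟩⟩
  hn := fun k => by
    show (T.F k).n = e * (S.F k).n
    rw [π.hn k]
    exact l.n_over e he k

/-- digits of variables of `S` on the event -/
theorem ide_map {q : ℕ} (y : S.VV q) (r : ℝ) (hE : 0 < ul (T.pr E)) :
    (ide π E).map ((xlE π E).upL e he ((y.im (xle π).pj E).dg r)) =
      Sp.restL E hE (π.map (l.upL e he (y.dg r))) := by
  have e1 : ∀ {R : Sp} (L : Lab R) {p : ℕ} (z : R.VV p), L.upL e he (z.dg r) =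
      ((L.pj.vv z).chg L.V e he).dg (r / e) := by
    intro R L p z
    rw [VV.chg_dg, mul_div_cancel₀ _ he.ne']
    unfold Lab.upL
    rw [← Pj.map_dg]
  have h1 := congrArg (ide π E).map (e1 (xlE π E) (y.im (xle π).pj E))
  have h2 := Pj.map_dg (ide π E) (((xlE π E).pj.vv (y.im (xle π).pj E)).chg (xlE π E).V e he) (r / e)
  have h3 := congrArg (fun z => Sp.restL E hE (π.map z)) (e1 l y)
  have h4 := Pj.map_dg π ((l.pj.vv y).chg l.V e he) (r / e)
  have h5 := VV.rest_dg E hE (π.vv ((l.pj.vv y).chg l.V e he)) (r / e)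
  have h6 := congrArg (Sp.restL E hE) h4
  exact (h1.trans h2).trans (Eq.trans h5 (h6.symm.trans h3.symm))

end

end Pool.Agent.Helper93.H4
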