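import Pool.Agent.Helper93.H4.Nu
import Pool.Agent.Helper31.NSB.Lev

/-! THE HYPOTHESES OF H4 at the windows near a typical window. -/

set_option autoImplicit false

namespace Pool.Agent.Helper93.H4

open Finset Filter Topology Pool.Agent.Helper69.RK Pool.Agent.Helper31.EC Pool.Agent.Helper31.EC.Sp
open Pool.Agent.Helper40.EL Pool.Agent.Helper42.NS Pool.Agent.Helper91.GR
open Pool.Agent.Helper98.FR Pool.Agent.Helper89.LX Pool.Agent.Helper31.NSB
open Pool.Agent.Helper19.S12 (la le_la la_ge_self)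
open Pool.Agent.Helper59.EV (ST)

noncomputable section

/-- functions with the derivative `0` and the value `0` -/
theorem der_zero {f : ℝ → ℝ} {c : ℝ} (h : HasDerivAt f 0 c) (h0 : f c = 0) {ε : ℝ} (hε : 0 < ε) :
    ∃ ρ : ℝ, 0 < ρ ∧ ∀ x, |x - c| < ρ → |f x| ≤ ε * |x - c| := by
  have h1 := (hasDerivAt_iff_isLittleO.mp h).def hε
  obtain ⟨ρ, hρ, h2⟩ := Metric.eventually_nhds_iff.mp h1
  refine ⟨ρ, hρ, fun x hx => ?_⟩
  have h3 := h2 (y := x) hx
  rw [h0, sub_zero, smul_zero, sub_zero, Real.norm_eq_abs, Real.norm_eq_abs] at h3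
  exact h3

theorem near_lt {f : ℝ → ℝ} {c a : ℝ} (h : ContinuousAt f c) (h0 : f c < a) : ∃ ρ : ℝ, 0 < ρ ∧
    ∀ x, |x - c| < ρ → f x < a := by
  obtain ⟨ρ, hρ, h2⟩ := Metric.eventually_nhds_iff.mp (h.eventually (gt_mem_nhds h0))
  exact ⟨ρ, hρ, fun x hx => h2 hx⟩

/-- robust gauges -/
theorem Mxx_of_rob {S : Sp} {m : ℕ} {s : Sys S m} {ι : Type} {G : ι → Gg m} (hR : RobustG G s) (i : ι) {c τ₀ : ℝ}
    (h : ∀ τ, HH (G i) s c τ → τ ≤ τ₀) : Mxx (G i) c τ₀ s :=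
  Mxx.of_psi (fun T p E hE c σ => hR.robF i c σ T p E hE) h

/-- THE HYPOTHESES OF H4 at the windows near a typical window -/
theorem hw_win {D : ℕ} (hD : 1 ≤ D) {g : ℝ} {S : Sp} {s : Sys S 3} (hst : ST 1 2) (hR : Rbb g s) {c w1 w d : ℝ}
    (hW : Win D s 0 1 2 c w1 w d) {r δ : ℝ} (hr0 : 0 ≤ r) (hr1 : r < 1) (hδ : 0 < δ) : ∃ e0 : ℝ, 0 < e0 ∧
    ∀ e : ℝ, 0 < e → e ≤ e0 → ∀ (q lam : ℕ → ℝ) (i : ℕ), q i = c + e * r → lam i = la s 1 {0, 1} (q i) →
      HW (s := s) (q := q) (lam := lam) i (e * (1 - r)) (la s 2 {0, 1, 2} (q i)) δ := by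
  have htop : la s 2 {0, 1, 2} c = Pool.Agent.Helper3.LF.eta s D c := hW.top
  have hord : la s 1 {0, 1} c ≤ la s 2 {0, 1, 2} c := hW.ord
  have hdl : HasDerivAt (fun b => la s 1 {0, 1} b) w1 c := hW.dl
  have hde : HasDerivAt (fun b => la s 2 {0, 1, 2} b) w c := hW.de
  have hdD : HasDerivAt (fun b => Pool.Agent.Helper3.LF.eta s D b) w c := hW.dD
  have hlt : Pool.Agent.Helper3.LF.eta s D c < 1 := hW.lt1 c ⟨by linarith [hW.d0], by linarith [hW.d0]⟩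
  have hc0 : 0 < c := by linarith [hW.d0, hW.cd]
  have hc1 : c < 1 := by linarith [hW.d0, hW.cd1]
  have h1r : 0 < 1 - r := by linarith
  obtain ⟨κ, hκ⟩ : ∃ κ, κ = (1 - la s 2 {0, 1, 2} c) / 2 := ⟨_, rfl⟩
  have hκ0 : 0 < κ := by rw [hκ]; linarith
  obtain ⟨ρ1, hρ1, hz⟩ := near_lt hde.continuousAt (show la s 2 {0, 1, 2} c < 1 - κ by rw [hκ]; linarith)
  obtain ⟨ρ2, hρ2, hl⟩ := near_lt hdl.continuousAt (show la s 1 {0, 1} c < 1 - κ by rw [hκ]; linarith)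
  have hdd : HasDerivAt (fun b => Pool.Agent.Helper3.LF.eta s D b - la s 2 {0, 1, 2} b) 0 c := by
    have h := hdD.sub hde
    rw [sub_self] at h
    exact h
  obtain ⟨ρ3, hρ3, hd⟩ := der_zero hdd (by rw [htop, sub_self]) (mul_pos hδ h1r)
  obtain ⟨ρ, hρ⟩ : ∃ ρ, ρ = min (min ρ1 ρ2) (min ρ3 (min κ (1 - c))) := ⟨_, rfl⟩
  have hρ0 : 0 < ρ := by
    rw [hρ]
    exact lt_min (lt_min hρ1 hρ2) (lt_min hρ3 (lt_min hκ0 (by linarith)))
  have b1 : ρ ≤ ρ1 := by rw [hρ]; exact (min_le_left _ _).trans (min_le_left _ _)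
  have b2 : ρ ≤ ρ2 := by rw [hρ]; exact (min_le_left _ _).trans (min_le_right _ _)
  have b3 : ρ ≤ ρ3 := by rw [hρ]; exact (min_le_right _ _).trans (min_le_left _ _)
  have b4 : ρ ≤ κ := by rw [hρ]; exact (min_le_right _ _).trans ((min_le_right _ _).trans (min_le_left _ _))
  have b5 : ρ ≤ 1 - c := by rw [hρ]; exact (min_le_right _ _).trans ((min_le_right _ _).trans (min_le_right _ _))
  refine ⟨ρ / 2, by linarith, fun e he0 he1 q lam i hq hlam => ?_⟩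
  have x0 : 0 ≤ e * r := mul_nonneg he0.le hr0
  have x1 : e * r ≤ e := by nlinarith
  have x2 : |q i - c| = e * r := by
    rw [hq, add_sub_cancel_left, abs_of_nonneg x0]
  have x3 : |q i - c| < ρ := by
    rw [x2]
    linarith
  have x4 : 0 ≤ e * (1 - r) := mul_nonneg he0.le h1r.le
  have x5 : e * (1 - r) ≤ κ := by nlinarith
  have y1 : la s 2 {0, 1, 2} (q i) < 1 - κ := hz _ (x3.trans_le b1)
  have y2 : la s 1 {0, 1} (q i) < 1 - κ := hl _ (x3.trans_le b2)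
  have y3 := hd _ (x3.trans_le b3)
  have hq0 : 0 ≤ q i := by rw [hq]; linarith
  have hq1 : q i ≤ 1 := by rw [hq]; linarith
  refine ⟨hst, hδ.le, la_ge_self hq0 hq1, by linarith, by rw [hlam]; linarith, ?_, ?_⟩
  · apply Mxx_of_rob (hR.gd 1) ()
    intro τ hτ
    have h1 : Hf s D (q i) τ := Hf_deg hD (Hf_of_HH hτ)
    have h2 := Pool.Agent.Helper3.LF.le_eta h1
    have h3 := (le_abs_self _).trans y3
    rw [x2] at h3
    have h4 : δ * (1 - r) * (e * r) ≤ δ * (e * (1 - r)) := by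
      have h5 : 0 ≤ δ * (e * (1 - r)) := mul_nonneg hδ.le x4
      have h6 : δ * (1 - r) * (e * r) = δ * (e * (1 - r)) * r := by ring
      rw [h6]
      exact mul_le_of_le_one_right h5 hr1.le
    linarith
  · apply Mxx_of_rob (hR.sj 1 {0, 1}) ()
    intro τ hτ
    have h2 := le_la hτ
    have h5 : 0 ≤ δ * (e * (1 - r)) := mul_nonneg hδ.le x4
    rw [hlam]
    linarith

end

end Pool.Agent.Helper93.H4
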